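import Pool.Agent.H639.LU.Stubs

namespace Pool.Agent.H639.LU

open Nat.Partrec (Code)
open Nat.Partrec.Code (evaln)
open Encodable
open Pool.Agent.Helper446.Defs Pool.Agent.Helper446.Oracle

private theorem b1_len (X : ℕ → Bool) (n : ℕ) : (seg X n).length = n := by
  simp [seg]

private theorem b1_succ (X : ℕ → Bool) (n : ℕ) : seg X (n + 1) = seg X n ++ [X n] := by
  simp [seg, List.range_succ]

private theorem b1_mono (X : ℕ → Bool) {a b : ℕ} (h : a ≤ b) : seg X a <+: seg X b := by
  induction b, h using Nat.le_induction with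
  | base => exact List.prefix_rfl
  | succ n _ ih =>
    rw [b1_succ]
    exact ih.trans (List.prefix_append _ _)

private theorem b1_pre (X : ℕ → Bool) {n : ℕ} {y : Str} (h : y <+: seg X n) :
    seg X y.length = y := by
  have hl : y.length ≤ n := by
    have := h.length_le
    rwa [b1_len] at this
  have h1 : seg X y.length <+: seg X n := b1_mono X hl
  refine (List.prefix_of_prefix_length_le h1 h ?_).eq_of_length ?_
  · rw [b1_len]
  · rw [b1_len]

private theorem b1_getD {x y : Str} (h : x <+: y) {n : ℕ} (hn : n < x.length) :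
    x.getD n false = y.getD n false := by
  obtain ⟨l, rfl⟩ := h
  rw [List.getD_append _ _ _ _ hn]

theorem B1 : P_B1 := by
  intro hD1 c G hT
  obtain ⟨-, -, hdm, hdl⟩ := hD1
  have ha : ∀ η η' : Str, G η <+: G (η ++ η') := by
    intro η η'
    induction η' generalizing η with
    | nil => rw [List.append_nil]
    | cons b l ih =>
      have h1 := ih (η ++ [b])
      rw [List.append_assoc] at h1
      exact (hT.mono η b).trans h1
  have hb1 : ∀ (A : ℕ → Bool) (t : ℕ), t ≤ (G (seg A t)).length := by
    intro A t
    have := hdl c (G (seg A t))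
    rwa [hT.dec, b1_len] at this
  have hmon : ∀ (A : ℕ → Bool) (s t : ℕ), s ≤ t → G (seg A s) <+: G (seg A t) := by
    intro A s t hst
    obtain ⟨l, hl⟩ := b1_mono A hst
    rw [← hl]
    exact ha _ _
  have hb2 : ∀ (A : ℕ → Bool) (t : ℕ), seg (br G A) (G (seg A t)).length = G (seg A t) := by
    intro A t
    apply List.ext_getElem
    · rw [b1_len]
    · intro n h1 h2
      have e1 : (seg (br G A) (G (seg A t)).length)[n] = br G A n := by simp [seg]
      have e2 : (G (seg A t))[n] = (G (seg A t)).getD n false :=
        (List.getD_eq_getElem _ _ h2).symm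
      rw [e1, e2]
      unfold br
      have h3 : n < (G (seg A (n + 1))).length := hb1 A (n + 1)
      rcases le_total (n + 1) t with h | h
      · exact b1_getD (hmon A _ _ h) h3
      · exact (b1_getD (hmon A _ _ h) h2).symm
  refine ⟨ha, fun A t => ⟨hb1 A t, hb2 A t⟩, fun A t => ?_, fun A k => ?_⟩
  · have h1 : seg (br G A) t <+: G (seg A t) := by
      rw [← hb2 A t]
      exact b1_mono _ (hb1 A t)
    have h2 := hdm c _ _ h1
    rw [hT.dec] at h2
    exact ⟨_, (b1_pre A h2).symm⟩
  · rw [hb2, hT.dec]

end Pool.Agent.H639.LU
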