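import Pool.Agent.H639.LU.Stubs

/-!
Task B2: closure properties of the set of branches and of the boundary.
-/

namespace Pool.Agent.H639.LU

open Nat.Partrec (Code)
open Nat.Partrec.Code (evaln)
open Encodable
open Pool.Agent.Helper446.Defs Pool.Agent.Helper446.Oracle

theorem B2_seg_len (X : ℕ → Bool) (n : ℕ) : (seg X n).length = n := by
  simp [seg]

theorem B2_seg_get (X : ℕ → Bool) {n i : ℕ} (h : i < n) : (seg X n)[i]? = some (X i) := by
  simp [seg, h]

theorem B2_seg_agree {X Y : ℕ → Bool} {n : ℕ} (h : seg X n = seg Y n) {i : ℕ} (hi : i < n) :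
    X i = Y i := by
  have h1 := B2_seg_get X hi
  have h2 := B2_seg_get Y hi
  rw [h] at h1
  exact Option.some.inj (h1.symm.trans h2)

theorem B2_seg_congr {X Y : ℕ → Bool} {n : ℕ} (h : ∀ i < n, X i = Y i) : seg X n = seg Y n := by
  unfold seg
  apply List.map_congr_left
  intro i hi
  exact h i (List.mem_range.1 hi)

theorem B2_seg_le {X Y : ℕ → Bool} {m n : ℕ} (hmn : m ≤ n) (h : seg X n = seg Y n) :
    seg X m = seg Y m :=
  B2_seg_congr fun _ hi => B2_seg_agree h (lt_of_lt_of_le hi hmn)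

theorem B2_seg_take (X : ℕ → Bool) {m n : ℕ} (hmn : m ≤ n) : (seg X n).take m = seg X m := by
  unfold seg
  rw [← List.map_take, List.take_range, min_eq_left hmn]

theorem B2_seg_prefix (X : ℕ → Bool) {m n : ℕ} (hmn : m ≤ n) : seg X m <+: seg X n := by
  rw [← B2_seg_take X hmn]
  exact List.take_prefix _ _

theorem B2_bound (G : Str → Str) (k : ℕ) : ∃ M, ∀ η : Str, η.length = k → (G η).length ≤ M := by
  have hfin : Set.Finite {η : Str | η.length = k} := List.finite_length_eq Bool k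
  obtain ⟨M, hM⟩ := (hfin.image (fun η => (G η).length)).bddAbove
  exact ⟨M, fun η hη => hM ⟨η, hη, rfl⟩⟩

theorem B2_one (hD : P_D1) (hB : P_B1) (c : Code) (G : Str → Str) (hT : Tr c G) :
    Clo (Rng G) := by
  intro X hX
  obtain ⟨_, hb2, _, _⟩ := hB hD c G hT
  obtain ⟨_, _, hd3, _⟩ := hD
  -- for each k there is a node of length k below X
  have h1 : ∀ k, ∃ η : Str, η.length = k ∧ k ≤ (G η).length ∧ seg X (G η).length = G η := by
    intro k
    obtain ⟨M, hM⟩ := B2_bound G k
    obtain ⟨X', ⟨A, rfl⟩, hA⟩ := hX M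
    obtain ⟨h2, h3⟩ := hb2 A k
    have h4 : (G (seg A k)).length ≤ M := hM _ (B2_seg_len A k)
    refine ⟨seg A k, B2_seg_len A k, h2, ?_⟩
    rw [← B2_seg_le h4 hA]
    exact h3
  choose η hη1 hη2 hη3 using h1
  have h5 : ∀ k l, k ≤ l → η k <+: η l := by
    intro k l hkl
    rcases le_total (G (η k)).length (G (η l)).length with h | h
    · have h6 := B2_seg_prefix X h
      rw [hη3, hη3] at h6
      have h7 := hd3 c _ _ h6
      rwa [hT.dec, hT.dec] at h7
    · have h6 := B2_seg_prefix X h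
      rw [hη3, hη3] at h6
      have h7 := hd3 c _ _ h6
      rw [hT.dec, hT.dec] at h7
      have h8 : η l = η k := by
        apply h7.eq_of_length_le
        rw [hη1, hη1]; exact hkl
      rw [h8]
  let A : ℕ → Bool := fun n => (η (n + 1)).getD n false
  have h9 : ∀ k, seg A k = η k := by
    intro k
    apply List.ext_getElem?
    intro i
    rcases lt_or_ge i k with hi | hi
    · rw [B2_seg_get A hi]
      have h10 : η (i + 1) <+: η k := h5 _ _ hi
      obtain ⟨w, hw⟩ := h10
      rw [← hw, List.getElem?_append_left (by rw [hη1]; omega)]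
      have h11 : i < (η (i + 1)).length := by rw [hη1]; omega
      change some ((η (i + 1)).getD i false) = _
      rw [List.getD_eq_getElem?_getD, List.getElem?_eq_getElem h11]
      rfl
    · rw [List.getElem?_eq_none (by rw [B2_seg_len]; exact hi),
        List.getElem?_eq_none (by rw [hη1]; exact hi)]
  refine ⟨A, ?_⟩
  funext n
  change (G (seg A (n + 1))).getD n false = X n
  rw [h9]
  have h12 : n < (G (η (n + 1))).length := lt_of_lt_of_le (Nat.lt_succ_self n) (hη2 (n + 1))
  have h13 := B2_seg_get X h12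
  rw [hη3] at h13
  rw [List.getD_eq_getElem?_getD, h13]
  rfl

theorem B2_two (hD : P_D1) (hB : P_B1) (F : Set (ℕ → Bool)) (c : Code) (G : Str → Str)
    (hE : Emb F c G) (hF : Clo F) : Rng G ⊆ F := by
  rintro _ ⟨A, rfl⟩
  obtain ⟨_, hb2, _, _⟩ := hB hD c G hE.toTr
  apply hF
  intro t
  obtain ⟨X, hXF, hX⟩ := hE.mem (seg A t)
  obtain ⟨h2, h3⟩ := hb2 A t
  refine ⟨X, hXF, ?_⟩
  exact B2_seg_le h2 (hX.trans h3.symm)

theorem B2_three (r : Code) (F : Set (ℕ → Bool)) (n : ℕ) (hF : Clo F) : Clo (Bd r F n) := by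
  intro X hX
  refine ⟨?_, ?_, ?_⟩
  · apply hF
    intro t
    obtain ⟨X', hX', h⟩ := hX t
    exact ⟨X', hX'.1, h⟩
  · rintro ⟨s, hs⟩
    obtain ⟨X', hX', h⟩ := hX s
    apply hX'.2.1
    refine ⟨s, ?_⟩
    rw [h]
    exact hs
  · intro t
    obtain ⟨X', hX', h⟩ := hX t
    obtain ⟨Z, hZ, h1, h2⟩ := hX'.2.2 t
    exact ⟨Z, hZ, h1.trans h, h2⟩

theorem B2 : P_B2 := fun hD hB =>
  ⟨fun c G hT => B2_one hD hB c G hT, fun F c G hE hF => B2_two hD hB F c G hE hF,
    fun r F n hF => B2_three r F n hF⟩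

end Pool.Agent.H639.LU
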