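import Pool.Agent.H639.LU.Stubs

/-!
Task B3: the set of branches of a decoded tree has members of cofinally many degrees.
-/

namespace Pool.Agent.H639.LU

open Nat.Partrec (Code)
open Nat.Partrec.Code (evaln)
open Encodable
open Pool.Agent.Helper446 Pool.Agent.Helper446.Defs Pool.Agent.Helper446.Oracle

theorem B3_seg (z : ℕ → Bool) (k n : ℕ) (b : Bool) :
    (seg z k)[n]? = some b ↔ n < k ∧ z n = b := by
  unfold seg
  rw [List.getElem?_map]
  by_cases h : n < k
  · rw [List.getElem?_range h]
    simp [h]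
  · have h' : (List.range k)[n]? = none := by
      rw [List.getElem?_eq_none_iff, List.length_range]
      omega
    rw [h']
    simp [h]

theorem B3_iff (hB : P_B1) (hD : P_D1) (c : Code) (G : Str → Str) (hG : Tr c G) (z : ℕ → Bool)
    (n : ℕ) (b : Bool) :
    z n = b ↔ ∃ s, (dec c (seg (br G z) s))[n]? = some b := by
  obtain ⟨-, -, h3, h4⟩ := hB hD c G hG
  constructor
  · intro h
    refine ⟨(G (seg z (n + 1))).length, ?_⟩
    rw [h4 z (n + 1), B3_seg]
    exact ⟨Nat.lt_succ_self n, h⟩
  · rintro ⟨s, hs⟩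
    obtain ⟨k, hk⟩ := h3 z s
    rw [hk, B3_seg] at hs
    exact hs.2

theorem B3_C1 : P_C1 := by
  have h1 : Primrec (fun p : Code × Str × ℕ => nxtv p.1 p.2.1 p.2.2) := by
    unfold nxtv
    refine Primrec.list_head?.comp (Primrec.listFilterMap (f := fun p : Code × Str × ℕ =>
      List.range (p.2.1.length + 1)) (g := fun (p : Code × Str × ℕ) (s : ℕ) =>
      evaln p.2.1.length p.1 (encode (p.2.2, p.2.1.take s))) ?_ ?_)
    · exact Primrec.list_range.comp (Primrec.succ.comp
        (Primrec.list_length.comp (Primrec.fst.comp Primrec.snd)))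
    · refine Nat.Partrec.Code.primrec_evaln.comp (Primrec.pair (Primrec.pair ?_ ?_) ?_)
      · exact Primrec.list_length.comp (Primrec.fst.comp (Primrec.snd.comp Primrec.fst))
      · exact Primrec.fst.comp Primrec.fst
      · refine Primrec.encode.comp (Primrec.pair (Primrec.snd.comp (Primrec.snd.comp Primrec.fst))
          (Primrec.list_take.comp Primrec.snd
            (Primrec.fst.comp (Primrec.snd.comp Primrec.fst))))
  have h2 : Primrec (fun p : Code × Str × ℕ => nxt p.1 p.2.1 p.2.2) := by
    unfold nxt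
    refine Primrec.option_map h1 ?_
    exact Primrec.beq.comp₂ Primrec₂.right (Primrec₂.const 1)
  have h3 : Primrec (fun p : Code × Str × ℕ => hst p.1 p.2.1 p.2.2) := by
    unfold hst
    exact Primrec.option_isSome.comp h1
  refine ⟨h1.to_comp, h2.to_comp, h3.to_comp, ?_⟩
  have h4 : Primrec (fun p : Str × ℕ => kst p.1 p.2) := by
    unfold kst
    refine h3.comp (g := fun p : Str × ℕ =>
      (Denumerable.ofNat Code p.2.unpair.1, p.1, p.2.unpair.2)) ?_
    refine Primrec.pair ((Primrec.ofNat Code).comp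
      (Primrec.fst.comp (Primrec.unpair.comp Primrec.snd)))
      (Primrec.pair Primrec.fst (Primrec.snd.comp (Primrec.unpair.comp Primrec.snd)))
  exact h4.to_comp

theorem B3_re (hC1 : P_C1) (hC2 : P_C2) (c : Code) (b : Bool) :
    REPred (fun p : ℕ × Str => (dec c p.2)[p.1]? = some b) := by
  obtain ⟨h, -⟩ := hC2 hC1
  have h' : Computable (fun p : ℕ × Str => dec c p.2) :=
    h.comp (f := fun p : Code × Str => dec p.1 p.2) (g := fun p : ℕ × Str => (c, p.2))
      (by fun_prop)
  exact RE.eq (by fun_prop) (by fun_prop)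

theorem B3_reIn (hB : P_B1) (hD : P_D1) (hC : P_C2) (hK : P_K2) (c : Code) (G : Str → Str)
    (hG : Tr c G) (z : ℕ → Bool) (b : Bool) :
    REIn (St (br G z)) (fun n : ℕ => z n = b) :=
  (hK ℕ (br G z) (fun n : ℕ => z n = b)).2
    ⟨fun n x => (dec c x)[n]? = some b, B3_re B3_C1 hC c b, fun n => B3_iff hB hD c G hG z n b⟩

theorem B3 : P_B3 := by
  intro hD hB hC hK c G hG z
  refine ⟨br G z, ⟨z, rfl⟩, ?_⟩
  unfold le
  rw [turingReducible_iff]
  refine ⟨B3_reIn hB hD hC hK c G hG z true, ?_⟩
  refine (B3_reIn hB hD hC hK c G hG z false).of_eq fun n => ?_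
  unfold St
  simp

end Pool.Agent.H639.LU
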