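import Pool.Agent.H639.LU.Stubs

namespace Pool.Agent.H639.LU

open Nat.Partrec (Code)
open Nat.Partrec.Code (evaln)
open Encodable

theorem C1_nxtv : Primrec (fun p : Code × Str × ℕ => nxtv p.1 p.2.1 p.2.2) := by
  unfold nxtv
  refine Primrec.list_head?.comp ?_
  refine Primrec.listFilterMap (g := fun (p : Code × Str × ℕ) (s : ℕ) =>
    evaln p.2.1.length p.1 (encode (p.2.2, p.2.1.take s))) ?_ ?_
  · exact Primrec.list_range.comp (Primrec.succ.comp
      (Primrec.list_length.comp (Primrec.fst.comp Primrec.snd)))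
  · refine Nat.Partrec.Code.primrec_evaln.comp (Primrec.pair (Primrec.pair ?_ ?_) ?_)
    · exact Primrec.list_length.comp (Primrec.fst.comp (Primrec.snd.comp Primrec.fst))
    · exact Primrec.fst.comp Primrec.fst
    · refine Primrec.encode.comp (Primrec.pair ?_ ?_)
      · exact Primrec.snd.comp (Primrec.snd.comp Primrec.fst)
      · exact Primrec.list_take.comp Primrec.snd
          (Primrec.fst.comp (Primrec.snd.comp Primrec.fst))

theorem C1_nxt : Primrec (fun p : Code × Str × ℕ => nxt p.1 p.2.1 p.2.2) := by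
  unfold nxt
  refine Primrec.option_map C1_nxtv ?_
  exact (Primrec.beq (α := ℕ)).comp Primrec.snd (Primrec.const 1)

theorem C1_hst : Primrec (fun p : Code × Str × ℕ => hst p.1 p.2.1 p.2.2) := by
  unfold hst
  exact Primrec.option_isSome.comp C1_nxtv

theorem C1_kst : Primrec (fun p : Str × ℕ => kst p.1 p.2) := by
  unfold kst
  have h1 : Primrec (fun p : Str × ℕ => Denumerable.ofNat Code p.2.unpair.1) :=
    (Primrec.ofNat Code).comp (Primrec.fst.comp (Primrec.unpair.comp Primrec.snd))
  have h2 : Primrec (fun p : Str × ℕ => p.2.unpair.2) :=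
    Primrec.snd.comp (Primrec.unpair.comp Primrec.snd)
  exact C1_hst.comp (Primrec.pair h1 (Primrec.pair Primrec.fst h2))

theorem C1 : P_C1 :=
  ⟨C1_nxtv.to_comp, C1_nxt.to_comp, C1_hst.to_comp, C1_kst.to_comp⟩

end Pool.Agent.H639.LU
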