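import Pool.Agent.H639.LU.Stubs

namespace Pool.Agent.H639.LU

open Nat.Partrec (Code)
open Nat.Partrec.Code (evaln)
open Encodable

theorem C2_toList {α β : Type*} [Primcodable α] [Primcodable β] {f : α → Option β}
    (hf : Computable f) : Computable (fun x => (f x).toList) := by
  have h : (fun x => (f x).toList) = fun x => Option.casesOn (motive := fun _ => List β) (f x)
      ([] : List β) (fun b => [b]) := by
    funext x
    cases f x <;> rfl
  rw [h]
  refine Computable.option_casesOn hf (Computable.const []) ?_
  exact Computable.list_cons.comp Computable.snd (Computable.const [])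

attribute [local irreducible] nxt kst

theorem C2_step (h2 : Computable (fun p : Code × Str × ℕ => nxt p.1 p.2.1 p.2.2)) :
    Computable₂ (fun (p : Code × Str) (q : ℕ × Str) =>
        q.2 ++ (nxt p.1 (p.2.take (q.1 + 1)) q.2.length).toList) := by
  have e1 : Computable (fun z : (Code × Str) × (ℕ × Str) => z.1.1) :=
    Computable.fst.comp Computable.fst
  have e2 : Computable (fun z : (Code × Str) × (ℕ × Str) => z.1.2) :=
    Computable.snd.comp Computable.fst
  have e3 : Computable (fun z : (Code × Str) × (ℕ × Str) => z.2.1 + 1) :=
    Computable.succ.comp (Computable.fst.comp Computable.snd)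
  have e4 : Computable (fun z : (Code × Str) × (ℕ × Str) => z.2.2) :=
    Computable.snd.comp Computable.snd
  have e5 : Computable (fun z : (Code × Str) × (ℕ × Str) => z.1.2.take (z.2.1 + 1)) :=
    Primrec.list_take.to_comp.comp e3 e2
  have e6 : Computable (fun z : (Code × Str) × (ℕ × Str) => z.2.2.length) :=
    Computable.list_length.comp e4
  have e7 : Computable (fun z : (Code × Str) × (ℕ × Str) =>
      nxt z.1.1 (z.1.2.take (z.2.1 + 1)) z.2.2.length) :=
    h2.comp (e1.pair (e5.pair e6))
  exact Computable.list_append.comp e4 (C2_toList e7)

theorem C2_dec (h2 : Computable (fun p : Code × Str × ℕ => nxt p.1 p.2.1 p.2.2)) :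
    Computable (fun p : Code × Str => dec p.1 p.2) := by
  have e := Computable.nat_rec (f := fun p : Code × Str => p.2.length)
      (g := fun _ => ([] : Str)) (Computable.list_length.comp Computable.snd)
      (Computable.const []) (C2_step h2)
  exact e

theorem C2_cnt (h4 : Computable (fun p : Str × ℕ => kst p.1 p.2)) (ee : List ℕ) :
    Computable (fun x : Str => cnt ee x) := by
  induction ee with
  | nil => exact Computable.const 0
  | cons p ee ih =>
    have h : (fun x : Str => cnt (p :: ee) x)
        = fun x => bif kst x p then cnt ee x + 1 else cnt ee x := by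
      funext x
      unfold cnt
      rw [List.filter_cons]
      cases kst x p <;> simp
    rw [h]
    have e1 : Computable (fun x : Str => kst x p) :=
      h4.comp (Computable.pair Computable.id (Computable.const p))
    have e2 : Computable (fun x : Str => cnt ee x + 1) := Computable.succ.comp ih
    exact Computable.cond e1 e2 ih

theorem C2 : P_C2 := by
  rintro ⟨-, h2, -, h4⟩
  exact ⟨C2_dec h2, C2_cnt h4⟩

end Pool.Agent.H639.LU
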