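import Pool.Agent.H639.LU.Stubs

namespace Pool.Agent.H639.LU

open Nat.Partrec (Code)
open Nat.Partrec.Code (evaln)
open Encodable
open Pool.Agent.Helper446.Defs Pool.Agent.Helper446.Oracle Pool.Agent.Helper446.RE

attribute [local irreducible] dec cnt hst

private theorem C3_le {α : Type*} [Primcodable α] {f g : α → ℕ} (hf : Computable f)
    (hg : Computable g) : Computable (fun x => decide (f x ≤ g x)) :=
  Primrec.nat_le.decide.to_comp.comp hf hg

private theorem C3_drop {α : Type*} [Primcodable α] {f : α → Str} {g : α → ℕ} (hf : Computable f)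
    (hg : Computable g) : Computable (fun x => (f x).drop (g x)) :=
  Primrec.list_drop.to_comp.comp hg hf

private theorem C3_take {α : Type*} [Primcodable α] {f : α → Str} {g : α → ℕ} (hf : Computable f)
    (hg : Computable g) : Computable (fun x => (f x).take (g x)) :=
  Primrec.list_take.to_comp.comp hg hf

private theorem C3_stp (hdec : Computable (fun p : Code × Str => dec p.1 p.2))
    (hcnt : ∀ ee : List ℕ, Computable (fun x : Str => cnt ee x))
    (hhst : Computable (fun p : Code × Str × ℕ => hst p.1 p.2.1 p.2.2))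
    (r : Code) (e : ℕ → Code) (ν : ℕ → ℕ) (ee : List ℕ) (he : Computable e) (hν : Computable ν) :
    Computable (fun p : Str × (ℕ × ℕ) => stp r e ν ee p.1 p.2) := by
  have h1 : Computable (fun p : Str × (ℕ × ℕ) => p.2.1) := Computable.fst.comp Computable.snd
  have h1' : Computable (fun p : Str × (ℕ × ℕ) => p.2.1 + 1) := Computable.succ.comp h1
  have h2 : Computable (fun p : Str × (ℕ × ℕ) => p.2.2) := Computable.snd.comp Computable.snd
  have hd : Computable (fun p : Str × (ℕ × ℕ) => dec (e p.2.1) p.1) :=
    hdec.comp ((he.comp h1).pair Computable.fst)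
  have hd' : Computable (fun p : Str × (ℕ × ℕ) => dec (e (p.2.1 + 1)) p.1) :=
    hdec.comp ((he.comp h1').pair Computable.fst)
  have hc : Computable (fun p : Str × (ℕ × ℕ) => cnt ee ((dec (e p.2.1) p.1).drop p.2.2)) :=
    (hcnt ee).comp (C3_drop hd h2)
  have ht : Computable (fun p : Str × (ℕ × ℕ) => hst r p.1 (ν (p.2.1 + 1))) :=
    hhst.comp ((Computable.const r).pair (Computable.fst.pair (hν.comp h1')))
  have hb : Computable (fun p : Str × (ℕ × ℕ) =>
      decide (p.2.1 + 1 ≤ cnt ee ((dec (e p.2.1) p.1).drop p.2.2)) &&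
        hst r p.1 (ν (p.2.1 + 1))) := cand (C3_le h1' hc) ht
  have hl : Computable (fun p : Str × (ℕ × ℕ) =>
      (p.2.1 + 1, (dec (e (p.2.1 + 1)) p.1).length + 1)) :=
    h1'.pair (Computable.succ.comp (Computable.list_length.comp hd'))
  refine (Computable.cond hb hl Computable.snd).of_eq ?_
  intro p
  unfold stp
  by_cases h3 : p.2.1 + 1 ≤ cnt ee ((dec (e p.2.1) p.1).drop p.2.2)
  · by_cases h4 : hst r p.1 (ν (p.2.1 + 1)) = true
    · rw [if_pos ⟨h3, h4⟩, decide_eq_true h3, h4]; rfl
    · rw [if_neg (fun h => h4 h.2), Bool.eq_false_iff.mpr h4, Bool.and_false]; rfl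
  · rw [if_neg (fun h => h3 h.1), decide_eq_false h3, Bool.false_and]; rfl

attribute [local irreducible] stp

private theorem C3_sta (hdec : Computable (fun p : Code × Str => dec p.1 p.2))
    (hcnt : ∀ ee : List ℕ, Computable (fun x : Str => cnt ee x))
    (hhst : Computable (fun p : Code × Str × ℕ => hst p.1 p.2.1 p.2.2))
    (r : Code) (e : ℕ → Code) (ν : ℕ → ℕ) (ee : List ℕ) (he : Computable e) (hν : Computable ν) :
    Computable (fun x : Str => sta r e ν ee x) := by
  have hs := C3_stp hdec hcnt hhst r e ν ee he hν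
  have h : Computable₂ (fun (x : Str) (q : ℕ × (ℕ × ℕ)) =>
      stp r e ν ee (x.take (q.1 + 1)) q.2) := by
    have h1 : Computable (fun p : Str × (ℕ × (ℕ × ℕ)) => p.1.take (p.2.1 + 1)) :=
      C3_take Computable.fst (Computable.succ.comp (Computable.fst.comp Computable.snd))
    exact hs.comp (h1.pair (Computable.snd.comp Computable.snd))
  have h5 := Computable.nat_rec (f := fun x : Str => x.length) (g := fun _ : Str => ((0, 0) : ℕ × ℕ))
    Computable.list_length (Computable.const (0, 0)) h
  refine h5.of_eq ?_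
  intro x
  unfold sta
  rfl

attribute [local irreducible] sta

theorem C3 : P_C3 := by
  intro h1 h2 r e ν ee he hν
  obtain ⟨hdec, hcnt⟩ := h2 h1
  have hhst := h1.2.2.1
  have hsta := C3_sta hdec hcnt hhst r e ν ee he hν
  have hs1 : Computable (fun x : Str => (sta r e ν ee x).1) := Computable.fst.comp hsta
  have hs2 : Computable (fun x : Str => (sta r e ν ee x).2) := Computable.snd.comp hsta
  have hd : Computable (fun x : Str => (dec (e (sta r e ν ee x).1) x).drop (sta r e ν ee x).2) :=
    C3_drop (hdec.comp ((he.comp hs1).pair Computable.id)) hs2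
  have hc := (hcnt ee).comp hd
  refine (Computable.cond (C3_le hc hs1) hd (Computable.const ([] : Str))).of_eq ?_
  intro x
  unfold out
  by_cases h3 : cnt ee ((dec (e (sta r e ν ee x).1) x).drop (sta r e ν ee x).2) ≤
      (sta r e ν ee x).1
  · rw [if_pos h3, decide_eq_true h3]; rfl
  · rw [if_neg h3, decide_eq_false h3]; rfl

end Pool.Agent.H639.LU
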