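import Pool.Agent.H639.LU.Stubs

namespace Pool.Agent.H639.LU

open Nat.Partrec (Code)
open Nat.Partrec.Code (evaln)
open Encodable
open Pool.Agent.Helper446.Defs Pool.Agent.Helper446.Oracle

private def D1_f (c : Code) (x : Str) (n : ℕ) : Str :=
  Nat.rec [] (fun t d => d ++ (nxt c (x.take (t + 1)) d.length).toList) n

private theorem D1_dec (c : Code) (x : Str) : dec c x = D1_f c x x.length := rfl

private theorem D1_succ (c : Code) (x : Str) (n : ℕ) :
    D1_f c x (n + 1) = D1_f c x n ++ (nxt c (x.take (n + 1)) (D1_f c x n).length).toList := rfl

private theorem D1_app (c : Code) (x y : Str) (n : ℕ) (hn : n ≤ x.length) :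
    D1_f c (x ++ y) n = D1_f c x n := by
  induction n with
  | zero => rfl
  | succ n ih =>
    rw [D1_succ, D1_succ, ih (by omega), List.take_append_of_le_length hn]

private theorem D1_b (c : Code) (x : Str) (b : Bool) :
    dec c (x ++ [b]) = dec c x ++ (nxt c (x ++ [b]) (dec c x).length).toList := by
  have h1 : (x ++ [b]).length = x.length + 1 := by simp
  have h2 : (x ++ [b]).take (x.length + 1) = x ++ [b] := by
    rw [← h1]
    exact List.take_length
  rw [D1_dec, h1, D1_succ, D1_app c x [b] x.length le_rfl, h2, ← D1_dec]

theorem D1 : P_D1 := by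
  refine ⟨fun _ => rfl, D1_b, ?_, ?_⟩
  · rintro c x x' ⟨l, rfl⟩
    induction l using List.reverseRecOn with
    | nil => rw [List.append_nil]
    | append_singleton l b ih =>
      rw [← List.append_assoc, D1_b]
      exact ih.trans (List.prefix_append _ _)
  · intro c x
    induction x using List.reverseRecOn with
    | nil => exact le_rfl
    | append_singleton l b ih =>
      rw [D1_b, List.length_append, List.length_append]
      have : (nxt c (l ++ [b]) (dec c l).length).toList.length ≤ [b].length := by
        cases nxt c (l ++ [b]) (dec c l).length <;> simp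
      omega

end Pool.Agent.H639.LU
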