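import Pool.Agent.H639.LU.Stubs

set_option autoImplicit false

/-! Task D2: basic properties of `cnt`. -/

namespace Pool.Agent.H639.LU

open Nat.Partrec (Code)
open Encodable
open Pool.Agent.Helper446.Defs

theorem D2_seg_prefix (X : ℕ → Bool) {t t' : ℕ} (h : t ≤ t') : seg X t <+: seg X t' := by
  unfold seg
  obtain ⟨k, rfl⟩ := Nat.exists_eq_add_of_le h
  rw [List.range_add, List.map_append]
  exact List.prefix_append _ _

theorem D2_cnt_cons (p : ℕ) (ee : List ℕ) (x : Str) :
    cnt (p :: ee) x = (if kst x p = true then 1 else 0) + cnt ee x := by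
  unfold cnt
  rw [List.filter_cons]
  split <;> simp [add_comm]

theorem D2_cntP_cons (A : ℕ → Prop) (p : ℕ) (ee : List ℕ) [Decidable (A p)] :
    cntP A (p :: ee) = (if A p then 1 else 0) + cntP A ee := by
  classical
  unfold cntP
  rw [List.filter_cons]
  by_cases h : A p
  · simp [h, add_comm]
  · simp [h]

theorem D2 : P_D2 := by
  classical
  intro hN1 h2
  obtain ⟨-, -, h3, h4⟩ := h2 hN1
  refine ⟨?_, ?_, ?_, ?_, ?_⟩
  · intro ee x x' hx
    induction ee with
    | nil => exact le_refl _
    | cons p ee ih =>
      rw [D2_cnt_cons, D2_cnt_cons]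
      have hm := h4 x x' p hx
      by_cases hp : kst x p = true
      · rw [if_pos hp, if_pos (hm hp)]; omega
      · rw [if_neg hp]; omega
  · intro ee x
    exact List.length_filter_le _ _
  · intro ee X t
    induction ee with
    | nil => exact le_refl _
    | cons p ee ih =>
      rw [D2_cnt_cons, D2_cntP_cons]
      by_cases hp : kst (seg X t) p = true
      · rw [if_pos hp, if_pos ((h3 X p).2 ⟨t, hp⟩)]; omega
      · rw [if_neg hp]; omega
  · intro ee X
    induction ee with
    | nil => exact ⟨0, fun t' _ => rfl⟩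
    | cons p ee ih =>
      obtain ⟨t, ht⟩ := ih
      by_cases hp : J X p
      · obtain ⟨s, hs⟩ := (h3 X p).1 hp
        refine ⟨max s t, fun t' ht' => ?_⟩
        rw [D2_cnt_cons, D2_cntP_cons, ht t' ((le_max_right _ _).trans ht'), if_pos hp,
          if_pos (h4 _ _ p (D2_seg_prefix X ((le_max_left _ _).trans ht')) hs)]
      · refine ⟨t, fun t' ht' => ?_⟩
        rw [D2_cnt_cons, D2_cntP_cons, ht t' ht', if_neg hp,
          if_neg (fun h => hp ((h3 X p).2 ⟨t', h⟩))]
  · intro ee
    induction ee with
    | nil => rfl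
    | cons p ee ih =>
      rw [D2_cnt_cons, ih, if_neg]
      intro h
      have : kst [] p = false := by
        unfold kst hst nxtv
        simp [Nat.Partrec.Code.evaln]
      rw [this] at h
      exact absurd h (by simp)

end Pool.Agent.H639.LU
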