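import Pool.Agent.H639.LU.Stubs

namespace Pool.Agent.H639.LU

open Nat.Partrec (Code)
open Nat.Partrec.Code (evaln)
open Encodable
open Pool.Agent.Helper446.Defs Pool.Agent.Helper446.Oracle

private def D3_f (r : Code) (e : ℕ → Code) (ν : ℕ → ℕ) (ee : List ℕ) (x : Str) (n : ℕ) : ℕ × ℕ :=
  Nat.rec (0, 0) (fun t s => stp r e ν ee (x.take (t + 1)) s) n

private theorem D3_sta (r : Code) (e : ℕ → Code) (ν : ℕ → ℕ) (ee : List ℕ) (x : Str) :
    sta r e ν ee x = D3_f r e ν ee x x.length := rfl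

private theorem D3_succ (r : Code) (e : ℕ → Code) (ν : ℕ → ℕ) (ee : List ℕ) (x : Str) (n : ℕ) :
    D3_f r e ν ee x (n + 1) = stp r e ν ee (x.take (n + 1)) (D3_f r e ν ee x n) := rfl

private theorem D3_app (r : Code) (e : ℕ → Code) (ν : ℕ → ℕ) (ee : List ℕ) (x y : Str) (n : ℕ)
    (hn : n ≤ x.length) : D3_f r e ν ee (x ++ y) n = D3_f r e ν ee x n := by
  induction n with
  | zero => rfl
  | succ n ih =>
    rw [D3_succ, D3_succ, ih (by omega), List.take_append_of_le_length hn]

theorem D3 : P_D3 := by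
  intro r e ν ee
  refine ⟨rfl, fun x b => ?_⟩
  have h1 : (x ++ [b]).length = x.length + 1 := by simp
  have h2 : (x ++ [b]).take (x.length + 1) = x ++ [b] := by
    rw [← h1]
    exact List.take_length
  rw [D3_sta, h1, D3_succ, D3_app r e ν ee x [b] x.length le_rfl, h2, ← D3_sta]

end Pool.Agent.H639.LU
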