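import Pool.Agent.H639.LU.Stubs

namespace Pool.Agent.H639.LU

open Nat.Partrec (Code)
open Nat.Partrec.Code (evaln)
open Encodable
open Pool.Agent.Helper446.Defs Pool.Agent.Helper446.Oracle

theorem G2_take_seg (X : ℕ → Bool) (s t : ℕ) : (seg X s).take t = seg X (min t s) := by
  unfold seg
  rw [← List.map_take, List.take_range]

theorem G2_len_seg (X : ℕ → Bool) (s : ℕ) : (seg X s).length = s := by simp [seg]

theorem G2_seg_succ (X : ℕ → Bool) (s : ℕ) : seg X (s + 1) = seg X s ++ [X s] := by
  simp [seg, List.range_succ]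

theorem G2_seg_le (X : ℕ → Bool) {s t : ℕ} (h : s ≤ t) : seg X s <+: seg X t := by
  have h1 : (seg X t).take s = seg X s := by rw [G2_take_seg, min_eq_left h]
  rw [← h1]
  exact List.take_prefix _ _

/-- the search for the position -/
def G2_s (c : Code) (σ : Str) (n t : ℕ) : Option Str :=
  if (dec c (σ.take t)).length = n then some (σ.take t) else none

theorem G2_find (c : Code) (σ : Str) (n : ℕ) (x : Str) (h : x ∈ Nat.rfindOpt (G2_s c σ n)) :
    ∃ t, x = σ.take t ∧ (dec c x).length = n ∧ ∀ t' < t, (dec c (σ.take t')).length ≠ n := by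
  unfold Nat.rfindOpt at h
  rw [Part.mem_bind_iff] at h
  obtain ⟨t, ht, hx⟩ := h
  obtain ⟨ht1, ht2⟩ := Nat.mem_rfind.1 ht
  have hx' : x ∈ G2_s c σ n t := by simpa using hx
  unfold G2_s at hx'
  split_ifs at hx' with hc
  · have hx'' : σ.take t = x := by simpa using hx'
    refine ⟨t, hx''.symm, by rw [← hx'']; exact hc, fun t' ht' hh => ?_⟩
    have h3 := ht2 ht'
    have h4 : (G2_s c σ n t').isSome = false := by
      have h5 := Part.mem_some_iff.1 h3
      exact h5.symm
    unfold G2_s at h4
    rw [if_pos hh] at h4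
    simp at h4
  · simp at hx'

theorem G2_find' (c : Code) (σ : Str) (n t : ℕ) (h1 : (dec c (σ.take t)).length = n)
    (h2 : ∀ t' < t, (dec c (σ.take t')).length ≠ n) :
    Nat.rfindOpt (G2_s c σ n) = Part.some (σ.take t) := by
  rw [Part.eq_some_iff]
  unfold Nat.rfindOpt
  rw [Part.mem_bind_iff]
  refine ⟨t, ?_, ?_⟩
  · refine Nat.mem_rfind.2 ⟨?_, fun {m} hm => ?_⟩
    · unfold G2_s; rw [if_pos h1]; simp
    · unfold G2_s; rw [if_neg (h2 m hm)]; simp
  · unfold G2_s; rw [if_pos h1]; simp

/-- the function of the recursion theorem -/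
def G2_f (i : Code) (c : Code) (p : ℕ) : Part ℕ :=
  (Part.ofOption (decode (α := ℕ × Str) p)).bind fun q =>
    (Nat.rfindOpt (G2_s c q.2 q.1)).bind fun x => Part.ofOption (nxtv i q.2 (encode (c, x)))

theorem G2_f_eq (i c : Code) (n : ℕ) (σ : Str) : G2_f i c (encode (n, σ)) =
    (Nat.rfindOpt (G2_s c σ n)).bind fun x => Part.ofOption (nxtv i σ (encode (c, x))) := by
  unfold G2_f
  rw [encodek]
  simp

theorem G2_cs (hC1 : P_C1) (hC2 : P_C2) :
    Computable (fun p : (Code × Str × ℕ) × ℕ => G2_s p.1.1 p.1.2.1 p.1.2.2 p.2) := by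
  have hd := (hC2 hC1).1
  have ht : Computable (fun p : (Code × Str × ℕ) × ℕ => p.1.2.1.take p.2) :=
    Primrec.list_take.to_comp.comp Computable.snd
      (Computable.fst.comp (Computable.snd.comp Computable.fst))
  have hl0 : Computable (fun p : (Code × Str × ℕ) × ℕ =>
      (dec p.1.1 (p.1.2.1.take p.2))) :=
    hd.comp (f := fun p : Code × Str => dec p.1 p.2)
      (g := fun p : (Code × Str × ℕ) × ℕ => (p.1.1, p.1.2.1.take p.2))
      (Computable.pair (Computable.fst.comp Computable.fst) ht)
  have hl : Computable (fun p : (Code × Str × ℕ) × ℕ =>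
      (dec p.1.1 (p.1.2.1.take p.2)).length) := Computable.list_length.comp hl0
  have he : Computable (fun p : (Code × Str × ℕ) × ℕ =>
      decide ((dec p.1.1 (p.1.2.1.take p.2)).length = p.1.2.2)) := by
    have h1 : Primrec (fun q : ℕ × ℕ => decide (q.1 = q.2)) :=
      (Primrec.eq (α := ℕ)).decide
    exact Computable.comp (f := fun q : ℕ × ℕ => decide (q.1 = q.2))
      (g := fun p : (Code × Str × ℕ) × ℕ =>
        ((dec p.1.1 (p.1.2.1.take p.2)).length, p.1.2.2)) h1.to_comp (Computable.pair hl
      (Computable.snd.comp (Computable.snd.comp Computable.fst)))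
  refine (Computable.cond he (Computable.option_some.comp ht) (Computable.const none)).of_eq ?_
  intro p
  unfold G2_s
  by_cases h : (dec p.1.1 (p.1.2.1.take p.2)).length = p.1.2.2
  · simp [h]
  · simp [h]

theorem G2_partrec (hC1 : P_C1) (hC2 : P_C2) (i : Code) : Partrec₂ (G2_f i) := by
  have hs := G2_cs hC1 hC2
  have h1 : Partrec (fun p : Code × Str × ℕ => Nat.rfindOpt (G2_s p.1 p.2.1 p.2.2)) :=
    Partrec.rfindOpt hs.to₂
  have h2 : Computable (fun p : Code × Str × ℕ => nxtv p.1 p.2.1 p.2.2) := hC1.1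
  have h3 : Partrec₂ (fun (p : (Code × ℕ) × (ℕ × Str)) (x : Str) =>
      Part.ofOption (nxtv i p.2.2 (encode (p.1.1, x)))) := by
    have h4 : Computable (fun y : ((Code × ℕ) × (ℕ × Str)) × Str =>
        nxtv i y.1.2.2 (encode (y.1.1.1, y.2))) :=
      h2.comp (f := fun p : Code × Str × ℕ => nxtv p.1 p.2.1 p.2.2)
        (g := fun y : ((Code × ℕ) × (ℕ × Str)) × Str => (i, y.1.2.2, encode (y.1.1.1, y.2)))
        (by fun_prop)
    exact Computable.ofOption h4
  have h5 : Partrec₂ (fun (p : Code × ℕ) (q : ℕ × Str) =>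
      (Nat.rfindOpt (G2_s p.1 q.2 q.1)).bind fun x =>
        Part.ofOption (nxtv i q.2 (encode (p.1, x)))) := by
    refine Partrec.bind (f := fun y : (Code × ℕ) × (ℕ × Str) =>
      Nat.rfindOpt (G2_s y.1.1 y.2.2 y.2.1)) ?_ h3
    exact h1.comp (f := fun p : Code × Str × ℕ => Nat.rfindOpt (G2_s p.1 p.2.1 p.2.2))
      (g := fun y : (Code × ℕ) × (ℕ × Str) => (y.1.1, y.2.2, y.2.1)) (by fun_prop)
  have h6 : Partrec (fun p : Code × ℕ => Part.ofOption (decode (α := ℕ × Str) p.2)) :=
    Computable.ofOption (Computable.decode.comp Computable.snd)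
  exact Partrec.bind h6 h5

theorem G2 : P_G2 := by
  intro hN1 hC1 hC2 hD1 hK2 hK3 D β hβ hcof
  obtain ⟨N1a, N1b, N1c⟩ := hN1
  obtain ⟨D1a, D1b, D1c, D1d⟩ := hD1
  let z : ℕ → Bool := fun k => match (decode k : Option (Code × Str)) with
    | some q => β q.1 q.2
    | none => false
  have hz : ∀ c x, z (encode (c, x)) = β c x := by
    intro c x
    simp only [z, encodek]
  obtain ⟨X, hXD, hX⟩ := hcof z
  obtain ⟨i, hi⟩ := (hK3 hK2 X z).1 hX
  obtain ⟨c, hc⟩ := Nat.Partrec.Code.fixed_point₂ (G2_partrec hC1 hC2 i)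
  have hcf : ∀ n σ, c.eval (encode (n, σ)) = (Nat.rfindOpt (G2_s c σ n)).bind fun x =>
      Part.ofOption (nxtv i σ (encode (c, x))) := by
    intro n σ
    rw [hc, G2_f_eq]
  -- growth
  have hgrow : ∀ t, dec c (seg X (t + 1)) =
      dec c (seg X t) ++ (nxt c (seg X (t + 1)) (dec c (seg X t)).length).toList := by
    intro t
    rw [G2_seg_succ, D1b]
  have hgrow1 : ∀ t, (dec c (seg X (t + 1))).length ≤ (dec c (seg X t)).length + 1 := by
    intro t
    rw [hgrow, List.length_append]
    have : (nxt c (seg X (t + 1)) (dec c (seg X t)).length).toList.length ≤ 1 := by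
      cases nxt c (seg X (t + 1)) (dec c (seg X t)).length <;> simp
    omega
  have hmono : ∀ s t, s ≤ t → (dec c (seg X s)).length ≤ (dec c (seg X t)).length :=
    fun s t hst => (D1c c _ _ (G2_seg_le X hst)).length_le
  -- existence of the positions
  have hex : ∀ n, ∃ t, (dec c (seg X t)).length = n := by
    intro n
    induction n with
    | zero => exact ⟨0, by simp [seg, D1a]⟩
    | succ n ih =>
      classical
      by_contra hno
      push Not at hno
      set T := Nat.find ih with hT
      have hT1 : (dec c (seg X T)).length = n := Nat.find_spec ih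
      have hT2 : ∀ t' < T, (dec c (seg X t')).length ≠ n := fun t' ht' => Nat.find_min ih ht'
      have hst : ∀ t, T ≤ t → (dec c (seg X t)).length = n := by
        intro t ht
        induction t, ht using Nat.le_induction with
        | base => exact hT1
        | succ t ht ih' =>
          have h1 := hgrow1 t
          have h2 := hmono t (t + 1) (by omega)
          have h3 := hno (t + 1)
          omega
      -- a halting computation
      obtain ⟨s0, hs0⟩ := (hi (encode (c, seg X T)) _).2 rfl
      obtain ⟨t1, ht1⟩ := N1c i X (encode (c, seg X T)) s0 (Part.dom_iff_mem.2 ⟨_, hs0⟩)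
      have hsome : (nxtv i (seg X (max t1 T)) (encode (c, seg X T))).isSome = true :=
        N1a _ _ _ _ (G2_seg_le X (le_max_left _ _)) ht1
      have hdom : (c.eval (encode (n, seg X (max t1 T)))).Dom := by
        rw [hcf]
        have h1 : (seg X (max t1 T)).take T = seg X T := by
          rw [G2_take_seg, min_eq_left (le_max_right _ _)]
        rw [G2_find' c (seg X (max t1 T)) n T (by rw [h1]; exact hT1) (by
          intro t' ht'
          rw [G2_take_seg, min_eq_left (by omega)]
          exact hT2 t' ht'), h1]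
        rw [Part.bind_some]
        obtain ⟨v, hv⟩ := Option.isSome_iff_exists.1 hsome
        rw [hv]
        trivial
      obtain ⟨t2, ht2⟩ := N1c c X n _ hdom
      have h5 : (nxtv c (seg X (max t2 T + 1)) n).isSome = true :=
        N1a _ _ _ _ (G2_seg_le X (by omega)) ht2
      have h6 := hgrow (max t2 T)
      have h7 := hst (max t2 T) (le_max_right _ _)
      have h8 := hst (max t2 T + 1) (by omega)
      rw [h7] at h6
      obtain ⟨v, hv⟩ := Option.isSome_iff_exists.1 h5
      have h9 : nxt c (seg X (max t2 T + 1)) n = some (v == 1) := by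
        unfold nxt; rw [hv]; rfl
      rw [h9] at h6
      rw [h6] at h8
      simp at h8
      omega
  classical
  let T : ℕ → ℕ := fun n => Nat.find (hex n)
  have hT1 : ∀ n, (dec c (seg X (T n))).length = n := fun n => Nat.find_spec (hex n)
  have hT2 : ∀ n t', t' < T n → (dec c (seg X t')).length ≠ n :=
    fun n t' ht' => Nat.find_min (hex n) ht'
  -- the values of `c`
  have hval : ∀ n s v, v ∈ c.eval (encode (n, seg X s)) → v = (β c (seg X (T n))).toNat := by
    intro n s v hv
    rw [hcf, Part.mem_bind_iff] at hv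
    obtain ⟨x, hx, hv⟩ := hv
    obtain ⟨t, hxt, hxn, ht⟩ := G2_find _ _ _ _ hx
    rw [G2_take_seg] at hxt
    have h1 : T n ≤ min t s := by
      by_contra hlt
      push Not at hlt
      exact hT2 n _ hlt (by rw [← hxt]; exact hxn)
    have h2 : t ≤ T n := by
      by_contra hlt
      push Not at hlt
      refine ht (T n) hlt ?_
      rw [G2_take_seg, min_eq_left (le_trans h1 (min_le_right _ _))]
      exact hT1 n
    have h3 : min t s = T n := le_antisymm (le_trans (min_le_left _ _) h2) h1
    rw [h3] at hxt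
    subst hxt
    have hv' : nxtv i (seg X s) (encode (c, seg X (T n))) = some v := by simpa using hv
    obtain ⟨s', -, hs'⟩ := N1b _ _ _ _ _ hv'
    have := (hi (encode (c, seg X (T n))) v).1 ⟨s', hs'⟩
    rw [this, hz]
  refine hβ c (fun n => seg X (T n)) ?_ ?_
  · have : T 0 = 0 := by
      have h0 : (dec c (seg X 0)).length = 0 := by simp [seg, D1a]
      exact Nat.le_zero.1 (Nat.find_min' (hex 0) h0)
    simp [this, seg]
  · intro n
    have hlt : T n < T (n + 1) := by
      by_contra hle
      push Not at hle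
      have := hmono _ _ hle
      rw [hT1, hT1] at this
      omega
    obtain ⟨t, ht⟩ : ∃ t, T (n + 1) = t + 1 := ⟨T (n + 1) - 1, by omega⟩
    have h1 : (dec c (seg X t)).length = n := by
      have h2 := hmono (T n) t (by omega)
      rw [hT1] at h2
      have h3 := hT2 (n + 1) t (by omega)
      have h4 := hmono t (T (n + 1)) (by omega)
      rw [hT1] at h4
      omega
    have h5 : dec c (seg X t) = dec c (seg X (T n)) := by
      have h6 := D1c c _ _ (G2_seg_le X (show T n ≤ t by omega))
      exact (h6.eq_of_length (by rw [hT1, h1])).symm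
    have h7 := hgrow t
    rw [h1, ← ht] at h7
    have h8 := hT1 (n + 1)
    rw [h7, List.length_append, h1] at h8
    cases h9 : nxtv c (seg X (T (n + 1))) n with
    | none =>
      exfalso
      have : nxt c (seg X (T (n + 1))) n = none := by unfold nxt; rw [h9]; rfl
      rw [this] at h8
      simp at h8
    | some v =>
      have h10 : nxt c (seg X (T (n + 1))) n = some (v == 1) := by unfold nxt; rw [h9]; rfl
      obtain ⟨s', -, hs'⟩ := N1b _ _ _ _ _ h9
      have h11 := hval n s' v hs'
      have h12 : (v == 1) = β c (seg X (T n)) := by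
        rw [h11]
        cases β c (seg X (T n)) <;> rfl
      refine ⟨⟨X, hXD, by rw [G2_len_seg]⟩, G2_seg_le X hlt.le, ?_⟩
      rw [h7, h5, h10, h12]
      rfl

end Pool.Agent.H639.LU
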