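import Pool.Agent.H639.LU.Stubs

namespace Pool.Agent.H639.LU

open Nat.Partrec (Code)
open Nat.Partrec.Code (evaln)
open Encodable
open Pool.Agent.Helper446 Pool.Agent.Helper446.Defs Pool.Agent.Helper446.Oracle Pool.Agent.Helper446.RE

theorem I1_take (Z : ℕ → Bool) {t' t : ℕ} (h : t' ≤ t) : (seg Z t).take t' = seg Z t' := by
  unfold seg
  rw [← List.map_take, List.take_range, min_eq_left h]

theorem I1_length (Z : ℕ → Bool) (t : ℕ) : (seg Z t).length = t := by
  unfold seg; simp

theorem I1_get (Z : ℕ → Bool) (t n : ℕ) (h : n < t) : (seg Z t)[n]? = some (Z n) := by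
  unfold seg
  simp [h]

theorem I1_get' (Z : ℕ → Bool) (t n : ℕ) (b : Bool) (h : (seg Z t)[n]? = some b) : Z n = b := by
  by_cases hn : n < t
  · rw [I1_get Z t n hn] at h
    exact Option.some.inj h
  · rw [List.getElem?_eq_none (by rw [I1_length]; omega)] at h
    cases h

/-- the test -/
def I1_T (ee : List ℕ) (s : Str) (t n : ℕ) (b : Bool) : Prop :=
  s[2 * encode (ee, s.take t, n, b)]? = some true

instance (ee : List ℕ) (s : Str) (t n : ℕ) (b : Bool) : Decidable (I1_T ee s t n b) := by
  unfold I1_T; infer_instance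

/-- one step of the search -/
def I1_h (ee : List ℕ) (p : ℕ × Str) (a : Option ℕ × ℕ) : Option ℕ :=
  if a.1.isSome then a.1 else
    if I1_T ee p.2 a.2 p.1 true then some 1 else
      if I1_T ee p.2 a.2 p.1 false then some 0 else none

/-- the search -/
def I1_f (ee : List ℕ) (p : ℕ × Str) : Option ℕ :=
  (List.range (p.2.length + 1)).foldl (fun s t => I1_h ee p (s, t)) none

theorem I1_comp (ee : List ℕ) : Computable (I1_f ee) := by
  unfold I1_f
  have hr : Computable (fun p : ℕ × Str => List.range (p.2.length + 1)) :=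
    (Primrec.list_range.to_comp).comp (by fun_prop : Computable fun p : ℕ × Str => p.2.length + 1)
  refine RE.list_foldl (f := fun p : ℕ × Str => List.range (p.2.length + 1))
    (g := fun _ => (none : Option ℕ)) (h := I1_h ee) hr (Computable.const none) ?_
  have key : ∀ b : Bool, ComputablePred (fun x : (ℕ × Str) × (Option ℕ × ℕ) =>
      I1_T ee x.1.2 x.2.2 x.1.1 b) := by
    intro b
    unfold I1_T
    have b1 : Computable (fun x : (ℕ × Str) × (Option ℕ × ℕ) => x.1.2.take x.2.2) :=
      (Primrec.list_take.to_comp).comp (Computable.snd.comp Computable.snd)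
        (Computable.snd.comp Computable.fst)
    have b2 : Computable (fun x : (ℕ × Str) × (Option ℕ × ℕ) => x.1.1) := by fun_prop
    have b3 : Computable (fun x : (ℕ × Str) × (Option ℕ × ℕ) =>
        (ee, x.1.2.take x.2.2, x.1.1, b)) :=
      (Computable.const ee).pair (b1.pair (b2.pair (Computable.const b)))
    have b4 : Computable (fun x : (ℕ × Str) × (Option ℕ × ℕ) =>
        2 * encode (ee, x.1.2.take x.2.2, x.1.1, b)) := by fun_prop
    have b5 : Computable (fun x : (ℕ × Str) × (Option ℕ × ℕ) => x.1.2) := by fun_prop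
    exact cp_eq (cgetElem b5 b4) (Computable.const (some true))
  unfold Computable₂ I1_h
  refine cite (p := fun x : (ℕ × Str) × (Option ℕ × ℕ) => x.2.1.isSome = true) ?_ ?_ ?_
  · exact cp_eq (f := fun x : (ℕ × Str) × (Option ℕ × ℕ) => x.2.1.isSome)
      (g := fun _ => true) (by fun_prop) (by fun_prop)
  · fun_prop
  · refine cite (key true) (Computable.const (some 1)) ?_
    exact cite (key false) (Computable.const (some 0)) (Computable.const none)

theorem I1_sound (ee : List ℕ) (p : ℕ × Str) (l : List ℕ) (a : Option ℕ) (v : ℕ)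
    (h : l.foldl (fun s t => I1_h ee p (s, t)) a = some v) :
    a = some v ∨ ∃ t ∈ l, (v = 1 ∧ I1_T ee p.2 t p.1 true) ∨ (v = 0 ∧ I1_T ee p.2 t p.1 false) := by
  induction l generalizing a with
  | nil => left; simpa using h
  | cons t l ih =>
    rw [List.foldl_cons] at h
    rcases ih _ h with h1 | ⟨t', ht', h1⟩
    · unfold I1_h at h1
      split_ifs at h1 with h3 h4 h5
      · left; exact h1
      · right
        refine ⟨t, by simp, Or.inl ⟨(Option.some.inj h1).symm, h4⟩⟩
      · right
        refine ⟨t, by simp, Or.inr ⟨(Option.some.inj h1).symm, h5⟩⟩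
    · right
      exact ⟨t', List.mem_cons_of_mem _ ht', h1⟩

theorem I1_stay (ee : List ℕ) (p : ℕ × Str) (l : List ℕ) (a : Option ℕ) (ha : a.isSome = true) :
    (l.foldl (fun s t => I1_h ee p (s, t)) a).isSome = true := by
  induction l generalizing a with
  | nil => simpa using ha
  | cons t l ih =>
    rw [List.foldl_cons]
    apply ih
    unfold I1_h
    simp only [ha, if_true]

theorem I1_complete (ee : List ℕ) (p : ℕ × Str) (l : List ℕ) (a : Option ℕ) (t : ℕ) (b : Bool)
    (ht : t ∈ l) (hT : I1_T ee p.2 t p.1 b) :
    (l.foldl (fun s t => I1_h ee p (s, t)) a).isSome = true := by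
  induction l generalizing a with
  | nil => simp at ht
  | cons t' l ih =>
    rw [List.foldl_cons]
    rcases List.mem_cons.1 ht with rfl | h
    · apply I1_stay
      unfold I1_h
      split_ifs with h1 h2 h3
      · exact h1
      · rfl
      · rfl
      · exfalso
        cases b
        · exact h3 hT
        · exact h2 hT
    · exact ih _ h

theorem I1 : P_I1 := by
  intro hK Yp hmono hlen
  classical
  refine ⟨fun k => match (Encodable.decode k : Option (List ℕ × Str × ℕ × Bool)) with
    | some q => decide ((Yp q.1 q.2.1)[q.2.2.1]? = some q.2.2.2)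
    | none => false, ?_⟩
  intro ee
  obtain ⟨i, hi⟩ := hK (I1_f ee) (I1_comp ee)
  refine ⟨i, ?_⟩
  intro X Y hX hY
  have hT : ∀ (s t n : ℕ) (b : Bool), I1_T ee (seg X s) t n b →
      Y n = b := by
    intro s t n b h
    unfold I1_T at h
    have h1 := I1_get' _ _ _ _ h
    rw [hX] at h1
    simp only [Encodable.encodek, decide_eq_true_eq] at h1
    by_cases hts : t ≤ s
    · rw [I1_take X hts] at h1
      rw [← hY t] at h1
      exact I1_get' _ _ _ _ h1
    · have h2 : (seg X s).take t = seg X s := by
        apply List.take_of_length_le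
        rw [I1_length]; omega
      rw [h2, ← hY s] at h1
      exact I1_get' _ _ _ _ h1
  have hsound : ∀ (n s v : ℕ), I1_f ee (n, seg X s) = some v → v = (Y n).toNat := by
    intro n s v h
    rcases I1_sound ee (n, seg X s) _ _ v h with h1 | ⟨t, -, ⟨h1, h2⟩ | ⟨h1, h2⟩⟩
    · cases h1
    · rw [hT s t n true h2, h1]; rfl
    · rw [hT s t n false h2, h1]; rfl
  intro n v
  constructor
  · rintro ⟨s, hs⟩
    rw [hi n (seg X s)] at hs
    cases hf : I1_f ee (n, seg X s) with
    | none => rw [hf] at hs; simp at hs
    | some w =>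
      rw [hf] at hs
      simp at hs
      rw [hs]
      exact hsound n s w hf
  · intro hv
    -- the relevant entry
    set t := n + 1 with ht
    set K := 2 * encode (ee, seg X t, n, Y n) with hK2
    set s := K + 1 + t with hs
    refine ⟨s, ?_⟩
    rw [hi n (seg X s)]
    have h1 : I1_T ee (seg X s) t n (Y n) := by
      unfold I1_T
      rw [I1_take X (by omega : t ≤ s), I1_get X s _ (by omega)]
      rw [hX]
      simp only [Encodable.encodek, Option.some.injEq, decide_eq_true_eq]
      rw [← hY t]
      apply I1_get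
      have := hlen ee (seg X t)
      rw [I1_length] at this
      omega
    have h2 : (I1_f ee (n, seg X s)).isSome = true := by
      unfold I1_f
      refine I1_complete ee (n, seg X s) _ none t (Y n) ?_ h1
      rw [List.mem_range, I1_length]
      omega
    obtain ⟨w, hw⟩ := Option.isSome_iff_exists.1 h2
    rw [hw]
    have := hsound n s w hw
    rw [hv, ← this]
    simp

end Pool.Agent.H639.LU
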