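import Pool.Agent.H639.LU.Stubs

set_option autoImplicit false

namespace Pool.Agent.H639.LU

open Nat.Partrec (Code)
open Nat.Partrec.Code (evaln)
open Encodable
open Pool.Agent.Helper446.Defs Pool.Agent.Helper446.Oracle

theorem I2 : P_I2 := by
  intro hK1 hC1 hC2 hC3 r e ν ee he hν
  have hout := hC3 hC1 hC2 r e ν ee he hν
  let f : ℕ × Str → Option ℕ := fun p => ((out r e ν ee p.2)[p.1]?).map Bool.toNat
  have hf : Computable f := by
    have h1 : Computable (fun p : ℕ × Str => (out r e ν ee p.2)[p.1]?) :=
      Computable.list_getElem?.comp (hout.comp Computable.snd) Computable.fst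
    have h2 : Computable (Bool.toNat) := (Primrec.dom_finite Bool.toNat).to_comp
    exact Computable.option_map h1 (h2.comp Computable.snd).to₂
  obtain ⟨j, hj⟩ := hK1 f hf
  refine ⟨j, fun X Y h1 h2 n v => ?_⟩
  simp only [hj, Part.mem_ofOption, Option.mem_def]
  have hseg : ∀ k, (seg X k)[n]? = if n < k then some (X n) else none := by
    intro k
    unfold seg
    rw [List.getElem?_map]
    split_ifs with h
    · rw [List.getElem?_range h]; rfl
    · rw [List.getElem?_eq_none (by simpa using h)]; rfl
  constructor
  · rintro ⟨s, hs⟩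
    obtain ⟨k, hk⟩ := h1 s
    simp only [f, hk, hseg] at hs
    split_ifs at hs with hlt
    · simpa using hs.symm
    · simp at hs
  · intro hv
    obtain ⟨t, ht⟩ := h2 n
    obtain ⟨k, hk⟩ := h1 t
    refine ⟨t, ?_⟩
    rw [hk] at ht
    have hlen : (seg X k).length = k := by
      unfold seg
      simp
    rw [hlen] at ht
    simp only [f, hk, hseg, if_pos ht, hv]
    rfl

end Pool.Agent.H639.LU
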