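import Pool.Agent.H639.LU.Stubs

namespace Pool.Agent.H639.LU

open Nat.Partrec (Code)
open Nat.Partrec.Code (evaln)
open Encodable

theorem K1 : P_K1 := by
  intro f hf
  have h1 : Computable (fun a : ℕ => (decode (α := ℕ × Str) a).bind f) :=
    Computable.option_bind Computable.decode (hf.comp Computable.snd)
  have h2 : Partrec (fun a : ℕ => (Part.ofOption ((decode (α := ℕ × Str) a).bind f) : Part ℕ)) :=
    Computable.ofOption h1
  obtain ⟨c, hc⟩ := Nat.Partrec.Code.exists_code.1 (Partrec.nat_iff.1 h2)
  refine ⟨c, fun n σ => ?_⟩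
  rw [hc]
  simp only [encodek, Option.bind_some]

end Pool.Agent.H639.LU
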