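import Pool.Agent.H639.LU.Stubs

namespace Pool.Agent.H639.LU

open Encodable
open Pool.Agent.Helper446 Pool.Agent.Helper446.Defs Pool.Agent.Helper446.Oracle

theorem K2_seg_get (X : ℕ → Bool) (t x : ℕ) :
    (seg X t)[x]? = if x < t then some (X x) else none := by
  unfold seg
  by_cases h : x < t
  · rw [if_pos h, List.getElem?_map, List.getElem?_range h]
    rfl
  · rw [if_neg h, List.getElem?_eq_none]
    simpa using h

theorem K2_seg_len (X : ℕ → Bool) (t : ℕ) : (seg X t).length = t := by
  simp [seg]

theorem K2 : P_K2 := by
  intro α _ X S
  constructor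
  · rintro ⟨R', hR', h⟩
    refine ⟨fun a σ => ∃ c : List ℕ × List ℕ, R' a c ∧ (∀ x ∈ c.1, σ[x]? = some true) ∧
      (∀ x ∈ c.2, σ[x]? = some false), ?_, fun a => ?_⟩
    · refine RE.ex (p := fun (y : α × Str) (c : List ℕ × List ℕ) =>
        R' y.1 c ∧ (∀ x ∈ c.1, y.2[x]? = some true) ∧ (∀ x ∈ c.2, y.2[x]? = some false)) ?_
      refine RE.and ?_ (RE.and ?_ ?_)
      · exact RE.comp hR' (f := fun y : (α × Str) × (List ℕ × List ℕ) => (y.1.1, y.2))
          (by fun_prop)
      · refine RE.all_mem (p := fun (y : (α × Str) × (List ℕ × List ℕ)) (x : ℕ) =>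
          y.1.2[x]? = some true) (l := fun y => y.2.1) ?_ (by fun_prop)
        exact RE.eq (by fun_prop) (by fun_prop)
      · refine RE.all_mem (p := fun (y : (α × Str) × (List ℕ × List ℕ)) (x : ℕ) =>
          y.1.2[x]? = some false) (l := fun y => y.2.2) ?_ (by fun_prop)
        exact RE.eq (by fun_prop) (by fun_prop)
    · rw [h a]
      constructor
      · rintro ⟨c, hc, hok⟩
        refine ⟨c.1.sum + c.2.sum + 1, c, hc, fun x hx => ?_, fun x hx => ?_⟩
        · have h1 : x ≤ c.1.sum := List.single_le_sum (by simp) x hx
          rw [K2_seg_get, if_pos (by omega)]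
          have := hok.1 x hx
          exact congrArg some this
        · have h1 : x ≤ c.2.sum := List.single_le_sum (by simp) x hx
          rw [K2_seg_get, if_pos (by omega)]
          have := hok.2 x hx
          have h2 : X x = false := by
            simpa [St] using this
          exact congrArg some h2
      · rintro ⟨s, c, hc, h1, h2⟩
        refine ⟨c, hc, fun x hx => ?_, fun x hx => ?_⟩
        · have := h1 x hx
          rw [K2_seg_get] at this
          split_ifs at this
          show X x = true
          exact Option.some.inj this
        · have := h2 x hx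
          rw [K2_seg_get] at this
          split_ifs at this
          have h3 : X x = false := Option.some.inj this
          simp [St, h3]
  · rintro ⟨R, hR, h⟩
    refine ⟨fun a c => ∃ s : Str, R a s ∧ (∀ i < s.length, (s[i]? = some true ∧ i ∈ c.1) ∨
      (s[i]? = some false ∧ i ∈ c.2)), ?_, fun a => ?_⟩
    · refine RE.ex (p := fun (y : α × (List ℕ × List ℕ)) (s : Str) =>
        R y.1 s ∧ (∀ i < s.length, (s[i]? = some true ∧ i ∈ y.2.1) ∨
          (s[i]? = some false ∧ i ∈ y.2.2))) ?_
      refine RE.and ?_ ?_
      · exact RE.comp hR (f := fun y : (α × (List ℕ × List ℕ)) × Str => (y.1.1, y.2))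
          (by fun_prop)
      · refine RE.all_lt (p := fun (y : (α × (List ℕ × List ℕ)) × Str) (i : ℕ) =>
          (y.2[i]? = some true ∧ i ∈ y.1.2.1) ∨ (y.2[i]? = some false ∧ i ∈ y.1.2.2))
          (f := fun y => y.2.length) ?_ (by fun_prop)
        refine RE.or (RE.and ?_ ?_) (RE.and ?_ ?_)
        · exact RE.eq (by fun_prop) (by fun_prop)
        · exact RE.mem_list (by fun_prop) (by fun_prop)
        · exact RE.eq (by fun_prop) (by fun_prop)
        · exact RE.mem_list (by fun_prop) (by fun_prop)
    · rw [h a]
      constructor
      · rintro ⟨t, ht⟩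
        refine ⟨((List.range t).filter (fun i => X i), (List.range t).filter (fun i => !(X i))),
          ⟨seg X t, ht, fun i hi => ?_⟩, fun x hx => ?_, fun x hx => ?_⟩
        · rw [K2_seg_len] at hi
          rw [K2_seg_get, if_pos hi]
          cases hX : X i
          · right
            refine ⟨rfl, ?_⟩
            simp [hX, hi]
          · left
            refine ⟨rfl, ?_⟩
            simp [hX, hi]
        · simp only [List.mem_filter] at hx
          exact hx.2
        · simp only [List.mem_filter] at hx
          have h3 := hx.2
          simp only [Bool.not_eq_true'] at h3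
          simp [St, h3]
      · rintro ⟨c, ⟨s, hs, h1⟩, hok⟩
        refine ⟨s.length, ?_⟩
        have h2 : seg X s.length = s := by
          refine List.ext_getElem? fun i => ?_
          rw [K2_seg_get]
          by_cases hi : i < s.length
          · rw [if_pos hi]
            rcases h1 i hi with ⟨h3, h4⟩ | ⟨h3, h4⟩
            · rw [h3]
              exact congrArg some (hok.1 i h4)
            · rw [h3]
              have := hok.2 i h4
              have h5 : X i = false := by simpa [St] using this
              exact congrArg some h5
          · rw [if_neg hi, List.getElem?_eq_none (by omega)]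
        rw [h2]
        exact hs

end Pool.Agent.H639.LU
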