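import Pool.Agent.H639.LU.Stubs

/-!
K3: Turing reductions by programs.
-/

namespace Pool.Agent.H639.LU

open Nat.Partrec (Code)
open Nat.Partrec.Code (evaln)
open Encodable
open Pool.Agent.Helper446 Pool.Agent.Helper446.Defs Pool.Agent.Helper446.Oracle

theorem K3_re (c : Code) (v : ℕ) :
    REPred (fun p : ℕ × Str => v ∈ c.eval (encode (p.1, p.2))) := by
  have h1 : REPred (fun p : ℕ × Str => ∃ k : ℕ, evaln k c (encode (p.1, p.2)) = some v) := by
    refine RE.ex (p := fun (p : ℕ × Str) (k : ℕ) => evaln k c (encode (p.1, p.2)) = some v) ?_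
    refine RE.eq ?_ (Computable.const _)
    exact Nat.Partrec.Code.primrec_evaln.to_comp.comp
      (f := fun a : (ℕ × Code) × ℕ => evaln a.1.1 a.1.2 a.2)
      (g := fun x : (ℕ × Str) × ℕ => ((x.2, c), encode (x.1.1, x.1.2))) (by fun_prop)
  have h2 : (fun p : ℕ × Str => v ∈ c.eval (encode (p.1, p.2))) =
      fun p : ℕ × Str => ∃ k : ℕ, evaln k c (encode (p.1, p.2)) = some v := by
    funext p
    exact propext Nat.Partrec.Code.evaln_complete
  rw [h2]
  exact h1

theorem K3 : P_K3 := by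
  intro hK2 X Y
  unfold le
  rw [turingReducible_iff]
  constructor
  · rintro ⟨h1, h0⟩
    obtain ⟨R1, hR1, hS1⟩ := (hK2 ℕ X _).1 h1
    obtain ⟨R0, hR0, hS0⟩ := (hK2 ℕ X _).1 h0
    have hr : REPred (fun x : (ℕ × Str) × ℕ =>
        (fun (p : ℕ × Str) (v : ℕ) => (R1 p.1 p.2 ∧ v = 1) ∨ (R0 p.1 p.2 ∧ v = 0)) x.1 x.2) := by
      refine RE.or (RE.and ?_ (RE.eq (by fun_prop) (by fun_prop)))
        (RE.and ?_ (RE.eq (by fun_prop) (by fun_prop)))
      · exact RE.comp hR1 (f := fun x : (ℕ × Str) × ℕ => (x.1.1, x.1.2)) (by fun_prop)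
      · exact RE.comp hR0 (f := fun x : (ℕ × Str) × ℕ => (x.1.1, x.1.2)) (by fun_prop)
    obtain ⟨f, hf, hdom, hval⟩ := RE.uniformize (r := fun (p : ℕ × Str) (v : ℕ) =>
      (R1 p.1 p.2 ∧ v = 1) ∨ (R0 p.1 p.2 ∧ v = 0)) hr
    obtain ⟨c, hc⟩ := Nat.Partrec.Code.exists_code.1 hf
    have hce : ∀ (n : ℕ) (σ : Str), c.eval (encode (n, σ)) = f (n, σ) := by
      intro n σ
      have h7 : c.eval (encode (n, σ)) =
          (Part.ofOption (decode (α := ℕ × Str) (encode (n, σ)))).bind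
            (fun a => Part.map encode (f a)) := by
        rw [hc]
      rw [h7, encodek]
      show (Part.some (n, σ)).bind (fun a => Part.map encode (f a)) = f (n, σ)
      rw [Part.bind_some]
      exact Part.map_id' (fun x => rfl) _
    have key : ∀ n v s, v ∈ c.eval (encode (n, seg X s)) → v = (Y n).toNat := by
      intro n v s hv
      rw [hce] at hv
      rcases hval _ _ hv with ⟨h3, h4⟩ | ⟨h3, h4⟩
      · have h5 : n ∈ St Y := (hS1 n).2 ⟨s, h3⟩
        have h6 : Y n = true := h5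
        rw [h4, h6]; rfl
      · have h5 : n ∉ St Y := (hS0 n).2 ⟨s, h3⟩
        have h6 : Y n = false := by
          simpa [St] using h5
        rw [h4, h6]; rfl
    refine ⟨c, fun n v => ⟨?_, ?_⟩⟩
    · rintro ⟨s, hv⟩
      exact key n v s hv
    · intro hv
      have hex : ∃ s, ∃ w, (R1 n (seg X s) ∧ w = 1) ∨ (R0 n (seg X s) ∧ w = 0) := by
        by_cases hn : n ∈ St Y
        · obtain ⟨s, hs⟩ := (hS1 n).1 hn
          exact ⟨s, 1, Or.inl ⟨hs, rfl⟩⟩
        · obtain ⟨s, hs⟩ := (hS0 n).1 hn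
          exact ⟨s, 0, Or.inr ⟨hs, rfl⟩⟩
      obtain ⟨s, hs⟩ := hex
      have hd : (f (n, seg X s)).Dom := (hdom (n, seg X s)).2 hs
      obtain ⟨w, hw⟩ := Part.dom_iff_mem.1 hd
      rw [← hce] at hw
      have := key n w s hw
      refine ⟨s, ?_⟩
      rw [hv, ← this]
      exact hw
  · rintro ⟨c, hc⟩
    constructor
    · refine (hK2 ℕ X _).2 ⟨fun n σ => 1 ∈ c.eval (encode (n, σ)), K3_re c 1, fun n => ?_⟩
      rw [hc n 1]
      show Y n = true ↔ _
      cases Y n <;> simp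
    · refine (hK2 ℕ X _).2 ⟨fun n σ => 0 ∈ c.eval (encode (n, σ)), K3_re c 0, fun n => ?_⟩
      rw [hc n 0]
      show ¬ (Y n = true) ↔ _
      cases Y n <;> simp

end Pool.Agent.H639.LU
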