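import Pool.Agent.H639.LU.Stubs

/-!
K4: transitivity, reflexivity and many-one reductions.
-/

namespace Pool.Agent.H639.LU

open Nat.Partrec (Code)
open Encodable
open Pool.Agent.Helper446 Pool.Agent.Helper446.Defs Pool.Agent.Helper446.Oracle

theorem K4_re {X Z : ℕ → Bool} (h : le X Z) {S : ℕ → Prop} (hS : REIn (St X) S) :
    REIn (St Z) S := by
  obtain ⟨h1, h2⟩ := turingReducible_iff.1 h
  obtain ⟨R, hR, hS⟩ := hS
  have h3 : REIn (St Z) fun a : ℕ => ∃ c : List ℕ × List ℕ, R a c ∧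
      (∀ x ∈ c.1, x ∈ St X) ∧ ∀ x ∈ c.2, x ∉ St X := by
    refine REIn.ex (S := fun (a : ℕ) (c : List ℕ × List ℕ) => R a c ∧
      (∀ x ∈ c.1, x ∈ St X) ∧ ∀ x ∈ c.2, x ∉ St X) ?_
    refine REIn.and (REIn.of_re hR) (REIn.and ?_ ?_)
    · refine REIn.all_mem (S := fun (_ : ℕ × (List ℕ × List ℕ)) (x : ℕ) => x ∈ St X)
        (l := fun y => y.2.1) ?_ (by fun_prop)
      exact h1.comp (f := fun y : (ℕ × (List ℕ × List ℕ)) × ℕ => y.2) (by fun_prop)
    · refine REIn.all_mem (S := fun (_ : ℕ × (List ℕ × List ℕ)) (x : ℕ) => x ∉ St X)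
        (l := fun y => y.2.2) ?_ (by fun_prop)
      exact h2.comp (f := fun y : (ℕ × (List ℕ × List ℕ)) × ℕ => y.2) (by fun_prop)
  exact h3.of_eq fun a => (hS a).symm

theorem K4 : P_K4 := by
  refine ⟨fun X Z h S hS => K4_re h hS, fun X Y Z h1 h2 => ?_, fun X => ?_, ?_⟩
  · obtain ⟨h3, h4⟩ := turingReducible_iff.1 h1
    exact turingReducible_iff.2 ⟨K4_re h2 h3, K4_re h2 h4⟩
  · exact turingReducible_iff.2 ⟨REIn.mem (f := fun n => n) (by fun_prop),
      REIn.not_mem (f := fun n => n) (by fun_prop)⟩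
  · intro X z f hf hz
    refine turingReducible_iff.2 ⟨?_, ?_⟩
    · refine (REIn.mem (A := St X) hf).of_eq fun n => ?_
      simp only [St, Set.mem_setOf_eq, hz]
    · refine (REIn.not_mem (A := St X) hf).of_eq fun n => ?_
      simp only [St, Set.mem_setOf_eq, hz]

end Pool.Agent.H639.LU
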