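import Pool.Agent.H639.LU.Stubs

/-!
K5: the sets `W` and `J` are computably enumerable; Post.
-/

namespace Pool.Agent.H639.LU

open Nat.Partrec (Code)
open Encodable
open Pool.Agent.Helper446 Pool.Agent.Helper446.Defs Pool.Agent.Helper446.Oracle

theorem K5_univ : REPred fun p : Code × ℕ × Str => (p.1.eval (encode (p.2.1, p.2.2))).Dom := by
  have h : Partrec fun p : Code × ℕ × Str => p.1.eval (encode (p.2.1, p.2.2)) :=
    Nat.Partrec.Code.eval_part.comp Computable.fst
      (Computable.encode.comp (Computable.pair (Computable.fst.comp Computable.snd)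
        (Computable.snd.comp Computable.snd)))
  exact h.dom_re

theorem K5_W (hK2 : P_K2) (r : Code) (X : ℕ → Bool) : REIn (St X) (W r X) := by
  refine (hK2 ℕ X _).2 ⟨fun n s => (r.eval (encode (n, s))).Dom, ?_, fun n => Iff.rfl⟩
  exact RE.comp K5_univ (f := fun p : ℕ × Str => (r, p.1, p.2)) (by fun_prop)

theorem K5_J (hK2 : P_K2) (X : ℕ → Bool) : REIn (St X) (J X) := by
  refine (hK2 ℕ X _).2 ⟨fun p s => ((Denumerable.ofNat Code p.unpair.1).eval
    (encode (p.unpair.2, s))).Dom, ?_, fun n => Iff.rfl⟩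
  refine RE.comp K5_univ (f := fun p : ℕ × Str =>
    (Denumerable.ofNat Code p.1.unpair.1, p.1.unpair.2, p.2)) ?_
  have h1 : Computable fun p : ℕ × Str => Denumerable.ofNat Code p.1.unpair.1 :=
    (Computable.ofNat Code).comp (by fun_prop)
  exact h1.pair (by fun_prop)

theorem K5 : P_K5 := by
  intro hK2
  refine ⟨K5_W hK2, K5_J hK2, ?_, ?_⟩
  · intro X P h1 h2
    refine turingReducible_iff.2 ⟨?_, ?_⟩
    · refine h1.of_eq fun n => ?_
      simp [St, ch]
    · refine h2.of_eq fun n => ?_
      simp [St, ch]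
  · intro X P h
    obtain ⟨h1, h2⟩ := turingReducible_iff.1 h
    refine ⟨?_, ?_⟩
    · refine h1.of_eq fun n => ?_
      simp [St, ch]
    · refine h2.of_eq fun n => ?_
      simp [St, ch]

end Pool.Agent.H639.LU
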