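import Pool.Agent.H639.LU.Stubs

namespace Pool.Agent.H639.LU

open Nat.Partrec (Code)
open Nat.Partrec.Code (evaln)
open Encodable
open Pool.Agent.Helper446 Pool.Agent.Helper446.Defs Pool.Agent.Helper446.Oracle Pool.Agent.Helper446.RE

theorem K6_take (Z : ℕ → Bool) {t' t : ℕ} (h : t' ≤ t) : (seg Z t).take t' = seg Z t' := by
  unfold seg
  rw [← List.map_take, List.take_range, min_eq_left h]

theorem K6_length (Z : ℕ → Bool) (t : ℕ) : (seg Z t).length = t := by
  unfold seg; simp

theorem K6 : P_K6 := by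
  intro h2 h1 Z
  refine (h2 (Code × ℕ × ℕ) Z (fun p : Code × ℕ × ℕ => Val p.1 Z p.2.1 p.2.2)).2
    ⟨fun p s => nxtv p.1 s p.2.1 = some p.2.2 ∧
      ∀ t' < s.length, nxtv p.1 (s.take t') p.2.1 = none, ?_, ?_⟩
  · refine RE.and ?_ ?_
    · refine RE.eq ?_ ?_
      · exact h1.1.comp (f := fun p : Code × Str × ℕ => nxtv p.1 p.2.1 p.2.2)
          (g := fun x : (Code × ℕ × ℕ) × Str => (x.1.1, x.2, x.1.2.1)) (by fun_prop)
      · fun_prop
    · refine RE.all_lt (p := fun (x : (Code × ℕ × ℕ) × Str) (t' : ℕ) =>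
        nxtv x.1.1 (x.2.take t') x.1.2.1 = none) ?_ (by fun_prop)
      refine RE.eq ?_ (Computable.const none)
      have b1 : Computable (fun y : ((Code × ℕ × ℕ) × Str) × ℕ => y.1.2.take y.2) :=
        (Primrec.list_take.to_comp).comp Computable.snd
          (Computable.snd.comp Computable.fst)
      have b2 : Computable (fun y : ((Code × ℕ × ℕ) × Str) × ℕ => y.1.1.1) := by fun_prop
      have b3 : Computable (fun y : ((Code × ℕ × ℕ) × Str) × ℕ => y.1.1.2.1) := by fun_prop
      exact h1.1.comp (f := fun p : Code × Str × ℕ => nxtv p.1 p.2.1 p.2.2)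
        (g := fun y : ((Code × ℕ × ℕ) × Str) × ℕ => (y.1.1.1, y.1.2.take y.2, y.1.1.2.1))
        (b2.pair (b1.pair b3))
  · intro p
    constructor
    · rintro ⟨t, ht, hmin⟩
      refine ⟨t, ht, fun t' h' => ?_⟩
      rw [K6_length] at h'
      rw [K6_take Z h'.le]
      exact hmin t' h'
    · rintro ⟨t, ht, hmin⟩
      refine ⟨t, ht, fun t' h' => ?_⟩
      have := hmin t' (by rw [K6_length]; exact h')
      rwa [K6_take Z h'.le] at this

end Pool.Agent.H639.LU
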