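import Pool.Agent.H639.LU.Stubs

/-!
Task L1: limits of monotone approximations.
-/

namespace Pool.Agent.H639.LU

open Pool.Agent.Helper446.Defs Pool.Agent.Helper446.Oracle

theorem L1_seg_succ (X : ℕ → Bool) (t : ℕ) : seg X (t + 1) = seg X t ++ [X t] := by
  simp [seg, List.range_succ]

theorem L1_mono (Yap : Str → Str) (h : ∀ x b, Yap x <+: Yap (x ++ [b])) (X : ℕ → Bool)
    (s d : ℕ) : Yap (seg X s) <+: Yap (seg X (s + d)) := by
  induction d with
  | zero => exact List.prefix_refl _
  | succ d ih =>
    refine ih.trans ?_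
    have : s + (d + 1) = (s + d) + 1 := by omega
    rw [this, L1_seg_succ]
    exact h _ _

theorem L1_getD {l l' : Str} (h : l <+: l') (n : ℕ) (hn : n < l.length) :
    l'.getD n false = l.getD n false := by
  obtain ⟨r, rfl⟩ := h
  simp [List.getD, List.getElem?_append_left hn]

theorem L1 : P_L1 := by
  intro Yap h1 h2 X
  refine ⟨fun n => (Yap (seg X (n + 1))).getD n false, fun t => ?_⟩
  apply List.ext_getElem
  · simp [seg]
  · intro n hn1 hn2
    have hlen : n < (Yap (seg X (n + 1))).length := by
      have := h2 (seg X (n + 1))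
      have h3 : (seg X (n + 1)).length = n + 1 := by simp [seg]
      omega
    have e1 : (seg (fun n => (Yap (seg X (n + 1))).getD n false) (Yap (seg X t)).length)[n] =
        (Yap (seg X (n + 1))).getD n false := by
      simp [seg]
    rw [e1]
    have e2 : (Yap (seg X t))[n] = (Yap (seg X t)).getD n false := by
      rw [List.getD_eq_getElem _ _ hn2]
    rw [e2]
    rcases le_total t (n + 1) with hle | hle
    · obtain ⟨d, hd⟩ := Nat.exists_eq_add_of_le hle
      have hm := L1_mono Yap h1 X t d
      rw [← hd] at hm
      exact L1_getD hm n hn2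
    · obtain ⟨d, hd⟩ := Nat.exists_eq_add_of_le hle
      have hm := L1_mono Yap h1 X (n + 1) d
      rw [← hd] at hm
      exact (L1_getD hm n hlen).symm

end Pool.Agent.H639.LU
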