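import Pool.Agent.H639.LU.Stubs

namespace Pool.Agent.H639.LU

open Nat.Partrec (Code)
open Nat.Partrec.Code (evaln)
open Encodable
open Pool.Agent.Helper446.Defs Pool.Agent.Helper446.Oracle

private theorem m1_len (X : ℕ → Bool) (n : ℕ) : (seg X n).length = n := by
  simp [seg]

private theorem m1_succ (X : ℕ → Bool) (n : ℕ) : seg X (n + 1) = seg X n ++ [X n] := by
  simp [seg, List.range_succ]

private theorem m1_mono (X : ℕ → Bool) {a b : ℕ} (h : a ≤ b) : seg X a <+: seg X b := by
  induction b, h using Nat.le_induction with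
  | base => exact List.prefix_rfl
  | succ n _ ih =>
    rw [m1_succ]
    exact ih.trans (List.prefix_append _ _)

private theorem m1_pre (X : ℕ → Bool) {n : ℕ} {y : Str} (h : y <+: seg X n) :
    seg X y.length = y := by
  have hl : y.length ≤ n := by
    have := h.length_le
    rwa [m1_len] at this
  have h1 : seg X y.length <+: seg X n := m1_mono X hl
  refine (List.prefix_of_prefix_length_le h1 h ?_).eq_of_length ?_
  · rw [m1_len]
  · rw [m1_len]

private theorem m1_getD (y : Str) : seg (fun n => y.getD n false) y.length = y := by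
  apply List.ext_getElem
  · rw [m1_len]
  · intro i h1 h2
    simp [seg, List.getElem?_eq_getElem h2]

theorem M1 : P_M1 := by
  intro hN1 hB1 hD1 hD2 hD3 hN2 r m e g ν ee hC hee q hq w η s hw hsta y hwy hyg
  obtain ⟨hW, -, -, -⟩ := hN2 hN1
  obtain ⟨-, hcl, -, -, -⟩ := hD2 hN1 hN2
  obtain ⟨-, hBb, -, -⟩ := hB1 hD1 _ _ (hC.tr q hq)
  obtain ⟨l, rfl⟩ := hwy
  induction l using List.reverseRecOn with
  | nil => rw [List.append_nil]; exact hsta
  | append_singleton l b ih =>
    rw [← List.append_assoc] at hyg ⊢
    rw [(hD3 r e ν ee).2, ih ((List.prefix_append _ _).trans hyg)]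
    unfold stp
    rw [if_neg]
    rintro ⟨h1, h2⟩
    rcases hq.lt_or_eq with h | h
    · obtain ⟨X, hX⟩ : ∃ X, X = br (g q) (fun n => η.getD n false) := ⟨_, rfl⟩
      have hXg : seg X (g q η).length = g q η := by
        have := (hBb (fun n => η.getD n false) η.length).2
        rw [m1_getD] at this
        rw [hX]
        exact this
      have hB : X ∈ Bd r (Rng (g (q + 1))) (ν (q + 1)) := hC.sub q h ⟨_, hX.symm⟩
      apply hB.2.1
      rw [hW]
      refine ⟨(w ++ l ++ [b]).length, ?_⟩
      rw [m1_pre X (n := (g q η).length) (by rw [hXg]; exact hyg)]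
      exact h2
    · have h3 := hcl ee ((dec (e q) (w ++ l ++ [b])).drop s)
      simp only at h1
      omega

end Pool.Agent.H639.LU
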