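import Pool.Agent.H639.LU.Stubs

namespace Pool.Agent.H639.LU

open Nat.Partrec (Code)
open Nat.Partrec.Code (evaln)
open Encodable
open Pool.Agent.Helper446.Defs Pool.Agent.Helper446.Oracle

private theorem m2_len (X : ℕ → Bool) (n : ℕ) : (seg X n).length = n := by
  simp [seg]

private theorem m2_succ (X : ℕ → Bool) (n : ℕ) : seg X (n + 1) = seg X n ++ [X n] := by
  simp [seg, List.range_succ]

private theorem m2_mono (X : ℕ → Bool) {a b : ℕ} (h : a ≤ b) : seg X a <+: seg X b := by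
  induction b, h using Nat.le_induction with
  | base => exact List.prefix_rfl
  | succ n _ ih =>
    rw [m2_succ]
    exact ih.trans (List.prefix_append _ _)

private theorem m2_pre (X : ℕ → Bool) {n : ℕ} {y : Str} (h : y <+: seg X n) :
    seg X y.length = y := by
  have hl : y.length ≤ n := by
    have := h.length_le
    rwa [m2_len] at this
  have h1 : seg X y.length <+: seg X n := m2_mono X hl
  refine (List.prefix_of_prefix_length_le h1 h ?_).eq_of_length ?_
  · rw [m2_len]
  · rw [m2_len]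

private theorem m2_getD (y : Str) : seg (fun n => y.getD n false) y.length = y := by
  apply List.ext_getElem
  · rw [m2_len]
  · intro i h1 h2
    simp [seg, List.getElem?_eq_getElem h2]

theorem M2 : P_M2 := by
  intro hN1 hB1 hD1' hD2 hD3 hN2 hM1 r m e g ν ee hC hee q hq η x hst0 hcnt
  obtain ⟨hW, hhm, -, -⟩ := hN2 hN1
  obtain ⟨-, -, hdm, -⟩ := id hD1'
  obtain ⟨hcm, -, -, -, -⟩ := hD2 hN1 hN2
  have hTq : Tr (e q) (g q) := hC.tr q hq.le
  have hTq1 : Tr (e (q + 1)) (g (q + 1)) := hC.tr (q + 1) hq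
  obtain ⟨hBa, hBb, -, -⟩ := hB1 hD1' _ _ hTq
  obtain ⟨-, hBb1, -, -⟩ := hB1 hD1' _ _ hTq1
  obtain ⟨v, hv⟩ : ∃ v, v = g q (η ++ x) := ⟨_, rfl⟩
  have hgv : g q η <+: v := hv ▸ hBa η x
  have hdecv : dec (e q) v = η ++ x := hv ▸ hTq.dec _
  have hstv : sta r e ν ee v = (q, η.length) :=
    hM1 hN1 hB1 hD1' hD2 hD3 hN2 r m e g ν ee hC hee q hq.le (g q η) (η ++ x) η.length
      (hv ▸ hgv) hst0 v hgv (hv ▸ List.prefix_rfl)
  -- the point on the branch
  obtain ⟨X0, hX0⟩ : ∃ X0, X0 = br (g q) (fun n => (η ++ x).getD n false) := ⟨_, rfl⟩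
  have hX0v : seg X0 v.length = v := by
    have := (hBb (fun n => (η ++ x).getD n false) (η ++ x).length).2
    rw [m2_getD] at this
    rw [hX0, hv]
    exact this
  have hX0B : X0 ∈ Bd r (Rng (g (q + 1))) (ν (q + 1)) := hC.sub q hq ⟨_, hX0.symm⟩
  obtain ⟨-, hnW, hZ⟩ := hX0B
  obtain ⟨Z, ⟨A, hA⟩, hZv, hWZ⟩ := hZ v.length
  rw [hX0v] at hZv
  have hhv : ¬ hst r v (ν (q + 1)) = true := fun h =>
    hnW ((hW r X0 _).2 ⟨v.length, by rw [hX0v]; exact h⟩)
  have hex : ∃ t, hst r (seg Z t) (ν (q + 1)) = true := (hW r Z _).1 hWZ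
  obtain ⟨u, hu⟩ : ∃ u, u = Nat.find hex := ⟨_, rfl⟩
  have hu1 : hst r (seg Z u) (ν (q + 1)) = true := hu ▸ Nat.find_spec hex
  have hu2 : ∀ t < u, ¬ hst r (seg Z t) (ν (q + 1)) = true := by
    intro t ht
    exact Nat.find_min hex (hu ▸ ht)
  have hvu : v.length < u := by
    by_contra hcon
    apply hhv
    rw [← hZv]
    exact hhm r _ _ _ (m2_mono Z (not_lt.1 hcon)) hu1
  have hbelow : ∀ t, v.length ≤ t → t < u → sta r e ν ee (seg Z t) = (q, η.length) := by
    intro t ht
    induction t, ht using Nat.le_induction with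
    | base =>
      intro _
      rw [hZv]
      exact hstv
    | succ n hn ih =>
      intro hlt
      rw [m2_succ, (hD3 r e ν ee).2, ih (by omega), ← m2_succ]
      unfold stp
      rw [if_neg]
      rintro ⟨-, h2⟩
      exact hu2 _ hlt h2
  obtain ⟨k, hk⟩ : ∃ k, k = (dec (e (q + 1)) (seg Z u)).length + 1 := ⟨_, rfl⟩
  have hatu : sta r e ν ee (seg Z u) = (q + 1, k) := by
    obtain ⟨u', rfl⟩ : ∃ u', u = u' + 1 := ⟨u - 1, by omega⟩
    rw [m2_succ, (hD3 r e ν ee).2, hbelow u' (by omega) (by omega), ← m2_succ]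
    unfold stp
    rw [if_pos]
    · rw [hk]
    · refine ⟨?_, hu1⟩
      have h1 : η ++ x <+: dec (e q) (seg Z (u' + 1)) := by
        rw [← hdecv]
        refine hdm _ _ _ ?_
        rw [← hZv]
        exact m2_mono Z hvu.le
      have h2 : x <+: (dec (e q) (seg Z (u' + 1))).drop η.length := by
        obtain ⟨l, hl⟩ := h1
        rw [← hl, List.append_assoc, List.drop_left]
        exact List.prefix_append _ _
      exact hcnt.trans (hcm ee _ _ h2)
  obtain ⟨η', hη'⟩ : ∃ η', η' = seg A k := ⟨_, rfl⟩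
  have hη'l : η'.length = k := by rw [hη', m2_len]
  have hgη : seg Z (g (q + 1) η').length = g (q + 1) η' := by
    rw [← hA, hη']
    exact (hBb1 A k).2
  have hlong : u < (g (q + 1) η').length := by
    by_contra hcon
    have h1 : g (q + 1) η' <+: seg Z u := by
      rw [← hgη]
      exact m2_mono Z (not_lt.1 hcon)
    have h2 := (hdm (e (q + 1)) _ _ h1).length_le
    rw [hTq1.dec, hη'l, hk] at h2
    omega
  have hwg : seg Z u <+: g (q + 1) η' := by
    rw [← hgη]
    exact m2_mono Z hlong.le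
  have habove : ∀ y : Str, seg Z u <+: y → y <+: g (q + 1) η' →
      sta r e ν ee y = (q + 1, η'.length) := by
    intro y hy1 hy2
    rw [hη'l]
    exact hM1 hN1 hB1 hD1' hD2 hD3 hN2 r m e g ν ee hC hee (q + 1) hq (seg Z u) η' k hwg hatu y
      hy1 hy2
  refine ⟨η', ?_, habove _ hwg List.prefix_rfl, hhm r _ _ _ hwg hu1, ?_⟩
  · rw [← hv, ← hZv]
    exact (m2_mono Z hvu.le).trans hwg
  · intro y hy1 hy2
    have hyZ : seg Z y.length = y := by
      refine m2_pre Z (n := (g (q + 1) η').length) ?_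
      rw [hgη]
      exact hy2
    rw [← hv] at hy1
    rcases lt_or_ge y.length u with h | h
    · left
      rw [← hyZ]
      exact hbelow _ hy1.length_le h
    · right
      refine habove y ?_ hy2
      rw [← hyZ]
      exact m2_mono Z h

end Pool.Agent.H639.LU
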