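import Pool.Agent.H639.LU.Stubs

/-! M3: the plan. -/

namespace Pool.Agent.H639.LU

open Nat.Partrec (Code)
open Nat.Partrec.Code (evaln)
open Encodable
open Pool.Agent.Helper446.Defs Pool.Agent.Helper446.Oracle

theorem M3_drop {η z y : Str} (h : y <+: η ++ z) : y.drop η.length <+: z := by
  have h1 := h.drop η.length
  rwa [List.drop_left] at h1

theorem M3_out {r : Code} {e : ℕ → Code} {ν : ℕ → ℕ} {ee : List ℕ} {y η z : Str} {q : ℕ}
    (h1 : sta r e ν ee y = (q, η.length)) (h2 : dec (e q) y <+: η ++ z) :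
    out r e ν ee y <+: z := by
  unfold out
  rw [h1]
  split_ifs
  · exact M3_drop h2
  · exact List.nil_prefix

theorem M3_rec {β : Type} (p0 : β) (step : β → Str → β) : ∃ pl : Str → β, pl [] = p0 ∧
    ∀ x b, pl (x ++ [b]) = step (pl x) (x ++ [b]) := by
  refine ⟨fun x => Nat.rec p0 (fun t p => step p (x.take (t + 1))) x.length, rfl, ?_⟩
  intro x b
  have h1 : ∀ t ≤ x.length, (Nat.rec p0 (fun t p => step p ((x ++ [b]).take (t + 1))) t : β) =
      Nat.rec p0 (fun t p => step p (x.take (t + 1))) t := by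
    intro t
    induction t with
    | zero => intro _; rfl
    | succ t ih =>
      intro ht
      show step _ _ = step _ _
      rw [ih (by omega), List.take_append_of_le_length ht]
  have h2 : (x ++ [b]).length = x.length + 1 := by simp
  show (Nat.rec p0 (fun t p => step p ((x ++ [b]).take (t + 1))) (x ++ [b]).length : β) = _
  rw [h2]
  show step _ _ = step _ _
  rw [h1 _ le_rfl]
  congr 1
  rw [← h2, List.take_length]

theorem M3 : P_M3 := by
  intro hN1 hB1 hD1 hD2 hD3 hN2 hM1 hM2 r m e g ν ee hch hee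
  classical
  obtain ⟨d1a, d1b, d1c, d1d⟩ := hD1
  obtain ⟨d2a, d2b, d2c, d2d, d2e⟩ := hD2 hN1 hN2
  obtain ⟨n2a, n2b, n2c, n2d⟩ := hN2 hN1
  have M1' := hM1 hN1 hB1 ⟨d1a, d1b, d1c, d1d⟩ hD2 hD3 hN2 r m e g ν ee hch hee
  have M2' := hM2 hN1 hB1 ⟨d1a, d1b, d1c, d1d⟩ hD2 hD3 hN2 hM1 r m e g ν ee hch hee
  obtain ⟨d3a, d3b⟩ := hD3 r e ν ee
  have B11 : ∀ q ≤ m, ∀ η η' : Str, g q η <+: g q (η ++ η') := fun q hq =>
    (hB1 ⟨d1a, d1b, d1c, d1d⟩ (e q) (g q) (hch.tr q hq)).1
  have hlt : ∀ q z, q < cnt ee z → q < m := fun q z h => lt_of_lt_of_le h ((d2b ee z).trans hee)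
  have key : ∀ (q : ℕ) (η z : Str), q < cnt ee z ∧ sta r e ν ee (g q η) = (q, η.length) →
      ∃ η' : Str, g q (η ++ z) <+: g (q + 1) η' ∧
        sta r e ν ee (g (q + 1) η') = (q + 1, η'.length) ∧
        hst r (g (q + 1) η') (ν (q + 1)) = true ∧
        ∀ y : Str, g q (η ++ z) <+: y → y <+: g (q + 1) η' →
          (sta r e ν ee y = (q, η.length) ∨ sta r e ν ee y = (q + 1, η'.length)) :=
    fun q η z h => M2' q (hlt q z h.1) η z h.2 h.1
  obtain ⟨pl, hpl0, hpl1⟩ := M3_rec ((0, []) : ℕ × Str) (fun p z =>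
    if h : p.1 < cnt ee z ∧ sta r e ν ee (g p.1 p.2) = (p.1, p.2.length) then
      (p.1 + 1, (key p.1 p.2 z h).choose) else p)
  -- the stay case
  have hstay : ∀ x b, cnt ee (x ++ [b]) ≤ (pl x).1 → pl (x ++ [b]) = pl x := by
    intro x b h
    rw [hpl1, dif_neg]
    rintro ⟨h1, _⟩
    omega
  have hgrow : ∀ x b, (pl x).1 < cnt ee (x ++ [b]) →
      sta r e ν ee (g (pl x).1 (pl x).2) = ((pl x).1, (pl x).2.length) →
      ∃ η' : Str, pl (x ++ [b]) = ((pl x).1 + 1, η') ∧
        g (pl x).1 ((pl x).2 ++ (x ++ [b])) <+: g ((pl x).1 + 1) η' ∧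
        sta r e ν ee (g ((pl x).1 + 1) η') = ((pl x).1 + 1, η'.length) ∧
        hst r (g ((pl x).1 + 1) η') (ν ((pl x).1 + 1)) = true ∧
        ∀ y : Str, g (pl x).1 ((pl x).2 ++ (x ++ [b])) <+: y → y <+: g ((pl x).1 + 1) η' →
          (sta r e ν ee y = ((pl x).1, (pl x).2.length) ∨
            sta r e ν ee y = ((pl x).1 + 1, η'.length)) := by
    intro x b h1 h2
    refine ⟨(key (pl x).1 (pl x).2 (x ++ [b]) ⟨h1, h2⟩).choose, ?_,
      (key (pl x).1 (pl x).2 (x ++ [b]) ⟨h1, h2⟩).choose_spec⟩
    rw [hpl1, dif_pos ⟨h1, h2⟩]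
  -- the invariant
  have inv : ∀ x : Str, (pl x).1 ≤ cnt ee x ∧
      sta r e ν ee (g (pl x).1 (pl x).2) = ((pl x).1, (pl x).2.length) ∧
      (∀ q, 1 ≤ q → q ≤ (pl x).1 → hst r (g (pl x).1 ((pl x).2 ++ x)) (ν q) = true) ∧
      (∀ y : Str, y <+: g (pl x).1 ((pl x).2 ++ x) → out r e ν ee y <+: x) := by
    intro x
    induction x using List.reverseRecOn with
    | nil =>
      rw [hpl0]
      have hst0 : ∀ y : Str, y <+: g 0 [] → sta r e ν ee y = (0, 0) := fun y hy =>
        M1' 0 (Nat.zero_le _) [] [] 0 List.nil_prefix d3a y List.nil_prefix hy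
      refine ⟨Nat.zero_le _, hst0 _ (List.prefix_refl _), fun q h1 h2 => ?_, fun y hy => ?_⟩
      · exact absurd (h1.trans h2) (by simp)
      · have h3 : dec (e 0) y <+: ([] : Str) ++ [] := by
          have h4 := d1c (e 0) y _ hy
          rw [List.append_nil] at h4
          have h5 := (hch.tr 0 (Nat.zero_le _)).dec []
          rw [h5] at h4
          simpa using h4
        have h6 : sta r e ν ee y = (0, ([] : Str).length) := hst0 y (by simpa using hy)
        exact M3_out h6 h3
    | append_singleton x b ih =>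
      obtain ⟨i1, i2, i3, i4⟩ := ih
      have hqm : (pl x).1 ≤ m := i1.trans ((d2b ee x).trans hee)
      have hmono0 : g (pl x).1 ((pl x).2 ++ x) <+: g (pl x).1 ((pl x).2 ++ (x ++ [b])) := by
        rw [← List.append_assoc]
        exact B11 _ hqm _ _
      -- soundness below v
      have soundV : ∀ y : Str, y <+: g (pl x).1 ((pl x).2 ++ (x ++ [b])) →
          out r e ν ee y <+: x ++ [b] := by
        intro y hy
        rcases List.prefix_or_prefix_of_prefix hy hmono0 with h | h
        · exact (i4 y h).trans (List.prefix_append _ _)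
        · have h1 : g (pl x).1 (pl x).2 <+: y := (B11 _ hqm _ _).trans h
          have h2 := M1' (pl x).1 hqm _ _ _ (B11 _ hqm (pl x).2 (x ++ [b])) i2 y h1 hy
          have h3 : dec (e (pl x).1) y <+: (pl x).2 ++ (x ++ [b]) := by
            have h4 := d1c (e (pl x).1) y _ hy
            rwa [(hch.tr _ hqm).dec] at h4
          exact M3_out h2 h3
      rcases lt_or_ge (pl x).1 (cnt ee (x ++ [b])) with hc | hc
      · obtain ⟨η', hp, ha, hb, hcc, hd⟩ := hgrow x b hc i2
        have hq1 : (pl x).1 + 1 ≤ m := hlt _ _ hc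
        rw [hp]
        have huw : g ((pl x).1 + 1) η' <+: g ((pl x).1 + 1) (η' ++ (x ++ [b])) := B11 _ hq1 _ _
        refine ⟨hc, hb, ?_, ?_⟩
        · intro q h1 h2
          rcases Nat.lt_or_ge (pl x).1 q with h3 | h3
          · have h4 : q = (pl x).1 + 1 := le_antisymm h2 h3
            rw [h4]
            exact n2b r _ _ _ huw hcc
          · exact n2b r _ _ _ ((hmono0.trans ha).trans huw) (i3 q h1 h3)
        · intro y hy
          change y <+: g ((pl x).1 + 1) (η' ++ (x ++ [b])) at hy
          rcases List.prefix_or_prefix_of_prefix hy huw with h | h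
          · rcases List.prefix_or_prefix_of_prefix h ha with h' | h'
            · exact soundV y h'
            · rcases hd y h' h with h5 | h5
              · -- out = []
                have h6 : (pl x).2 ++ (x ++ [b]) <+: dec (e (pl x).1) y := by
                  have h7 := d1c (e (pl x).1) _ y h'
                  rwa [(hch.tr _ hqm).dec] at h7
                have h8 : x ++ [b] <+: (dec (e (pl x).1) y).drop (pl x).2.length := by
                  have h9 := h6.drop (pl x).2.length
                  rwa [List.drop_left] at h9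
                have h10 := d2a ee _ _ h8
                unfold out
                rw [h5, if_neg]
                · exact List.nil_prefix
                · show ¬ cnt ee ((dec (e (pl x).1) y).drop (pl x).2.length) ≤ (pl x).1
                  omega
              · have h6 : dec (e ((pl x).1 + 1)) y <+: η' ++ (x ++ [b]) := by
                  have h7 := d1c (e ((pl x).1 + 1)) y _ hy
                  rwa [(hch.tr _ hq1).dec] at h7
                exact M3_out h5 h6
          · have h5 := M1' ((pl x).1 + 1) hq1 _ _ _ huw hb y h hy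
            have h6 : dec (e ((pl x).1 + 1)) y <+: η' ++ (x ++ [b]) := by
              have h7 := d1c (e ((pl x).1 + 1)) y _ hy
              rwa [(hch.tr _ hq1).dec] at h7
            exact M3_out h5 h6
      · rw [hstay x b hc]
        refine ⟨i1.trans (d2a ee _ _ (List.prefix_append _ _)), i2, fun q h1 h2 => ?_, soundV⟩
        exact n2b r _ _ _ hmono0 (i3 q h1 h2)
  have hqm : ∀ x, (pl x).1 ≤ m := fun x => (inv x).1.trans ((d2b ee x).trans hee)
  refine ⟨pl, ⟨fun x => (inv x).1, fun x b h => ?_, hstay, fun x => (inv x).2.1, fun x b => ?_,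
    fun x => (inv x).2.2.1, fun x => (inv x).2.2.2⟩⟩
  · obtain ⟨η', hp, _⟩ := hgrow x b h (inv x).2.1
    rw [hp]
  · have hmono0 : g (pl x).1 ((pl x).2 ++ x) <+: g (pl x).1 ((pl x).2 ++ (x ++ [b])) := by
      rw [← List.append_assoc]
      exact B11 _ (hqm x) _ _
    rcases lt_or_ge (pl x).1 (cnt ee (x ++ [b])) with hc | hc
    · obtain ⟨η', hp, ha, hb, hcc, hd⟩ := hgrow x b hc (inv x).2.1
      rw [hp]
      exact (hmono0.trans ha).trans (B11 _ (hlt _ _ hc) _ _)
    · rw [hstay x b hc]
      exact hmono0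

end Pool.Agent.H639.LU
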