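import Pool.Agent.H639.LU.Stubs

set_option autoImplicit false

namespace Pool.Agent.H639.LU

open Nat.Partrec (Code)
open Nat.Partrec.Code (evaln)
open Encodable
open Pool.Agent.Helper446.Defs Pool.Agent.Helper446.Oracle

private theorem M4_len (X : ℕ → Bool) (t : ℕ) : (seg X t).length = t := by
  simp [seg]

private theorem M4_succ (X : ℕ → Bool) (t : ℕ) : seg X (t + 1) = seg X t ++ [X t] := by
  simp [seg, List.range_succ]

private theorem M4_getD (X : ℕ → Bool) (t n : ℕ) (h : n < t) : (seg X t).getD n false = X n := by
  simp [seg, List.getD_eq_getElem?_getD, h]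

private theorem M4_pre (X : ℕ → Bool) (s t : ℕ) (h : s ≤ t) : seg X s <+: seg X t := by
  induction h with
  | refl => exact List.prefix_refl _
  | step _ ih => rw [M4_succ]; exact ih.trans (List.prefix_append _ _)

private theorem M4_of_pre (X : ℕ → Bool) (y : Str) (t : ℕ) (h : y <+: seg X t) :
    y = seg X y.length := by
  have h1 : y.length ≤ t := by
    have := h.length_le
    rwa [M4_len] at this
  have h2 : seg X y.length <+: seg X t := M4_pre X _ _ h1
  have h3 : y <+: seg X y.length :=
    List.prefix_of_prefix_length_le h h2 (by rw [M4_len])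
  exact h3.eq_of_length (by rw [M4_len])

private theorem M4_app (η : Str) (X : ℕ → Bool) (t : ℕ) :
    seg (fun n => if n < η.length then η.getD n false else X (n - η.length)) (η.length + t) =
      η ++ seg X t := by
  apply List.ext_getElem
  · simp [seg]
  · intro i h1 h2
    simp only [seg, List.getElem_map, List.getElem_range]
    by_cases hi : i < η.length
    · rw [if_pos hi, List.getElem_append_left hi, List.getD_eq_getElem?_getD,
        List.getElem?_eq_getElem hi]
      rfl
    · rw [if_neg hi, List.getElem_append_right (by omega)]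
      simp

theorem M4 : P_M4 := by
  intro hN1 hB1 hD1 hD2 hD3 hN2 hM1 r m e g ν ee pl hC hm hP
  have D2 := hD2 hN1 hN2
  obtain ⟨d2a, d2b, d2c, d2d, d2e⟩ := D2
  obtain ⟨n2a, n2b, n2c, n2d⟩ := hN2 hN1
  have hlev : ∀ x, (pl x).1 ≤ m := fun x => (hP.lev x).trans ((d2b ee x).trans hm)
  have hlen : ∀ x : Str, x.length ≤ (g (pl x).1 ((pl x).2 ++ x)).length := by
    intro x
    have h1 := (hC.tr (pl x).1 (hlev x)).dec ((pl x).2 ++ x)
    have h2 := hD1.2.2.2 (e (pl x).1) (g (pl x).1 ((pl x).2 ++ x))
    rw [h1] at h2
    rw [List.length_append] at h2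
    omega
  refine ⟨hP.mono, hlen, ?_⟩
  intro X Y hY0
  have hY : ∀ t, seg Y (g (pl (seg X t)).1 ((pl (seg X t)).2 ++ seg X t)).length =
      g (pl (seg X t)).1 ((pl (seg X t)).2 ++ seg X t) := hY0
  -- the levels
  obtain ⟨t1, ht1⟩ := d2d ee X
  have hle : ∀ t, (pl (seg X t)).1 ≤ cntP (J X) ee := fun t => (hP.lev _).trans (d2c ee X t)
  have hgrow : ∀ d, min (cntP (J X) ee) ((pl (seg X t1)).1 + d) ≤ (pl (seg X (t1 + d))).1 := by
    intro d
    induction d with
    | zero => simp
    | succ d ih =>
      have hc : cnt ee (seg X (t1 + d) ++ [X (t1 + d)]) = cntP (J X) ee := by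
        rw [← M4_succ]
        exact ht1 _ (by omega)
      have e1 : seg X (t1 + (d + 1)) = seg X (t1 + d) ++ [X (t1 + d)] := by
        rw [← M4_succ]
        rfl
      by_cases hlt : (pl (seg X (t1 + d))).1 < cntP (J X) ee
      · have := hP.grow (seg X (t1 + d)) (X (t1 + d)) (by rw [hc]; exact hlt)
        rw [e1, this]
        omega
      · have := hP.stay (seg X (t1 + d)) (X (t1 + d)) (by rw [hc]; omega)
        rw [e1, this]
        omega
  obtain ⟨t2, ht2, hl2⟩ : ∃ t2 ≥ t1, (pl (seg X t2)).1 = cntP (J X) ee := by
    refine ⟨t1 + cntP (J X) ee, by omega, ?_⟩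
    have h1 := hgrow (cntP (J X) ee)
    have h2 := hle (t1 + cntP (J X) ee)
    omega
  have hconst : ∀ d, pl (seg X (t2 + d)) = pl (seg X t2) := by
    intro d
    induction d with
    | zero => rfl
    | succ d ih =>
      have hc : cnt ee (seg X (t2 + d) ++ [X (t2 + d)]) = cntP (J X) ee := by
        rw [← M4_succ]
        exact ht1 _ (by omega)
      have e1 : seg X (t2 + (d + 1)) = seg X (t2 + d) ++ [X (t2 + d)] := by
        rw [← M4_succ]
        rfl
      have := hP.stay (seg X (t2 + d)) (X (t2 + d)) (by rw [hc, ih, hl2])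
      rw [e1, this, ih]
  set c := cntP (J X) ee with hcdef
  set η := (pl (seg X t2)).2 with hη
  have hpl : ∀ t ≥ t2, pl (seg X t) = (c, η) := by
    intro t ht
    obtain ⟨d, rfl⟩ := Nat.exists_eq_add_of_le ht
    rw [hconst d]
    exact Prod.ext hl2 rfl
  have hcm : c ≤ m := by
    rw [← hl2]
    exact hlev _
  have hYt : ∀ t ≥ t2, seg Y (g c (η ++ seg X t)).length = g c (η ++ seg X t) := by
    intro t ht
    have h1 := hY t
    simp only [hpl t ht] at h1
    exact h1
  have hlt : ∀ t ≥ t2, t ≤ (g c (η ++ seg X t)).length := by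
    intro t ht
    have h1 := hlen (seg X t)
    simp only [hpl t ht] at h1
    rwa [M4_len] at h1
  have htr := hC.tr c hcm
  have hB := hB1 hD1 (e c) (g c) htr
  refine ⟨?_, ?_, ?_⟩
  · intro t
    have h1 := hY t
    have h2 : seg Y t <+: g (pl (seg X t)).1 ((pl (seg X t)).2 ++ seg X t) := by
      rw [← h1]
      refine M4_pre Y _ _ ?_
      have h3 := hlen (seg X t)
      rwa [M4_len] at h3
    have h4 := hP.sound (seg X t) (seg Y t) h2
    exact ⟨_, M4_of_pre X _ _ h4⟩
  · intro n
    let t := max t2 (n + 1)
    have ht : t2 ≤ t := le_max_left _ _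
    have htn : n + 1 ≤ t := le_max_right _ _
    refine ⟨(g c (η ++ seg X t)).length, ?_⟩
    rw [hYt t ht]
    have hst0 : sta r e ν ee (g c η) = (c, η.length) := by
      have h1 := hP.state (seg X t)
      simp only [hpl t ht] at h1
      exact h1
    have hst1 : sta r e ν ee (g c (η ++ seg X t)) = (c, η.length) :=
      hM1 hN1 hB1 hD1 hD2 hD3 hN2 r m e g ν ee hC hm c hcm (g c η) (η ++ seg X t) η.length
        (hB.1 η (seg X t)) hst0 (g c (η ++ seg X t)) (hB.1 η (seg X t)) (List.prefix_refl _)
    have hdec := htr.dec (η ++ seg X t)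
    have hout : out r e ν ee (g c (η ++ seg X t)) = seg X t := by
      unfold out
      rw [hst1]
      simp only []
      rw [hdec, List.drop_left, if_pos]
      rw [ht1 t (by omega)]
    rw [hout, M4_len]
    omega
  · intro q hq1 hqm
    constructor
    · intro hW
      by_contra hcon
      have hcq : c < q := by omega
      -- `Y` is a branch of `g c`
      have hbr : Y ∈ Rng (g c) := by
        refine ⟨fun n => if n < η.length then η.getD n false else X (n - η.length), ?_⟩
        funext n
        let t := max t2 (n + 1)
        have ht : t2 ≤ t := le_max_left _ _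
        have htn : n + 1 ≤ t := le_max_right _ _
        have h1 := (hB.2.1 (fun n => if n < η.length then η.getD n false else X (n - η.length))
          (η.length + t)).2
        rw [M4_app] at h1
        have h2 := hYt t ht
        have h3 := hlt t ht
        have h4 : n < (g c (η ++ seg X t)).length := by omega
        have h5 : (seg Y (g c (η ++ seg X t)).length).getD n false =
            (seg (br (g c) (fun n => if n < η.length then η.getD n false else X (n - η.length)))
              (g c (η ++ seg X t)).length).getD n false := by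
          rw [h2, h1]
        rw [M4_getD _ _ n h4, M4_getD _ _ n h4] at h5
        exact h5.symm
      have hall : ∀ d, c + d ≤ q - 1 → Y ∈ Rng (g (c + d)) := by
        intro d
        induction d with
        | zero => intro _; exact hbr
        | succ d ih =>
          intro hd
          have h1 := ih (by omega)
          exact (hC.sub (c + d) (by omega) h1).1
      have h5 : Y ∈ Rng (g (q - 1)) := by
        have := hall (q - 1 - c) (by omega)
        rwa [show c + (q - 1 - c) = q - 1 by omega] at this
      have h6 := (hC.sub (q - 1) (by omega) h5).2.1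
      rw [show q - 1 + 1 = q by omega] at h6
      exact h6 hW
    · intro hqc
      have h1 := hP.enum (seg X t2) q hq1 (by rw [hl2]; exact hqc)
      rw [← hY t2] at h1
      exact (n2a r Y (ν q)).2 ⟨_, h1⟩

end Pool.Agent.H639.LU
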