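import Pool.Agent.H639.LU.Stubs

namespace Pool.Agent.H639.LU

open Nat.Partrec (Code)
open Nat.Partrec.Code (evaln)
open Encodable
open Pool.Agent.Helper446.Defs Pool.Agent.Helper446.Oracle

theorem N1_len (X : ℕ → Bool) (t : ℕ) : (seg X t).length = t := by
  simp [seg]

theorem N1_take (X : ℕ → Bool) {s t : ℕ} (h : s ≤ t) : (seg X t).take s = seg X s := by
  unfold seg
  rw [← List.map_take, List.take_range, Nat.min_eq_left h]

theorem N1_isSome (c : Code) (x : Str) (n : ℕ) :
    (nxtv c x n).isSome = true ↔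
      ∃ s ≤ x.length, ∃ v, evaln x.length c (encode (n, x.take s)) = some v := by
  unfold nxtv
  rw [List.isSome_head?, Ne, ← List.length_eq_zero_iff] <;> try skip
  constructor
  · intro h
    have h1 : 0 < ((List.range (x.length + 1)).filterMap
        (fun s => evaln x.length c (encode (n, x.take s)))).length := Nat.pos_of_ne_zero h
    obtain ⟨v, hv⟩ := List.exists_mem_of_length_pos h1
    rw [List.mem_filterMap] at hv
    obtain ⟨s, hs, hv⟩ := hv
    exact ⟨s, Nat.lt_succ_iff.mp (List.mem_range.mp hs), v, hv⟩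
  · rintro ⟨s, hs, v, hv⟩ h
    have : v ∈ ((List.range (x.length + 1)).filterMap
        (fun s => evaln x.length c (encode (n, x.take s)))) := by
      rw [List.mem_filterMap]
      exact ⟨s, List.mem_range.mpr (Nat.lt_succ_iff.mpr hs), hv⟩
    rw [List.length_eq_zero_iff] at h
    rw [h] at this
    simp at this

theorem N1 : P_N1 := by
  refine ⟨?_, ?_, ?_⟩
  · intro c x x' n hx h
    rw [N1_isSome] at h ⊢
    obtain ⟨s, hs, v, hv⟩ := h
    refine ⟨s, hs.trans hx.length_le, v, ?_⟩
    obtain ⟨y, rfl⟩ := hx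
    rw [List.take_append_of_le_length hs]
    exact Nat.Partrec.Code.evaln_mono (List.length_append ▸ Nat.le_add_right _ _) hv
  · intro c X n t v h
    unfold nxtv at h
    have h1 := List.mem_of_head? h
    rw [List.mem_filterMap] at h1
    obtain ⟨s, hs, hv⟩ := h1
    rw [N1_len] at hs hv
    have hs' : s ≤ t := Nat.lt_succ_iff.mp (List.mem_range.mp hs)
    rw [N1_take X hs'] at hv
    exact ⟨s, hs', Nat.Partrec.Code.evaln_sound hv⟩
  · intro c X n s h
    obtain ⟨v, hv⟩ := Part.dom_iff_mem.mp h
    obtain ⟨k, hk⟩ := Nat.Partrec.Code.evaln_complete.mp hv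
    refine ⟨max k s, ?_⟩
    rw [N1_isSome, N1_len]
    refine ⟨s, le_max_right _ _, v, ?_⟩
    rw [N1_take X (le_max_right _ _)]
    exact Nat.Partrec.Code.evaln_mono (le_max_left _ _) hk

end Pool.Agent.H639.LU
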