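import Pool.Agent.H639.LU.Stubs

set_option autoImplicit false

/-! Task N2. -/

namespace Pool.Agent.H639.LU

open Nat.Partrec (Code)
open Encodable
open Pool.Agent.Helper446.Defs

theorem N2 : P_N2 := by
  intro h
  obtain ⟨h1, h2, h3⟩ := h
  have e1 : ∀ (r : Code) (X : ℕ → Bool) (n : ℕ), W r X n ↔ ∃ t, hst r (seg X t) n = true := by
    intro r X n
    constructor
    · rintro ⟨s, hs⟩
      exact h3 r X n s hs
    · rintro ⟨t, ht⟩
      obtain ⟨v, hv⟩ := Option.isSome_iff_exists.1 ht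
      obtain ⟨s, -, hs⟩ := h2 r X n t v hv
      exact ⟨s, Part.dom_iff_mem.2 ⟨v, hs⟩⟩
  have e2 : ∀ (r : Code) (x x' : Str) (n : ℕ), x <+: x' → hst r x n = true →
      hst r x' n = true := fun r x x' n hx hh => h1 r x x' n hx hh
  exact ⟨e1, e2, fun X p => e1 _ X _, fun x x' p hx hh => e2 _ x x' _ hx hh⟩

end Pool.Agent.H639.LU
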