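import Pool.Agent.H639.LU.Stubs

set_option autoImplicit false

/-! Task R1: the cardinality lemma for c.e. sets. -/

namespace Pool.Agent.H639.LU

open Nat.Partrec (Code)
open Pool.Agent.Helper446.Defs Pool.Agent.Helper446.Oracle

theorem R1_cnt (A : ℕ → Prop) (aa bb : List ℕ) (ha : ∀ a ∈ aa, A a) (hb : ∀ b ∈ bb, ¬ A b) :
    cntP A (aa ++ bb) = aa.length := by
  classical
  unfold cntP
  rw [List.filter_append, List.length_append]
  have h1 : aa.filter (fun p => decide (A p)) = aa :=
    List.filter_eq_self.2 fun a h => decide_eq_true (ha a h)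
  have h2 : bb.filter (fun p => decide (A p)) = [] :=
    List.filter_eq_nil_iff.2 fun b h => by simpa using hb b h
  rw [h1, h2]
  simp

theorem R1 : P_R1 := by
  intro Z A hA E hE m h1 h2
  have key : ∀ m' : ℕ, (∃ bb : List ℕ, bb.length + m' = m ∧ (∀ b ∈ bb, ¬ A b) ∧
      ∀ aa : List ℕ, aa.length = m' → (∀ a ∈ aa, A a) → ∃ v ≤ m', ¬ E (aa ++ bb) v) →
      REIn Z (fun n => ¬ A n) := by
    intro m'
    induction m' with
    | zero =>
      rintro ⟨bb, hl, hb, h⟩
      obtain ⟨v, hv, hv'⟩ := h [] rfl (by simp)
      exfalso
      have hv0 : v = 0 := by omega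
      subst hv0
      have := h1 bb (by omega)
      have hc := R1_cnt A [] bb (by simp) hb
      rw [List.nil_append] at hc hv'
      rw [hc] at this
      exact hv' this
    | succ m' ih =>
      rintro ⟨bb, hl, hb, h⟩
      by_cases hall : ∀ b, ¬ A b → ∃ aa : List ℕ, aa.length = m' ∧ (∀ a ∈ aa, A a) ∧
          ∀ v < m' + 1, E (aa ++ b :: bb) v
      · have hC : REIn Z (fun b : ℕ => ∃ aa : List ℕ, aa.length = m' ∧ (∀ a ∈ aa, A a) ∧
            ∀ v < m' + 1, E (aa ++ b :: bb) v) := by
          refine REIn.ex (S := fun (b : ℕ) (aa : List ℕ) => aa.length = m' ∧ (∀ a ∈ aa, A a) ∧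
            ∀ v < m' + 1, E (aa ++ b :: bb) v) ?_
          refine REIn.and ?_ (REIn.and ?_ ?_)
          · exact REIn.of_re (Pool.Agent.Helper446.RE.eq
              (Computable.list_length.comp Computable.snd) (Computable.const m'))
          · refine REIn.all_mem (S := fun (x : ℕ × List ℕ) (a : ℕ) => A a) ?_ Computable.snd
            exact REIn.comp hA Computable.snd
          · refine REIn.all_lt (S := fun (x : ℕ × List ℕ) (v : ℕ) => E (x.2 ++ x.1 :: bb) v) ?_
              (Computable.const (m' + 1))
            refine REIn.comp (f := fun y : (ℕ × List ℕ) × ℕ => (y.1.2 ++ y.1.1 :: bb, y.2)) hE ?_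
            refine Computable.pair ?_ Computable.snd
            refine Computable.list_append.comp (Computable.snd.comp Computable.fst) ?_
            exact Computable.list_cons.comp (Computable.fst.comp Computable.fst)
              (Computable.const bb)
        refine hC.of_eq fun b => ⟨?_, hall b⟩
        rintro ⟨aa, hla, haa, hE'⟩ hAb
        have hlist : (aa ++ [b]) ++ bb = aa ++ b :: bb := by simp
        have hall' : ∀ a ∈ aa ++ [b], A a := by
          intro a ha
          rcases List.mem_append.1 ha with h' | h'
          · exact haa a h'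
          · rw [List.mem_singleton.1 h']; exact hAb
        obtain ⟨v, hv, hv'⟩ := h (aa ++ [b]) (by simp [hla]) hall'
        rw [hlist] at hv'
        have hc := R1_cnt A (aa ++ [b]) bb hall' hb
        rw [hlist] at hc
        have hEc := h1 (aa ++ b :: bb) (by simp [hla]; omega)
        rw [hc] at hEc
        rcases Nat.lt_or_ge v (m' + 1) with hv1 | hv1
        · exact hv' (hE' v hv1)
        · have hve : v = (aa ++ [b]).length := by simp [hla]; omega
          rw [hve] at hv'
          exact hv' hEc
      · push Not at hall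
        obtain ⟨b0, hb0, hno⟩ := hall
        refine ih ⟨b0 :: bb, by simp only [List.length_cons]; omega, ?_, ?_⟩
        · intro b hb'
          rcases List.mem_cons.1 hb' with h' | h'
          · rw [h']; exact hb0
          · exact hb b h'
        · intro aa hla haa
          obtain ⟨v, hv, hv'⟩ := hno aa hla haa
          exact ⟨v, by omega, hv'⟩
  refine key m ⟨[], by simp, by simp, fun aa hla _ => ?_⟩
  rw [List.append_nil]
  exact h2 aa hla

end Pool.Agent.H639.LU
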