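import Pool.Agent.H639.LU.Stubs

namespace Pool.Agent.H639.LU

open Nat.Partrec (Code)
open Nat.Partrec.Code (evaln)
open Encodable
open Pool.Agent.Helper446 Pool.Agent.Helper446.Defs Pool.Agent.Helper446.Oracle Pool.Agent.Helper446.RE

theorem R2 : P_R2 := by
  intro h2 h1 h6 Z m ν Lr hν hLr
  have hval := h6 h2 h1 Z
  refine REIn.ex (S := fun (p : List ℕ × ℕ) (l : Code) => Lr p.1 l ∧
    ∀ q < m, Val l Z (ν (q + 1)) (if q + 1 ≤ p.2 then 1 else 0)) ?_
  refine REIn.and (hLr.comp (f := fun x : (List ℕ × ℕ) × Code => (x.1.1, x.2)) (by fun_prop)) ?_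
  refine REIn.all_lt (S := fun (x : (List ℕ × ℕ) × Code) (q : ℕ) =>
    Val x.2 Z (ν (q + 1)) (if q + 1 ≤ x.1.2 then 1 else 0)) ?_ (Computable.const m)
  refine hval.comp (f := fun y : ((List ℕ × ℕ) × Code) × ℕ =>
    (y.1.2, ν (y.2 + 1), if y.2 + 1 ≤ y.1.1.2 then 1 else 0)) ?_
  have a1 : Computable (fun y : ((List ℕ × ℕ) × Code) × ℕ => y.2 + 1) := by fun_prop
  have a2 : Computable (fun y : ((List ℕ × ℕ) × Code) × ℕ => y.1.1.2) := by fun_prop
  have a3 : Computable (fun y : ((List ℕ × ℕ) × Code) × ℕ => ν (y.2 + 1)) := hν.comp a1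
  have a4 : Computable (fun y : ((List ℕ × ℕ) × Code) × ℕ =>
      if y.2 + 1 ≤ y.1.1.2 then (1 : ℕ) else 0) :=
    cite (cp_le a1 a2) (Computable.const 1) (Computable.const 0)
  have a5 : Computable (fun y : ((List ℕ × ℕ) × Code) × ℕ => y.1.2) := by fun_prop
  exact a5.pair (a3.pair a4)

end Pool.Agent.H639.LU
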