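import Pool.Agent.H639.LU.Stubs

namespace Pool.Agent.H639.LU

open Nat.Partrec (Code)
open Nat.Partrec.Code (evaln)
open Encodable
open Pool.Agent.Helper446.Defs Pool.Agent.Helper446.Oracle

theorem R3 : P_R3 := by
  intro hN1 hV1 Z m ν Lr ee L hL hsub
  by_contra hcon
  push Not at hcon
  have hV := (hV1 hN1).1
  choose! l hl using hcon
  have hinj : Set.InjOn l (Finset.range (m + 1) : Set ℕ) := by
    have key : ∀ v v' : ℕ, v < v' → v' ≤ m → l v ≠ l v' := by
      intro v v' hlt hv' heq
      have h1 := (hl v (by omega)).2 (v' - 1) (by omega)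
      have h2 := (hl v' hv').2 (v' - 1) (by omega)
      rw [← heq] at h2
      have e : v' - 1 + 1 = v' := by omega
      rw [e] at h1 h2
      rw [if_neg (by omega)] at h1
      rw [if_pos le_rfl] at h2
      exact absurd (hV _ _ _ _ _ h1 h2) (by norm_num)
    intro a ha b hb hab
    simp only [Finset.coe_range, Set.mem_Iio] at ha hb
    rcases lt_trichotomy a b with h | h | h
    · exact absurd hab (key a b h (by omega))
    · exact h
    · exact absurd hab.symm (key b a h (by omega))
  have hcard : (Finset.range (m + 1)).card ≤ L.card := by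
    refine Finset.card_le_card_of_injOn l ?_ hinj
    intro v hv
    simp only [Finset.coe_range, Set.mem_Iio] at hv
    exact hsub _ (hl v (by omega)).1
  rw [Finset.card_range] at hcard
  omega

end Pool.Agent.H639.LU
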