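import Pool.Agent.H639.LU.Stubs

/-!
Task S1: the dichotomy.
-/

namespace Pool.Agent.H639.LU

open Nat.Partrec (Code)
open Nat.Partrec.Code (evaln)
open Encodable
open Pool.Agent.Helper446 Pool.Agent.Helper446.Defs Pool.Agent.Helper446.Oracle

private theorem S1_len (X : ℕ → Bool) (t : ℕ) : (seg X t).length = t := by simp [seg]

open Classical in
/-- the code of all the oracles -/
private noncomputable def S1_z (r : Code) (z₀ : ℕ → Bool) (F : Set (ℕ → Bool))
    (zn : ℕ → ℕ → Bool) (p : ℕ) : Bool :=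
  match (decode p : Option (ℕ × ℕ × ℕ × Str)) with
  | none => false
  | some (0, n, k, _) => zn n k
  | some (1, n, _, s) => decide (∀ Z ∈ F, seg Z s.length = s → ¬ W r Z n)
  | some (_, _, k, _) => z₀ k

theorem S1 : P_S1 := by
  intro hK2 hK4 hK5 r z₀ hz0 F hF
  by_contra hcon
  have h1 : ∀ n, ∃ z : ℕ → Bool, ∀ X ∈ Bd r F n, ¬ le z X := by
    intro n
    by_contra h
    apply hcon
    refine ⟨n, fun z => ?_⟩
    by_contra h'
    apply h
    refine ⟨z, fun X hX hle => h' ⟨X, hX, hle⟩⟩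
  choose zn hzn using h1
  obtain ⟨X, hXF, hzX⟩ := hF (S1_z r z₀ F zn)
  obtain ⟨-, htr, -, hmo⟩ := hK4
  obtain ⟨hW, -, hpost, -⟩ := hK5 hK2
  -- the oracles are below `X`
  have hzn' : ∀ n, le (zn n) X := by
    intro n
    refine htr _ _ _ (hmo _ _ (fun k => encode ((0 : ℕ), n, k, ([] : Str))) (by fun_prop) ?_) hzX
    intro k
    simp [S1_z, encodek]
  have hz0' : le z₀ X := by
    refine htr _ _ _ (hmo _ _ (fun k => encode ((2 : ℕ), (0 : ℕ), k, ([] : Str))) (by fun_prop) ?_) hzX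
    intro k
    simp [S1_z, encodek]
  have hz1 : ∀ n (s : Str), S1_z r z₀ F zn (encode ((1 : ℕ), n, (0 : ℕ), s)) = true ↔
      ∀ Z ∈ F, seg Z s.length = s → ¬ W r Z n := by
    intro n s
    simp [S1_z, encodek]
  -- the complement of `W r X`
  have hkey : ∀ n, (∃ s : Str, s = seg X s.length ∧
      encode ((1 : ℕ), n, (0 : ℕ), s) ∈ St (S1_z r z₀ F zn)) ↔ ¬ W r X n := by
    intro n
    constructor
    · rintro ⟨s, hs, h⟩
      exact (hz1 n s).1 h X hXF hs.symm
    · intro h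
      by_contra hno
      apply hzn n X ⟨hXF, h, fun t => ?_⟩ (hzn' n)
      by_contra ht
      apply hno
      refine ⟨seg X t, by rw [S1_len], ?_⟩
      refine (hz1 n (seg X t)).2 (fun Z hZ hs hWZ => ht ⟨Z, hZ, ?_, hWZ⟩)
      rw [S1_len] at hs
      exact hs
  have hre : REIn (St X) (fun n => ¬ W r X n) := by
    refine REIn.of_eq ?_ hkey
    refine REIn.ex (S := fun n s => s = seg X s.length ∧
      encode ((1 : ℕ), n, (0 : ℕ), s) ∈ St (S1_z r z₀ F zn)) ?_
    refine REIn.and (S := fun x : ℕ × Str => x.2 = seg X x.2.length) ?_ ?_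
    · refine (hK2 (ℕ × Str) X _).2 ⟨fun a s => a.2 = s, RE.eq (by fun_prop) (by fun_prop), ?_⟩
      intro a
      constructor
      · intro h
        exact ⟨_, h⟩
      · rintro ⟨t, ht⟩
        rw [ht, S1_len]
    · exact ((turingReducible_iff.1 hzX).1).comp
        (f := fun x : ℕ × Str => encode ((1 : ℕ), x.1, (0 : ℕ), x.2)) (by fun_prop)
  exact hz0 X hz0' (hpost X _ (hW r X) hre)

end Pool.Agent.H639.LU
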