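import Pool.Agent.H639.LU.Stubs

/-! S2: the chain. -/

namespace Pool.Agent.H639.LU

open Nat.Partrec (Code)
open Nat.Partrec.Code (evaln)
open Encodable
open Pool.Agent.Helper446.Defs Pool.Agent.Helper446.Oracle

theorem S2_ite {α : Type} [Primcodable α] (m : ℕ) (f : ℕ → α) (hf : Computable f) (c : α) :
    Computable (fun q => if q ≤ m then f q else c) := by
  have h1 : Computable (fun q : ℕ => decide (q ≤ m)) := by
    have h2 : Primrec (fun q : ℕ => decide (q ≤ m)) :=
      Primrec.nat_le.decide.comp Primrec.id (Primrec.const m)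
    exact h2.to_comp
  have h3 : (fun q => if q ≤ m then f q else c) = fun q => cond (decide (q ≤ m)) (f q) c := by
    funext q
    by_cases h : q ≤ m <;> simp [h]
  rw [h3]
  exact Computable.cond h1 hf (Computable.const c)

theorem S2 : P_S2 := by
  intro hD1 hN1 hC1 hC2 hK2 hK3 hK4 hK5 hB1 hG1 hG2 hB2 hB3 hS1 r z₀ hr
  obtain ⟨B2a, B2b, B2c⟩ := hB2 hD1 hB1
  have emb : ∀ F : Set (ℕ → Bool), Clo F → Cof F → ∃ c G, Emb F c G := by
    intro F hcl hcof
    by_contra hno
    have hne : F.Nonempty := by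
      obtain ⟨X, hX, _⟩ := hcof (fun _ => false)
      exact ⟨X, hX⟩
    have h1 : ∀ c : Code, ∃ β : Str → Bool, ∀ x : ℕ → Str, x 0 = [] →
        ¬ ∀ n, Legal F c (x n) (x (n + 1)) (β (x n)) := by
      intro c
      rcases hG1 hD1 F c hne with ⟨G, hG⟩ | h
      · exact (hno ⟨c, G, hG⟩).elim
      · exact h
    choose β hβ using h1
    exact hG2 hN1 hC1 hC2 hD1 hK2 hK3 F β hβ hcof
  intro m
  induction m with
  | zero =>
    intro F hcl hcof
    obtain ⟨c, G, hG⟩ := emb F hcl hcof
    exact ⟨fun _ => c, fun _ => G, fun _ => 0,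
      ⟨Computable.const c, Computable.const 0, fun q _ => hG.toTr,
        fun q hq => absurd hq (Nat.not_lt_zero q)⟩, B2b F c G hG hcl⟩
  | succ m ih =>
    intro F hcl hcof
    obtain ⟨c, G, hG⟩ := emb F hcl hcof
    have hRcl : Clo (Rng G) := B2a c G hG.toTr
    have hRcof : Cof (Rng G) := hB3 hD1 hB1 hC2 hK2 c G hG.toTr
    obtain ⟨n, hn⟩ := hS1 hK2 hK4 hK5 r z₀ hr (Rng G) hRcof
    obtain ⟨e', g', ν', hch, hsub⟩ := ih (Bd r (Rng G) n) (B2c r (Rng G) n hRcl) hn
    refine ⟨fun q => if q ≤ m then e' q else c, fun q => if q ≤ m then g' q else G,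
      fun q => if q ≤ m then ν' q else n, ⟨S2_ite m e' hch.ce c, S2_ite m ν' hch.cν n, ?_, ?_⟩, ?_⟩
    · intro q hq
      by_cases h : q ≤ m
      · simp only [h, if_true]
        exact hch.tr q h
      · simp only [h, if_false]
        exact hG.toTr
    · intro q hq
      have hq1 : q ≤ m := by omega
      by_cases h : q + 1 ≤ m
      · simp only [hq1, h, if_true]
        exact hch.sub q (by omega)
      · have hqm : q = m := by omega
        subst hqm
        simp only [h, if_false, le_refl, if_true]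
        exact hsub
    · have h : ¬ (m + 1 ≤ m) := by omega
      simp only [h, if_false]
      exact B2b F c G hG hcl

end Pool.Agent.H639.LU
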