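import Pool.Agent.H639.LU.Stubs

namespace Pool.Agent.H639.LU

open Nat.Partrec (Code)
open Nat.Partrec.Code (evaln)
open Encodable
open Pool.Agent.Helper446.Defs Pool.Agent.Helper446.Oracle

theorem V1 : P_V1 := by
  intro hN1
  refine ⟨?_, ?_⟩
  · rintro c Z n v v' ⟨t, ht, hm⟩ ⟨t', ht', hm'⟩
    rcases lt_trichotomy t t' with h | h | h
    · rw [hm' t h] at ht; cases ht
    · subst h; rw [ht] at ht'; exact Option.some.inj ht'
    · rw [hm t' h] at ht'; cases ht'
  · intro c Z Y n hR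
    obtain ⟨s, hs⟩ := (hR n (Y n).toNat).mpr rfl
    obtain ⟨t, ht⟩ := hN1.2.2 c Z n s (Part.dom_iff_mem.mpr ⟨_, hs⟩)
    classical
    have hex : ∃ t, (nxtv c (seg Z t) n).isSome = true := ⟨t, ht⟩
    obtain ⟨v', hv'⟩ := Option.isSome_iff_exists.mp (Nat.find_spec hex)
    obtain ⟨s', _, hs'⟩ := hN1.2.1 c Z n _ v' hv'
    have := (hR n v').mp ⟨s', hs'⟩
    subst this
    refine ⟨Nat.find hex, hv', fun t' ht' => ?_⟩
    have := Nat.find_min hex ht'
    simpa using this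

end Pool.Agent.H639.LU
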