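import Pool.Agent.H639.LU.Final
import Pool.Agent.H639.LU.N1
import Pool.Agent.H639.LU.N2
import Pool.Agent.H639.LU.C1
import Pool.Agent.H639.LU.C2
import Pool.Agent.H639.LU.C3
import Pool.Agent.H639.LU.D1
import Pool.Agent.H639.LU.D2
import Pool.Agent.H639.LU.D3
import Pool.Agent.H639.LU.K1
import Pool.Agent.H639.LU.K2
import Pool.Agent.H639.LU.K3
import Pool.Agent.H639.LU.K4
import Pool.Agent.H639.LU.K5
import Pool.Agent.H639.LU.K6
import Pool.Agent.H639.LU.V1
import Pool.Agent.H639.LU.G1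
import Pool.Agent.H639.LU.G2
import Pool.Agent.H639.LU.B1
import Pool.Agent.H639.LU.B2
import Pool.Agent.H639.LU.B3
import Pool.Agent.H639.LU.S1
import Pool.Agent.H639.LU.S2
import Pool.Agent.H639.LU.M1
import Pool.Agent.H639.LU.M2
import Pool.Agent.H639.LU.M3
import Pool.Agent.H639.LU.M4
import Pool.Agent.H639.LU.I1
import Pool.Agent.H639.LU.I2
import Pool.Agent.H639.LU.R1
import Pool.Agent.H639.LU.R2
import Pool.Agent.H639.LU.R3
import Pool.Agent.H639.LU.L1

/-!
All statements are proved.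
-/

namespace Pool.Agent.H639.LU

theorem allP : AllP :=
  ⟨N1, N2, C1, C2, C3, D1, D2, D3, K1, K2, K3, K4, K5, K6, V1, G1, G2, B1, B2, B3, S1, S2,
    M1, M2, M3, M4, I1, I2, R1, R2, R3, L1⟩

theorem main : Main := main_of allP

end Pool.Agent.H639.LU
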