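import Pool.Agent.Helper446.Oracle

/-!
Definitions for the theorem on boundedly uniform solutions to Post's problem.
-/

namespace Pool.Agent.H639.LU

open Nat.Partrec (Code)
open Nat.Partrec.Code (evaln)
open Encodable
open Pool.Agent.Helper446.Defs Pool.Agent.Helper446.Oracle

/-- finite binary strings -/
abbrev Str := List Bool

/-- `n ∈ W_r^X`: the program `r` halts on `(n, σ)` for some finite initial segment `σ` of `X`. -/
def W (r : Code) (X : ℕ → Bool) (n : ℕ) : Prop := ∃ s : ℕ, (r.eval (encode (n, seg X s))).Dom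

/-- The jump `X'`. -/
def J (X : ℕ → Bool) (p : ℕ) : Prop :=
  W (Denumerable.ofNat Code p.unpair.1) X p.unpair.2

/-- The set coded by a point of Cantor space. -/
def St (X : ℕ → Bool) : Set ℕ := {n | X n = true}

/-- The characteristic function of a property of numbers. -/
noncomputable def ch (P : ℕ → Prop) : ℕ → Bool := by
  classical exact fun n => decide (P n)

/-- Turing reducibility `Y ≤_T X` (Mathlib's). -/
def le (Y X : ℕ → Bool) : Prop := TuringReducible (chi (St Y)) (chi (St X))

/-- The program `c` reduces `Y` to `X`: on the inputs `(n, σ)`, `σ` a finite initial segment of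
`X`, it outputs the value `Y n` for at least one `σ`, and never another value. -/
def Red (c : Code) (X Y : ℕ → Bool) : Prop :=
  ∀ n v : ℕ, (∃ s : ℕ, v ∈ c.eval (encode (n, seg X s))) ↔ v = (Y n).toNat

/-- bounded search for a halting computation of `c` on `(n, σ)`, `σ` an initial segment of `x` -/
def nxtv (c : Code) (x : Str) (n : ℕ) : Option ℕ :=
  ((List.range (x.length + 1)).filterMap
    (fun s => evaln x.length c (encode (n, x.take s)))).head?

/-- the Boolean version -/
def nxt (c : Code) (x : Str) (n : ℕ) : Option Bool := (nxtv c x n).map (fun v => v == 1)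

/-- the part of the sequence computed by `c` which is decided by the finite string `x` -/
def dec (c : Code) (x : Str) : Str :=
  Nat.rec [] (fun t d => d ++ (nxt c (x.take (t + 1)) d.length).toList) x.length

/-- decidable approximation to `W r X` -/
def hst (r : Code) (x : Str) (n : ℕ) : Bool := (nxtv r x n).isSome

/-- decidable approximation to the jump -/
def kst (x : Str) (p : ℕ) : Bool := hst (Denumerable.ofNat Code p.unpair.1) x p.unpair.2

/-- the number of elements of the list which are visibly in the jump -/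
def cnt (ee : List ℕ) (x : Str) : ℕ := (ee.filter (fun p => kst x p)).length

/-- the number of elements of the list which satisfy `A` -/
noncomputable def cntP (A : ℕ → Prop) (ee : List ℕ) : ℕ := by
  classical exact (ee.filter (fun p => decide (A p))).length

/-- closed sets -/
def Clo (F : Set (ℕ → Bool)) : Prop :=
  ∀ X : ℕ → Bool, (∀ t, ∃ X' ∈ F, seg X' t = seg X t) → X ∈ F

/-- sets with members of cofinally many degrees -/
def Cof (F : Set (ℕ → Bool)) : Prop := ∀ z : ℕ → Bool, ∃ X ∈ F, le z X

/-- a tree decoded by `c` -/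
structure Tr (c : Code) (G : Str → Str) : Prop where
  mono : ∀ η b, G η <+: G (η ++ [b])
  dec : ∀ η, dec c (G η) = η

/-- a tree in `F` decoded by `c` -/
structure Emb (F : Set (ℕ → Bool)) (c : Code) (G : Str → Str) : Prop extends Tr c G where
  mem : ∀ η, ∃ X ∈ F, seg X (G η).length = G η

/-- the branch of the tree `G` along `A` -/
def br (G : Str → Str) (A : ℕ → Bool) : ℕ → Bool := fun n => (G (seg A (n + 1))).getD n false

/-- the set of branches -/
def Rng (G : Str → Str) : Set (ℕ → Bool) := Set.range (br G)

/-- the boundary of `{X : n ∈ W_r^X}` in `F` -/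
def Bd (r : Code) (F : Set (ℕ → Bool)) (n : ℕ) : Set (ℕ → Bool) :=
  {X | X ∈ F ∧ ¬ W r X n ∧ ∀ t, ∃ Z ∈ F, seg Z t = seg X t ∧ W r Z n}

/-- the conditions on the trees `g 0, …, g m` -/
structure Chain (r : Code) (m : ℕ) (e : ℕ → Code) (g : ℕ → Str → Str) (ν : ℕ → ℕ) : Prop where
  ce : Computable e
  cν : Computable ν
  tr : ∀ q ≤ m, Tr (e q) (g q)
  sub : ∀ q < m, Rng (g q) ⊆ Bd r (Rng (g (q + 1))) (ν (q + 1))

/-- one step of the decoding machine, `s = (level, start of the coding)` -/
def stp (r : Code) (e : ℕ → Code) (ν : ℕ → ℕ) (ee : List ℕ) (x : Str) (s : ℕ × ℕ) : ℕ × ℕ :=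
  if s.1 + 1 ≤ cnt ee ((dec (e s.1) x).drop s.2) ∧ hst r x (ν (s.1 + 1)) = true then
    (s.1 + 1, (dec (e (s.1 + 1)) x).length + 1)
  else s

/-- the state of the decoding machine after reading `x` -/
def sta (r : Code) (e : ℕ → Code) (ν : ℕ → ℕ) (ee : List ℕ) (x : Str) : ℕ × ℕ :=
  Nat.rec (0, 0) (fun t s => stp r e ν ee (x.take (t + 1)) s) x.length

/-- the output of the decoding machine after reading `x` -/
def out (r : Code) (e : ℕ → Code) (ν : ℕ → ℕ) (ee : List ℕ) (x : Str) : Str :=
  if cnt ee ((dec (e (sta r e ν ee x).1) x).drop (sta r e ν ee x).2) ≤ (sta r e ν ee x).1 then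
    (dec (e (sta r e ν ee x).1) x).drop (sta r e ν ee x).2
  else []

/-- the value computed by `c` from `Z` which is found first -/
def Val (c : Code) (Z : ℕ → Bool) (n v : ℕ) : Prop :=
  ∃ t, nxtv c (seg Z t) n = some v ∧ ∀ t' < t, nxtv c (seg Z t') n = none

end Pool.Agent.H639.LU
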