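import Pool.Agent.H639.LU.Stubs

/-!
The assembly.
-/

namespace Pool.Agent.H639.LU

open Nat.Partrec (Code)
open Nat.Partrec.Code (evaln)
open Encodable
open Pool.Agent.Helper446.Defs Pool.Agent.Helper446.Oracle

/-- all tasks -/
structure AllP : Prop where
  N1 : P_N1
  N2 : P_N2
  C1 : P_C1
  C2 : P_C2
  C3 : P_C3
  D1 : P_D1
  D2 : P_D2
  D3 : P_D3
  K1 : P_K1
  K2 : P_K2
  K3 : P_K3
  K4 : P_K4
  K5 : P_K5
  K6 : P_K6
  V1 : P_V1
  G1 : P_G1
  G2 : P_G2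
  B1 : P_B1
  B2 : P_B2
  B3 : P_B3
  S1 : P_S1
  S2 : P_S2
  M1 : P_M1
  M2 : P_M2
  M3 : P_M3
  M4 : P_M4
  I1 : P_I1
  I2 : P_I2
  R1 : P_R1
  R2 : P_R2
  R3 : P_R3
  L1 : P_L1

theorem clo_univ : Clo (Set.univ : Set (ℕ → Bool)) := fun _ _ => Set.mem_univ _

theorem cof_univ (h : AllP) : Cof (Set.univ : Set (ℕ → Bool)) :=
  fun z => ⟨z, Set.mem_univ _, h.K4.2.2.1 z⟩

/-- the coding for one list -/
theorem coding (h : AllP) (r : Code) (m : ℕ) (e : ℕ → Code) (g : ℕ → Str → Str) (ν : ℕ → ℕ)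
    (hc : Chain r m e g ν) (ee : List ℕ) (hee : ee.length ≤ m) :
    ∃ Yap : Str → Str, Works r m e ν ee Yap := by
  obtain ⟨pl, hpl⟩ := h.M3 h.N1 h.B1 h.D1 h.D2 h.D3 h.N2 h.M1 h.M2 r m e g ν ee hc hee
  exact ⟨_, h.M4 h.N1 h.B1 h.D1 h.D2 h.D3 h.N2 h.M1 r m e g ν ee pl hc hee hpl⟩

theorem joinEven (A B : ℕ → Bool) : ∃ X : ℕ → Bool, (∀ n, X (2 * n) = A n) ∧
    ∀ n, X (2 * n + 1) = B n := by
  refine ⟨fun n => if n % 2 = 0 then A (n / 2) else B (n / 2), fun n => ?_, fun n => ?_⟩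
  · have h1 : (2 * n) % 2 = 0 := by omega
    have h2 : (2 * n) / 2 = n := by omega
    simp [h1, h2]
  · have h1 : ¬ (2 * n + 1) % 2 = 0 := by omega
    have h2 : (2 * n + 1) / 2 = n := by omega
    simp only [h1, if_false, h2]

/-- The coded lower part of the oracle. -/
noncomputable def mu (L : List ℕ → Finset Code) (z : List ℕ → ℕ → Bool) (z₀ : ℕ → Bool) :
    ℕ → Bool := by
  classical exact fun k =>
    match (decode k : Option (ℕ × List ℕ × Code × ℕ)) with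
    | some (t, ee, l, n) =>
      if t = 0 then decide (l ∈ L ee) else if t = 1 then z ee n else z₀ n
    | none => false

theorem mu_L (L : List ℕ → Finset Code) (z : List ℕ → ℕ → Bool) (z₀ : ℕ → Bool)
    (ee : List ℕ) (l : Code) :
    mu L z z₀ (encode ((0, ee, l, 0) : ℕ × List ℕ × Code × ℕ)) = true ↔ l ∈ L ee := by
  unfold mu
  simp [encodek]

theorem mu_z (L : List ℕ → Finset Code) (z : List ℕ → ℕ → Bool) (z₀ : ℕ → Bool)
    (ee : List ℕ) (n : ℕ) :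
    mu L z z₀ (encode ((1, ee, Code.zero, n) : ℕ × List ℕ × Code × ℕ)) = z ee n := by
  unfold mu
  simp [encodek]

theorem mu_z₀ (L : List ℕ → Finset Code) (z : List ℕ → ℕ → Bool) (z₀ : ℕ → Bool) (n : ℕ) :
    mu L z z₀ (encode ((2, [], Code.zero, n) : ℕ × List ℕ × Code × ℕ)) = z₀ n := by
  unfold mu
  simp [encodek]

theorem main_of (h : AllP) : Main := by
  classical
  intro r z₀ hr k
  by_contra hcon
  push Not at hcon
  -- for all i j a set L and a real z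
  obtain ⟨e, g, ν, hc, -⟩ := h.S2 h.D1 h.N1 h.C1 h.C2 h.K2 h.K3 h.K4 h.K5 h.B1 h.G1 h.G2 h.B2 h.B3
    h.S1 r z₀ (fun X hX => (hr X hX).1) k Set.univ clo_univ (cof_univ h)
  -- the approximations
  have h1 : ∀ ee : List ℕ, ∃ Yap : Str → Str, (∀ x b, Yap x <+: Yap (x ++ [b])) ∧
      (∀ x, x.length ≤ (Yap x).length) ∧ (ee.length ≤ k → Works r k e ν ee Yap) := by
    intro ee
    by_cases hee : ee.length ≤ k
    · obtain ⟨Yap, hY⟩ := coding h r k e g ν hc ee hee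
      exact ⟨Yap, hY.1, hY.2.1, fun _ => hY⟩
    · exact ⟨fun x => x, fun x b => List.prefix_append _ _, fun x => le_refl _,
        fun h => absurd h hee⟩
  choose Yp hY1 hY2 hY3 using h1
  obtain ⟨ζ, hζ⟩ := h.I1 h.K1 Yp hY1 hY2
  choose i hi using hζ
  have h2 : ∀ ee : List ℕ, ∃ j : Code, ∀ X Y : ℕ → Bool,
      (∀ t, ∃ k, out r e ν ee (seg Y t) = seg X k) →
      (∀ n, ∃ t, n < (out r e ν ee (seg Y t)).length) → Red j Y X := fun ee =>
    h.I2 h.K1 h.C1 h.C2 h.C3 r e ν ee hc.ce hc.cν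
  choose j hj using h2
  choose L hL z hz using hcon
  obtain ⟨X, hX0, hX1⟩ := joinEven ζ
    (mu (fun ee => L (i ee) (j ee)) (fun ee => z (i ee) (j ee)) z₀)
  have hz0X : le z₀ X := h.K4.2.2.2 X z₀
    (fun n => 2 * encode ((2, [], Code.zero, n) : ℕ × List ℕ × Code × ℕ) + 1)
    (by fun_prop) (fun n => by rw [hX1, mu_z₀])
  have hzX : ∀ ee, le (z (i ee) (j ee)) X := fun ee => h.K4.2.2.2 X _
    (fun n => 2 * encode ((1, ee, Code.zero, n) : ℕ × List ℕ × Code × ℕ) + 1)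
    (by fun_prop) (fun n => by rw [hX1, mu_z])
  obtain ⟨-, hXW, hJW⟩ := hr X hz0X
  set Z := ch (W r X) with hZ
  -- the members of `L` are enumerable
  have hST : REIn (St Z) (fun n => n ∈ St X) ∧ REIn (St Z) (fun n => n ∉ St X) :=
    turingReducible_iff.1 hXW
  have hLr : REIn (St Z) (fun p : List ℕ × Code => p.2 ∈ L (i p.1) (j p.1)) := by
    have h3 : REIn (St Z) (fun p : List ℕ × Code =>
        (2 * encode ((0, p.1, p.2, 0) : ℕ × List ℕ × Code × ℕ) + 1) ∈ St X) :=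
      REIn.comp (S := fun n => n ∈ St X) hST.1 (by fun_prop)
    refine h3.of_eq fun p => ?_
    change X _ = true ↔ _
    rw [hX1, mu_L]
  have hE := h.R2 h.K2 h.C1 h.K6 Z k ν (fun ee l => l ∈ L (i ee) (j ee)) hc.cν hLr
  have hJX : REIn (St Z) (J X) := h.K4.1 X Z hXW _ ((h.K5 h.K2).2.1 X)
  have hnJ : REIn (St Z) (fun n => ¬ J X n) := by
    refine h.R1 (St Z) (J X) hJX (Cand Z k ν (fun ee l => l ∈ L (i ee) (j ee))) hE k ?_ ?_
    · intro ee hee
      have hw := hY3 ee hee.le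
      obtain ⟨Y, hYs⟩ := h.L1 (Yp ee) hw.1 hw.2.1 X
      obtain ⟨hw1, hw2, hw3⟩ := hw.2.2 X Y hYs
      have hri : Red (i ee) X Y := hi ee X Y hX0 hYs
      have hrj : Red (j ee) Y X := hj ee X Y hw1 hw2
      obtain ⟨l, hl, hlr⟩ := hz (i ee) (j ee) X Y (hzX ee) hri hrj
      refine ⟨l, hl, fun q hq => ?_⟩
      have h4 := (h.V1 h.N1).2 l Z (ch (W r Y)) (ν (q + 1)) hlr
      have h5 := hw3 (q + 1) (by omega) (by omega)
      have h6 : (ch (W r Y) (ν (q + 1))).toNat = if q + 1 ≤ cntP (J X) ee then 1 else 0 := by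
        unfold ch
        by_cases h7 : q + 1 ≤ cntP (J X) ee
        · rw [if_pos h7]
          simp [h5.2 h7]
        · rw [if_neg h7]
          have h8 : ¬ W r Y (ν (q + 1)) := fun hh => h7 (h5.1 hh)
          simp [h8]
      rw [← h6]
      exact h4
    · intro ee hee
      exact h.R3 h.N1 h.V1 Z k ν (fun ee l => l ∈ L (i ee) (j ee)) ee (L (i ee) (j ee))
        (hL _ _) (fun l hl => hl)
  exact hJW ((h.K5 h.K2).2.2.1 Z (J X) hJX hnJ)

end Pool.Agent.H639.LU
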