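import Pool.Agent.H639.LU.Stubs

/-!
Further statements, for the local version of the theorem.
-/

namespace Pool.Agent.H639.LU

open Nat.Partrec (Code)
open Nat.Partrec.Code (evaln)
open Encodable
open Pool.Agent.Helper446.Defs Pool.Agent.Helper446.Oracle

/-- K7: effective composition of reductions. -/
def P_K7 : Prop :=
  ∃ κ : Code × Code → Code, Computable κ ∧ ∀ (c d : Code) (X Y Z : ℕ → Bool),
    Red c X Y → Red d Y Z → Red (κ (c, d)) X Z

/-- K9: the jump of a join. -/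
def P_K9 : Prop :=
  ∃ f : ℕ → ℕ, Computable f ∧ ∀ (X Xs : ℕ → Bool), (∀ n, Xs (2 * n + 1) = X n) →
    ∀ p, J X p ↔ J Xs (f p)

/-- The local theorem. -/
def Main2 : Prop :=
  ∀ (r : Code) (z₀ : ℕ → Bool), (∀ X, le z₀ X → ¬ le (ch (W r X)) X) →
    ∀ k : ℕ, ∃ z₁ : ℕ → Bool, ∀ X, le z₁ X → ∀ V : ℕ → Bool, le X V → ∀ e : Code,
      (∀ i j : Code, {l : Code | W e V (encode (i, j, l))}.encard ≤ k) →
      (∀ (i j : Code) (Y : ℕ → Bool), Red i X Y → Red j Y X →
        ∃ l : Code, W e V (encode (i, j, l)) ∧ Red l V (ch (W r Y))) →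
      le (ch (J X)) V

end Pool.Agent.H639.LU
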