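import Pool.Agent.H639.LU.Final
import Pool.Agent.H639.LU.Stubs2

/-!
The assembly of the local theorem.
-/

namespace Pool.Agent.H639.LU

open Nat.Partrec (Code)
open Nat.Partrec.Code (evaln)
open Encodable
open Pool.Agent.Helper446.Defs Pool.Agent.Helper446.Oracle

/-- The table coded in the base of the cone: `ζ`, and the graphs of the two functions. -/
noncomputable def tab (ζ : ℕ → Bool) (i j : List ℕ → Code) : ℕ → Bool := by
  classical exact fun k =>
    match (decode k : Option (ℕ × List ℕ × Code × ℕ)) with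
    | some (t, ee, l, n) =>
      if t = 0 then decide (l = i ee) else if t = 1 then decide (l = j ee) else ζ n
    | none => false

theorem tab_i (ζ : ℕ → Bool) (i j : List ℕ → Code) (ee : List ℕ) (l : Code) :
    tab ζ i j (encode ((0, ee, l, 0) : ℕ × List ℕ × Code × ℕ)) = true ↔ l = i ee := by
  unfold tab
  simp

theorem tab_j (ζ : ℕ → Bool) (i j : List ℕ → Code) (ee : List ℕ) (l : Code) :
    tab ζ i j (encode ((1, ee, l, 0) : ℕ × List ℕ × Code × ℕ)) = true ↔ l = j ee := by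
  unfold tab
  simp

theorem tab_z (ζ : ℕ → Bool) (i j : List ℕ → Code) (n : ℕ) :
    tab ζ i j (encode ((2, [], Code.zero, n) : ℕ × List ℕ × Code × ℕ)) = ζ n := by
  unfold tab
  simp

theorem main2_of (h : AllP) (K7 : P_K7) (K9 : P_K9) : Main2 := by
  classical
  intro r z₀ hr k
  obtain ⟨κ, hκ, hκ'⟩ := K7
  obtain ⟨fJ, hfJ, hfJ'⟩ := K9
  obtain ⟨e', g, ν, hc, -⟩ := h.S2 h.D1 h.N1 h.C1 h.C2 h.K2 h.K3 h.K4 h.K5 h.B1 h.G1 h.G2 h.B2
    h.B3 h.S1 r z₀ hr k Set.univ clo_univ (cof_univ h)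
  have h1 : ∀ ee : List ℕ, ∃ Yap : Str → Str, (∀ x b, Yap x <+: Yap (x ++ [b])) ∧
      (∀ x, x.length ≤ (Yap x).length) ∧ (ee.length ≤ k → Works r k e' ν ee Yap) := by
    intro ee
    by_cases hee : ee.length ≤ k
    · obtain ⟨Yap, hY⟩ := coding h r k e' g ν hc ee hee
      exact ⟨Yap, hY.1, hY.2.1, fun _ => hY⟩
    · exact ⟨fun x => x, fun x b => List.prefix_append _ _, fun x => le_refl _,
        fun h => absurd h hee⟩
  choose Yp hY1 hY2 hY3 using h1
  obtain ⟨ζ, hζ⟩ := h.I1 h.K1 Yp hY1 hY2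
  choose i hi using hζ
  have h2 : ∀ ee : List ℕ, ∃ j : Code, ∀ X Y : ℕ → Bool,
      (∀ t, ∃ k, out r e' ν ee (seg Y t) = seg X k) →
      (∀ n, ∃ t, n < (out r e' ν ee (seg Y t)).length) → Red j Y X := fun ee =>
    h.I2 h.K1 h.C1 h.C2 h.C3 r e' ν ee hc.ce hc.cν
  choose j hj using h2
  refine ⟨tab ζ i j, fun X hX V hV e hcard hred => ?_⟩
  -- the join
  obtain ⟨Xs, hXs0, hXs1⟩ := joinEven ζ X
  have hζX : le ζ X := h.K4.2.1 _ _ _ (h.K4.2.2.2 (tab ζ i j) ζ
    (fun n => encode ((2, [], Code.zero, n) : ℕ × List ℕ × Code × ℕ)) (by fun_prop)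
    (fun n => by rw [tab_z])) hX
  have hXXs : le X Xs := h.K4.2.2.2 Xs X (fun n => 2 * n + 1) (by fun_prop)
    (fun n => by rw [hXs1])
  have hXsX : le Xs X := by
    have hz := turingReducible_iff.1 hζX
    have hx := turingReducible_iff.1 (h.K4.2.2.1 X)
    refine turingReducible_iff.2 ⟨?_, ?_⟩
    · have h3 : REIn (St X) (fun n : ℕ => (∃ m : ℕ, 2 * m = n ∧ m ∈ St ζ) ∨
          ∃ m : ℕ, 2 * m + 1 = n ∧ m ∈ St X) := by
        refine REIn.or ?_ ?_
        · refine REIn.ex (S := fun (n m : ℕ) => 2 * m = n ∧ m ∈ St ζ) (REIn.and ?_ ?_)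
          · exact REIn.of_re (Pool.Agent.Helper446.RE.eq (by fun_prop) (by fun_prop))
          · exact hz.1.comp (f := fun x : ℕ × ℕ => x.2) (by fun_prop)
        · refine REIn.ex (S := fun (n m : ℕ) => 2 * m + 1 = n ∧ m ∈ St X) (REIn.and ?_ ?_)
          · exact REIn.of_re (Pool.Agent.Helper446.RE.eq (by fun_prop) (by fun_prop))
          · exact hx.1.comp (f := fun x : ℕ × ℕ => x.2) (by fun_prop)
      refine h3.of_eq fun n => ?_
      constructor
      · rintro (⟨m, rfl, hm⟩ | ⟨m, rfl, hm⟩)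
        · change Xs (2 * m) = true
          rw [hXs0]; exact hm
        · change Xs (2 * m + 1) = true
          rw [hXs1]; exact hm
      · intro hn
        change Xs n = true at hn
        rcases Nat.even_or_odd' n with ⟨m, rfl | rfl⟩
        · left; exact ⟨m, rfl, by rw [hXs0] at hn; exact hn⟩
        · right; exact ⟨m, rfl, by rw [hXs1] at hn; exact hn⟩
    · have h3 : REIn (St X) (fun n : ℕ => (∃ m : ℕ, 2 * m = n ∧ m ∉ St ζ) ∨
          ∃ m : ℕ, 2 * m + 1 = n ∧ m ∉ St X) := by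
        refine REIn.or ?_ ?_
        · refine REIn.ex (S := fun (n m : ℕ) => 2 * m = n ∧ m ∉ St ζ) (REIn.and ?_ ?_)
          · exact REIn.of_re (Pool.Agent.Helper446.RE.eq (by fun_prop) (by fun_prop))
          · exact hz.2.comp (f := fun x : ℕ × ℕ => x.2) (by fun_prop)
        · refine REIn.ex (S := fun (n m : ℕ) => 2 * m + 1 = n ∧ m ∉ St X) (REIn.and ?_ ?_)
          · exact REIn.of_re (Pool.Agent.Helper446.RE.eq (by fun_prop) (by fun_prop))
          · exact hx.2.comp (f := fun x : ℕ × ℕ => x.2) (by fun_prop)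
      refine h3.of_eq fun n => ?_
      constructor
      · rintro (⟨m, rfl, hm⟩ | ⟨m, rfl, hm⟩)
        · change ¬ Xs (2 * m) = true
          rw [hXs0]; exact hm
        · change ¬ Xs (2 * m + 1) = true
          rw [hXs1]; exact hm
      · intro hn
        change ¬ Xs n = true at hn
        rcases Nat.even_or_odd' n with ⟨m, rfl | rfl⟩
        · left; exact ⟨m, rfl, by rw [hXs0] at hn; exact hn⟩
        · right; exact ⟨m, rfl, by rw [hXs1] at hn; exact hn⟩
  obtain ⟨a, ha⟩ := (h.K3 h.K2 X Xs).1 hXsX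
  obtain ⟨b, hb⟩ := (h.K3 h.K2 Xs X).1 hXXs
  -- reductions to `V`
  have hXV := turingReducible_iff.1 hV
  have htV : REIn (St V) (fun n => n ∈ St (tab ζ i j)) :=
    (turingReducible_iff.1 (h.K4.2.1 _ _ _ hX hV)).1
  have hgi : REIn (St V) (fun p : List ℕ × Code => p.2 = i p.1) := by
    have h3 : REIn (St V) (fun p : List ℕ × Code =>
        encode ((0, p.1, p.2, 0) : ℕ × List ℕ × Code × ℕ) ∈ St (tab ζ i j)) :=
      REIn.comp (S := fun n => n ∈ St (tab ζ i j)) htV (by fun_prop)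
    refine h3.of_eq fun p => ?_
    change tab ζ i j _ = true ↔ _
    rw [tab_i]
  have hgj : REIn (St V) (fun p : List ℕ × Code => p.2 = j p.1) := by
    have h3 : REIn (St V) (fun p : List ℕ × Code =>
        encode ((1, p.1, p.2, 0) : ℕ × List ℕ × Code × ℕ) ∈ St (tab ζ i j)) :=
      REIn.comp (S := fun n => n ∈ St (tab ζ i j)) htV (by fun_prop)
    refine h3.of_eq fun p => ?_
    change tab ζ i j _ = true ↔ _
    rw [tab_j]
  set Lr : List ℕ → Code → Prop := fun ee l =>
    W e V (encode (κ (a, i ee), κ (j ee, b), l)) with hLrdef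
  have hLr : REIn (St V) (fun p : List ℕ × Code => Lr p.1 p.2) := by
    have hW : REIn (St V) (W e V) := (h.K5 h.K2).1 e V
    have h3 : REIn (St V) (fun p : List ℕ × Code => ∃ q : Code × Code,
        (q.1 = i p.1 ∧ q.2 = j p.1) ∧ W e V (encode (κ (a, q.1), κ (q.2, b), p.2))) := by
      refine REIn.ex (S := fun (p : List ℕ × Code) (q : Code × Code) =>
        (q.1 = i p.1 ∧ q.2 = j p.1) ∧ W e V (encode (κ (a, q.1), κ (q.2, b), p.2)))
        (REIn.and (REIn.and ?_ ?_) ?_)
      · exact hgi.comp (f := fun x : (List ℕ × Code) × (Code × Code) => (x.1.1, x.2.1))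
          (by fun_prop)
      · exact hgj.comp (f := fun x : (List ℕ × Code) × (Code × Code) => (x.1.1, x.2.2))
          (by fun_prop)
      · refine REIn.comp (S := W e V)
          (f := fun x : (List ℕ × Code) × (Code × Code) =>
            encode (κ (a, x.2.1), κ (x.2.2, b), x.1.2)) hW ?_
        have hk1 : Computable (fun x : (List ℕ × Code) × (Code × Code) => κ (a, x.2.1)) :=
          hκ.comp (by fun_prop)
        have hk2 : Computable (fun x : (List ℕ × Code) × (Code × Code) => κ (x.2.2, b)) :=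
          hκ.comp (by fun_prop)
        exact Computable.encode.comp (hk1.pair (hk2.pair (by fun_prop)))
    refine h3.of_eq fun p => ?_
    constructor
    · rintro ⟨q, ⟨h4, h5⟩, h6⟩
      rw [h4, h5] at h6
      exact h6
    · intro h6
      exact ⟨(i p.1, j p.1), ⟨rfl, rfl⟩, h6⟩
  have hE := h.R2 h.K2 h.C1 h.K6 V k ν Lr hc.cν hLr
  have hJXs : REIn (St V) (J Xs) :=
    h.K4.1 Xs V (h.K4.2.1 _ _ _ hXsX hV) _ ((h.K5 h.K2).2.1 Xs)
  have hJX : REIn (St V) (J X) := h.K4.1 X V hV _ ((h.K5 h.K2).2.1 X)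
  have hnJ : REIn (St V) (fun n => ¬ J Xs n) := by
    refine h.R1 (St V) (J Xs) hJXs (Cand V k ν Lr) hE k ?_ ?_
    · intro ee hee
      have hw := hY3 ee hee.le
      obtain ⟨Y, hYs⟩ := h.L1 (Yp ee) hw.1 hw.2.1 Xs
      obtain ⟨hw1, hw2, hw3⟩ := hw.2.2 Xs Y hYs
      have hri : Red (i ee) Xs Y := hi ee Xs Y hXs0 hYs
      have hrj : Red (j ee) Y Xs := hj ee Xs Y hw1 hw2
      obtain ⟨l, hl, hlr⟩ := hred (κ (a, i ee)) (κ (j ee, b)) Y (hκ' _ _ _ _ _ ha hri)
        (hκ' _ _ _ _ _ hrj hb)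
      refine ⟨l, hl, fun q hq => ?_⟩
      have h4 := (h.V1 h.N1).2 l V (ch (W r Y)) (ν (q + 1)) hlr
      have h5 := hw3 (q + 1) (by omega) (by omega)
      have h6 : (ch (W r Y) (ν (q + 1))).toNat = if q + 1 ≤ cntP (J Xs) ee then 1 else 0 := by
        unfold ch
        by_cases h7 : q + 1 ≤ cntP (J Xs) ee
        · rw [if_pos h7]
          simp [h5.2 h7]
        · rw [if_neg h7]
          have h8 : ¬ W r Y (ν (q + 1)) := fun hh => h7 (h5.1 hh)
          simp [h8]
      rw [← h6]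
      exact h4
    · intro ee hee
      have h4 := hcard (κ (a, i ee)) (κ (j ee, b))
      have hfin : {l : Code | W e V (encode (κ (a, i ee), κ (j ee, b), l))}.Finite :=
        Set.finite_of_encard_le_coe h4
      refine h.R3 h.N1 h.V1 V k ν Lr ee hfin.toFinset ?_ ?_
      · rw [hfin.encard_eq_coe_toFinset_card] at h4
        exact_mod_cast h4
      · intro l hl
        rw [Set.Finite.mem_toFinset]
        exact hl
  have hnJX : REIn (St V) (fun n => ¬ J X n) := by
    refine (hnJ.comp hfJ).of_eq fun n => ?_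
    rw [hfJ' X Xs hXs1]
  exact (h.K5 h.K2).2.2.1 V (J X) hJX hnJX

end Pool.Agent.H639.LU
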