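import Pool.Agent.H639.LU.All
import Pool.Agent.H639.LU.Stubs2

/-!
The dichotomy for boundedly uniform operators, from the local theorem.
-/

namespace Pool.Agent.H639.LU

open Nat.Partrec (Code)
open Nat.Partrec.Code (evaln)
open Encodable
open Pool.Agent.Helper446.Defs Pool.Agent.Helper446.Oracle

/-- Programs for sets enumerable in `V`. -/
theorem K10 (V : ℕ → Bool) (S : ℕ → Prop) (h : REIn (St V) S) :
    ∃ e : Code, ∀ n, S n ↔ W e V n := by
  obtain ⟨R, hR, hS⟩ := (K2 ℕ V S).1 h
  have hp : Partrec (fun a : ℕ × Str =>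
      (Part.assert (R a.1 a.2) (fun _ => Part.some ())).map (fun _ => (0 : ℕ))) :=
    Partrec.map hR (Computable.const 0).to₂
  have hq : Partrec (fun p : ℕ => (Part.ofOption (decode (α := ℕ × Str) p)).bind fun a =>
      (Part.assert (R a.1 a.2) (fun _ => Part.some ())).map (fun _ => (0 : ℕ))) :=
    Partrec.bind (Computable.ofOption Computable.decode) (hp.comp Computable.snd).to₂
  obtain ⟨e, he⟩ := Nat.Partrec.Code.exists_code.1 (Partrec.nat_iff.1 hq)
  refine ⟨e, fun n => ?_⟩
  rw [hS]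
  unfold W
  have h1 : ∀ s, (e.eval (encode (n, seg V s))).Dom ↔ R n (seg V s) := by
    intro s
    rw [he]
    change ((Part.ofOption (decode (α := ℕ × Str) (encode (n, seg V s)))).bind fun a =>
      (Part.assert (R a.1 a.2) (fun _ => Part.some ())).map (fun _ => (0 : ℕ))).Dom ↔ _
    rw [encodek]
    have h2 : (Part.ofOption (some ((n, seg V s) : ℕ × Str))).bind (fun a =>
      (Part.assert (R a.1 a.2) (fun _ => Part.some ())).map (fun _ => (0 : ℕ))) =
      (Part.assert (R n (seg V s)) (fun _ => Part.some ())).map (fun _ => (0 : ℕ)) :=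
      Part.bind_some _ _
    rw [h2]
    constructor
    · rintro ⟨h3, -⟩
      exact h3
    · intro h3
      exact ⟨h3, trivial⟩
  simp only [h1]

/-- The coded parameters. -/
noncomputable def mu3 (u : Code → Code → Finset Code) (z₁ z₂ : ℕ → Bool) : ℕ → Bool := by
  classical exact fun k =>
    match (decode k : Option (ℕ × (Code × Code × Code) × ℕ)) with
    | some (t, (i, j, l), n) =>
      if t = 0 then decide (l ∈ u i j) else if t = 1 then z₁ n else z₂ n
    | none => false

theorem mu3_u (u : Code → Code → Finset Code) (z₁ z₂ : ℕ → Bool) (i j l : Code) :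
    mu3 u z₁ z₂ (encode ((0, (i, j, l), 0) : ℕ × (Code × Code × Code) × ℕ)) = true ↔
      l ∈ u i j := by
  unfold mu3
  simp

theorem mu3_1 (u : Code → Code → Finset Code) (z₁ z₂ : ℕ → Bool) (n : ℕ) :
    mu3 u z₁ z₂ (encode ((1, (Code.zero, Code.zero, Code.zero), n) :
      ℕ × (Code × Code × Code) × ℕ)) = z₁ n := by
  unfold mu3
  simp

theorem mu3_2 (u : Code → Code → Finset Code) (z₁ z₂ : ℕ → Bool) (n : ℕ) :
    mu3 u z₁ z₂ (encode ((2, (Code.zero, Code.zero, Code.zero), n) :
      ℕ × (Code × Code × Code) × ℕ)) = z₂ n := by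
  unfold mu3
  simp

/-- The dichotomy. -/
def Dich : Prop :=
  ∀ (r : Code) (z₂ : ℕ → Bool) (k : ℕ) (u : Code → Code → Finset Code),
    (∀ i j, (u i j).card ≤ k) →
    (∀ X, le z₂ X → le X (ch (W r X)) ∧ ∀ (i j : Code) (Y : ℕ → Bool), Red i X Y → Red j Y X →
      ∃ l ∈ u i j, Red l (ch (W r X)) (ch (W r Y))) →
    (∀ z, ∃ X, le z X ∧ le (ch (W r X)) X) ∨ ∃ z, ∀ X, le z X → le (ch (J X)) (ch (W r X))

theorem dich_of (hM : Main2) : Dich := by
  classical
  intro r z₂ k u hu hinv
  by_cases h1 : ∀ z, ∃ X, le z X ∧ le (ch (W r X)) X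
  · exact Or.inl h1
  · right
    push Not at h1
    obtain ⟨z₀, hz₀⟩ := h1
    obtain ⟨z₁, hz₁⟩ := hM r z₀ hz₀ k
    refine ⟨mu3 u z₁ z₂, fun X hX => ?_⟩
    have h2 : le z₂ X := K4.2.1 _ _ _ (K4.2.2.2 (mu3 u z₁ z₂) z₂
      (fun n => encode ((2, (Code.zero, Code.zero, Code.zero), n) :
        ℕ × (Code × Code × Code) × ℕ)) (by fun_prop) (fun n => by rw [mu3_2])) hX
    have h3 : le z₁ X := K4.2.1 _ _ _ (K4.2.2.2 (mu3 u z₁ z₂) z₁
      (fun n => encode ((1, (Code.zero, Code.zero, Code.zero), n) :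
        ℕ × (Code × Code × Code) × ℕ)) (by fun_prop) (fun n => by rw [mu3_1])) hX
    obtain ⟨hXW, hred⟩ := hinv X h2
    set V := ch (W r X) with hV
    have hmu : REIn (St V) (fun n => n ∈ St (mu3 u z₁ z₂)) :=
      (turingReducible_iff.1 (K4.2.1 _ _ _ hX hXW)).1
    have hS : REIn (St V) (fun n : ℕ => ∃ q : Code × Code × Code, encode q = n ∧
        q.2.2 ∈ u q.1 q.2.1) := by
      refine REIn.ex (S := fun (n : ℕ) (q : Code × Code × Code) => encode q = n ∧
        q.2.2 ∈ u q.1 q.2.1) (REIn.and ?_ ?_)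
      · exact REIn.of_re (Pool.Agent.Helper446.RE.eq (by fun_prop) (by fun_prop))
      · have h4 : REIn (St V) (fun x : ℕ × (Code × Code × Code) =>
            encode ((0, x.2, 0) : ℕ × (Code × Code × Code) × ℕ) ∈ St (mu3 u z₁ z₂)) :=
          REIn.comp (S := fun n => n ∈ St (mu3 u z₁ z₂)) hmu (by fun_prop)
        refine h4.of_eq fun x => ?_
        obtain ⟨x1, i, j, l⟩ := x
        change mu3 u z₁ z₂ _ = true ↔ _
        rw [mu3_u]
    obtain ⟨e, he⟩ := K10 V _ hS
    have he' : ∀ i j l : Code, W e V (encode (i, j, l)) ↔ l ∈ u i j := by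
      intro i j l
      rw [← he]
      constructor
      · rintro ⟨q, hq, hl⟩
        have : q = (i, j, l) := encode_injective hq
        subst this
        exact hl
      · intro hl
        exact ⟨(i, j, l), rfl, hl⟩
    refine hz₁ X h3 V hXW e ?_ ?_
    · intro i j
      have h5 : {l : Code | W e V (encode (i, j, l))} = ↑(u i j) := by
        ext l
        simp only [Set.mem_ofPred_eq, Finset.mem_coe]
        exact he' i j l
      rw [h5, Set.encard_coe_eq_coe_finsetCard]
      exact_mod_cast hu i j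
    · intro i j Y hi hj
      obtain ⟨l, hl, hlr⟩ := hred i j Y hi hj
      exact ⟨l, (he' i j l).2 hl, hlr⟩

end Pool.Agent.H639.LU
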