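import Pool.Agent.H639.LU.Stubs

set_option autoImplicit false

/-! Task G1: the closed game is determined. -/

namespace Pool.Agent.H639.LU

open Nat.Partrec (Code)
open Pool.Agent.Helper446.Defs

/-- positions which are lost within `a` moves -/
def G1_BadO (D : Set (ℕ → Bool)) (c : Code) (a : Ordinal.{0}) (x : Str) : Prop :=
  ∃ b : Bool, ∀ x' : Str, Legal D c x x' b → ∃ a' : Ordinal.{0}, ∃ _h : a' < a, G1_BadO D c a' x'
termination_by a
decreasing_by all_goals exact _h

theorem G1_BadO_iff (D : Set (ℕ → Bool)) (c : Code) (a : Ordinal.{0}) (x : Str) :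
    G1_BadO D c a x ↔ ∃ b : Bool, ∀ x' : Str, Legal D c x x' b →
      ∃ a' : Ordinal.{0}, a' < a ∧ G1_BadO D c a' x' := by
  rw [G1_BadO]
  simp only [exists_prop]

theorem G1_step {D : Set (ℕ → Bool)} {c : Code} {x : Str} (hx : ¬ ∃ a, G1_BadO D c a x)
    (b : Bool) : ∃ x' : Str, Legal D c x x' b ∧ ¬ ∃ a, G1_BadO D c a x' := by
  by_contra hcon
  push Not at hcon
  apply hx
  have h1 : ∀ x' : Str, ∃ a : Ordinal.{0}, Legal D c x x' b → G1_BadO D c a x' := by
    intro x'
    by_cases h : Legal D c x x' b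
    · obtain ⟨a, ha⟩ := hcon x' h
      exact ⟨a, fun _ => ha⟩
    · exact ⟨0, fun h' => absurd h' h⟩
  choose A hA using h1
  refine ⟨⨆ x' : Str, Order.succ (A x'), ?_⟩
  rw [G1_BadO_iff]
  refine ⟨b, fun x' hx' => ⟨A x', ?_, hA x' hx'⟩⟩
  exact lt_of_lt_of_le (Order.lt_succ (A x')) (Ordinal.le_iSup (fun x' : Str => Order.succ (A x')) x')

theorem G1 : P_G1 := by
  classical
  intro hD1 D c hne
  by_cases hbad : ∃ a, G1_BadO D c a []
  · right
    -- the least rank
    have hmin : ∀ x : Str, ∃ (r : Ordinal.{0}) (b : Bool), (∃ a, G1_BadO D c a x) →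
        G1_BadO D c r x ∧ (∀ a, G1_BadO D c a x → r ≤ a) ∧ ∀ x' : Str, Legal D c x x' b →
          ∃ a' : Ordinal.{0}, a' < r ∧ G1_BadO D c a' x' := by
      intro x
      by_cases h : ∃ a, G1_BadO D c a x
      · have hm : G1_BadO D c (sInf {a | G1_BadO D c a x}) x :=
          csInf_mem (s := {a | G1_BadO D c a x}) h
        obtain ⟨b, hb⟩ := (G1_BadO_iff D c _ x).1 hm
        exact ⟨_, b, fun _ => ⟨hm, fun a ha => csInf_le' ha, hb⟩⟩
      · exact ⟨0, false, fun h' => absurd h' h⟩
    choose rk β hβ using hmin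
    refine ⟨β, fun x hx0 hleg => ?_⟩
    have hall : ∀ n, ∃ a, G1_BadO D c a (x n) := by
      intro n
      induction n with
      | zero => rw [hx0]; exact hbad
      | succ n ih =>
        obtain ⟨a', -, ha'⟩ := (hβ (x n) ih).2.2 (x (n + 1)) (hleg n)
        exact ⟨a', ha'⟩
    obtain ⟨n, hn⟩ := WellFounded.not_rel_apply_succ (r := ((· < ·) : Ordinal.{0} → _ → Prop))
      (fun n => rk (x n))
    apply hn
    obtain ⟨a', ha1, ha2⟩ := (hβ (x n) (hall n)).2.2 (x (n + 1)) (hleg n)
    exact lt_of_le_of_lt ((hβ (x (n + 1)) (hall (n + 1))).2.1 a' ha2) ha1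
  · left
    have hst : ∀ (x : Str) (b : Bool), ∃ x' : Str, (¬ ∃ a, G1_BadO D c a x) →
        Legal D c x x' b ∧ ¬ ∃ a, G1_BadO D c a x' := by
      intro x b
      by_cases h : ∃ a, G1_BadO D c a x
      · exact ⟨x, fun h' => absurd h h'⟩
      · obtain ⟨x', hx'⟩ := G1_step h b
        exact ⟨x', fun _ => hx'⟩
    choose st hst' using hst
    have hG : ∀ (η : Str) (b : Bool), (η ++ [b]).foldl st [] = st (η.foldl st []) b := by
      intro η b
      rw [List.foldl_append]
      rfl
    have hnb : ∀ η : Str, ¬ ∃ a, G1_BadO D c a (η.foldl st []) := by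
      intro η
      induction η using List.reverseRecOn with
      | nil => exact hbad
      | append_singleton η b ih =>
        rw [hG]
        exact (hst' _ b ih).2
    have hleg : ∀ (η : Str) (b : Bool),
        Legal D c (η.foldl st []) ((η ++ [b]).foldl st []) b := by
      intro η b
      rw [hG]
      exact (hst' _ b (hnb η)).1
    refine ⟨fun η => η.foldl st [], ⟨⟨fun η b => (hleg η b).2.1, fun η => ?_⟩, fun η => ?_⟩⟩
    · induction η using List.reverseRecOn with
      | nil => exact hD1.1 c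
      | append_singleton η b ih =>
        exact (hleg η b).2.2.trans (congrArg (· ++ [b]) ih)
    · induction η using List.reverseRecOn with
      | nil =>
        obtain ⟨X, hX⟩ := hne
        exact ⟨X, hX, by simp [seg]⟩
      | append_singleton η b ih => exact (hleg η b).1

end Pool.Agent.H639.LU
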