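import Pool.Agent.H639.LU.Stubs2

namespace Pool.Agent.H639.LU

open Nat.Partrec (Code)
open Nat.Partrec.Code (evaln)
open Encodable
open Pool.Agent.Helper446.Defs Pool.Agent.Helper446.Oracle

private theorem K7_len (X : ℕ → Bool) (t : ℕ) : (seg X t).length = t := by
  simp [seg]

private theorem K7_take (X : ℕ → Bool) {s t : ℕ} (h : s ≤ t) : (seg X t).take s = seg X s := by
  unfold seg
  rw [← List.map_take, List.take_range, Nat.min_eq_left h]

/-- bounded search -/
def K7_srch (c : Code) (t : ℕ) (s : Str) (q : ℕ) : Option ℕ :=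
  ((List.range (s.length + 1)).filterMap (fun a => evaln t c (encode (q, s.take a)))).head?

/-- the list of the values which are found -/
def K7_lst (c : Code) (t : ℕ) (s : Str) (k : ℕ) : List ℕ :=
  (List.range k).filterMap (K7_srch c t s)

/-- the stages of the composition -/
def K7_F (a : (Code × Code) × (ℕ × Str)) (m : ℕ) : Option ℕ :=
  if (K7_lst a.1.1 m.unpair.2 a.2.2 m.unpair.1).length = m.unpair.1 then
    evaln m.unpair.2 a.1.2 (encode (a.2.1,
      (K7_lst a.1.1 m.unpair.2 a.2.2 m.unpair.1).map (fun v => v == 1)))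
  else none

private theorem K7_srch_prim :
    Primrec (fun p : (Code × ℕ × Str) × ℕ => K7_srch p.1.1 p.1.2.1 p.1.2.2 p.2) := by
  unfold K7_srch
  refine Primrec.list_head?.comp ?_
  refine Primrec.listFilterMap (g := fun (p : (Code × ℕ × Str) × ℕ) (a : ℕ) =>
    evaln p.1.2.1 p.1.1 (encode (p.2, p.1.2.2.take a))) ?_ ?_
  · exact Primrec.list_range.comp (Primrec.succ.comp
      (Primrec.list_length.comp (Primrec.snd.comp (Primrec.snd.comp Primrec.fst))))
  · have h1 : Primrec (fun x : ((Code × ℕ × Str) × ℕ) × ℕ => x.1.1) :=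
      Primrec.fst.comp Primrec.fst
    refine Nat.Partrec.Code.primrec_evaln.comp (Primrec.pair (Primrec.pair ?_ ?_) ?_)
    · exact Primrec.fst.comp (Primrec.snd.comp h1)
    · exact Primrec.fst.comp h1
    · refine Primrec.encode.comp (Primrec.pair ?_ ?_)
      · exact Primrec.snd.comp Primrec.fst
      · exact Primrec.list_take.comp Primrec.snd (Primrec.snd.comp (Primrec.snd.comp h1))

private theorem K7_lst_prim :
    Primrec (fun p : (Code × ℕ × Str) × ℕ => K7_lst p.1.1 p.1.2.1 p.1.2.2 p.2) := by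
  unfold K7_lst
  refine Primrec.listFilterMap (g := fun (p : (Code × ℕ × Str) × ℕ) (q : ℕ) =>
    K7_srch p.1.1 p.1.2.1 p.1.2.2 q) ?_ ?_
  · exact Primrec.list_range.comp Primrec.snd
  · exact K7_srch_prim.comp (Primrec.pair (Primrec.fst.comp Primrec.fst) Primrec.snd)

private theorem K7_F_prim : Primrec₂ K7_F := by
  have hm1 : Primrec (fun x : ((Code × Code) × (ℕ × Str)) × ℕ => x.2.unpair.1) :=
    Primrec.fst.comp (Primrec.unpair.comp Primrec.snd)
  have hm2 : Primrec (fun x : ((Code × Code) × (ℕ × Str)) × ℕ => x.2.unpair.2) :=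
    Primrec.snd.comp (Primrec.unpair.comp Primrec.snd)
  have hc : Primrec (fun x : ((Code × Code) × (ℕ × Str)) × ℕ => x.1.1.1) :=
    Primrec.fst.comp (Primrec.fst.comp Primrec.fst)
  have hd : Primrec (fun x : ((Code × Code) × (ℕ × Str)) × ℕ => x.1.1.2) :=
    Primrec.snd.comp (Primrec.fst.comp Primrec.fst)
  have hn : Primrec (fun x : ((Code × Code) × (ℕ × Str)) × ℕ => x.1.2.1) :=
    Primrec.fst.comp (Primrec.snd.comp Primrec.fst)
  have hs : Primrec (fun x : ((Code × Code) × (ℕ × Str)) × ℕ => x.1.2.2) :=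
    Primrec.snd.comp (Primrec.snd.comp Primrec.fst)
  have hL : Primrec (fun x : ((Code × Code) × (ℕ × Str)) × ℕ =>
      K7_lst x.1.1.1 x.2.unpair.2 x.1.2.2 x.2.unpair.1) :=
    K7_lst_prim.comp (Primrec.pair (Primrec.pair hc (Primrec.pair hm2 hs)) hm1)
  show Primrec (fun x : ((Code × Code) × (ℕ × Str)) × ℕ => K7_F x.1 x.2)
  unfold K7_F
  refine Primrec.ite ?_ ?_ (Primrec.const none)
  · exact Primrec.eq.comp (Primrec.list_length.comp hL) hm1
  · refine Nat.Partrec.Code.primrec_evaln.comp (Primrec.pair (Primrec.pair hm2 hd) ?_)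
    refine Primrec.encode.comp (Primrec.pair hn ?_)
    refine Primrec.list_map hL ?_
    exact (Primrec.beq (α := ℕ)).comp Primrec.snd (Primrec.const 1)

private theorem K7_srch_mem {c : Code} {X Y : ℕ → Bool} (h : Red c X Y) {t a0 q v : ℕ}
    (hv : K7_srch c t (seg X a0) q = some v) : v = (Y q).toNat := by
  unfold K7_srch at hv
  have h1 := List.mem_of_head? hv
  rw [List.mem_filterMap] at h1
  obtain ⟨s, hs, hv⟩ := h1
  rw [K7_len] at hs
  have hs' : s ≤ a0 := Nat.lt_succ_iff.mp (List.mem_range.mp hs)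
  rw [K7_take X hs'] at hv
  exact (h q v).1 ⟨s, Nat.Partrec.Code.evaln_sound hv⟩

private theorem K7_srch_some {c : Code} {X : ℕ → Bool} {t a a0 q v : ℕ} (ha : a ≤ a0)
    (hv : v ∈ evaln t c (encode (q, seg X a))) :
    (K7_srch c t (seg X a0) q).isSome = true := by
  unfold K7_srch
  rw [List.isSome_head?, Ne]
  intro h
  have : v ∈ ((List.range ((seg X a0).length + 1)).filterMap
      (fun s => evaln t c (encode (q, (seg X a0).take s)))) := by
    rw [List.mem_filterMap]
    refine ⟨a, ?_, ?_⟩
    · rw [K7_len]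
      exact List.mem_range.mpr (Nat.lt_succ_iff.mpr ha)
    · rw [K7_take X ha]
      exact hv
  rw [h] at this
  simp at this

private theorem K7_filterMap {f : ℕ → Option ℕ} {g : ℕ → ℕ} :
    ∀ (l : List ℕ), (∀ q ∈ l, ∀ v, f q = some v → v = g q) →
      (l.filterMap f).length = l.length → l.filterMap f = l.map g := by
  intro l
  induction l with
  | nil => intro _ _; rfl
  | cons a l ih =>
    intro h1 h2
    cases hfa : f a with
    | none =>
      rw [List.filterMap_cons_none hfa] at h2
      have := List.length_filterMap_le f l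
      simp only [List.length_cons] at h2
      omega
    | some v =>
      rw [List.filterMap_cons_some hfa] at h2 ⊢
      rw [List.map_cons, h1 a (by simp) v hfa, ih (fun q hq => h1 q (by simp [hq])) (by simpa using h2)]

private theorem K7_filterMap_len {f : ℕ → Option ℕ} :
    ∀ (l : List ℕ), (∀ q ∈ l, (f q).isSome = true) → (l.filterMap f).length = l.length := by
  intro l
  induction l with
  | nil => intro _; rfl
  | cons a l ih =>
    intro h1
    obtain ⟨v, hv⟩ := Option.isSome_iff_exists.1 (h1 a (by simp))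
    rw [List.filterMap_cons_some hv, List.length_cons, List.length_cons,
      ih (fun q hq => h1 q (by simp [hq]))]

private theorem K7_lst_eq {c : Code} {X Y : ℕ → Bool} (h : Red c X Y) {t a0 k : ℕ}
    (hl : (K7_lst c t (seg X a0) k).length = k) :
    (K7_lst c t (seg X a0) k).map (fun v => v == 1) = seg Y k := by
  unfold K7_lst at hl ⊢
  rw [K7_filterMap (g := fun q => (Y q).toNat) (List.range k)
    (fun q _ v hv => K7_srch_mem h hv) (by rw [hl, List.length_range]), List.map_map]
  unfold seg
  apply List.map_congr_left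
  intro q _
  show ((Y q).toNat == 1) = Y q
  cases Y q <;> rfl

private theorem K7_exists {c : Code} {X Y : ℕ → Bool} (h : Red c X Y) (k : ℕ) :
    ∃ a0 t0 : ℕ, ∀ t ≥ t0, (K7_lst c t (seg X a0) k).length = k := by
  have h1 : ∀ q : ℕ, ∃ a t : ℕ, (Y q).toNat ∈ evaln t c (encode (q, seg X a)) := by
    intro q
    obtain ⟨a, ha⟩ := (h q (Y q).toNat).2 rfl
    obtain ⟨t, ht⟩ := Nat.Partrec.Code.evaln_complete.1 ha
    exact ⟨a, t, ht⟩
  choose a t hat using h1
  refine ⟨(Finset.range k).sup a, (Finset.range k).sup t, fun t' ht' => ?_⟩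
  unfold K7_lst
  rw [K7_filterMap_len, List.length_range]
  intro q hq
  have hq' : q ∈ Finset.range k := Finset.mem_range.2 (List.mem_range.1 hq)
  refine K7_srch_some (Finset.le_sup (f := a) hq') ?_ (v := (Y q).toNat)
  exact Nat.Partrec.Code.evaln_mono ((Finset.le_sup (f := t) hq').trans ht') (hat q)

/-- Reductions by programs are composed by a primitive recursive function. -/
theorem K7_core : ∃ κ : Code × Code → Code, Primrec κ ∧ ∀ (c d : Code) (X Y Z : ℕ → Bool),
    Red c X Y → Red d Y Z → Red (κ (c, d)) X Z := by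
  have hF : Partrec (fun a : (Code × Code) × (ℕ × Str) => Nat.rfindOpt (K7_F a)) :=
    Partrec.rfindOpt K7_F_prim.to_comp
  obtain ⟨cf, hcf⟩ := Nat.Partrec.Code.exists_code.1 hF
  refine ⟨fun p => Nat.Partrec.Code.curry cf (encode p), ?_, ?_⟩
  · exact Nat.Partrec.Code.primrec₂_curry.comp (Primrec.const cf) Primrec.encode
  · intro c d X Y Z hc hd
    have key : ∀ (n : ℕ) (σ : Str) (v : ℕ),
        v ∈ (Nat.Partrec.Code.curry cf (encode (c, d))).eval (encode (n, σ)) ↔
          v ∈ Nat.rfindOpt (K7_F ((c, d), (n, σ))) := by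
      intro n σ v
      rw [Nat.Partrec.Code.eval_curry, hcf]
      have : Nat.pair (encode (c, d)) (encode (n, σ)) =
        encode (((c, d), (n, σ)) : (Code × Code) × (ℕ × Str)) :=
        (Encodable.encode_prod_val _ _).symm
      rw [this]
      simp only [encodek, Part.coe_some, Part.bind_some]
      simp
    have sound : ∀ (n s v : ℕ), v ∈ (Nat.Partrec.Code.curry cf (encode (c, d))).eval
        (encode (n, seg X s)) → v = (Z n).toNat := by
      intro n s v hv
      rw [key] at hv
      obtain ⟨m, hm⟩ := Nat.rfindOpt_spec hv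
      unfold K7_F at hm
      split_ifs at hm with hl
      · rw [K7_lst_eq hc hl] at hm
        exact (hd n v).1 ⟨_, Nat.Partrec.Code.evaln_sound hm⟩
      · simp at hm
    intro n v
    constructor
    · rintro ⟨s, hs⟩
      exact sound n s v hs
    · rintro rfl
      obtain ⟨k, hk⟩ := (hd n (Z n).toNat).2 rfl
      obtain ⟨t1, ht1⟩ := Nat.Partrec.Code.evaln_complete.1 hk
      obtain ⟨a0, t0, h0⟩ := K7_exists hc k
      refine ⟨a0, ?_⟩
      have hdom : (Nat.rfindOpt (K7_F ((c, d), (n, seg X a0)))).Dom := by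
        rw [Nat.rfindOpt_dom]
        refine ⟨Nat.pair k (max t0 t1), (Z n).toNat, ?_⟩
        unfold K7_F
        simp only [Nat.unpair_pair]
        have h2 := h0 (max t0 t1) (le_max_left _ _)
        rw [if_pos h2, K7_lst_eq hc h2]
        exact Nat.Partrec.Code.evaln_mono (le_max_right _ _) ht1
      obtain ⟨w, hw⟩ := Part.dom_iff_mem.1 hdom
      have hw' := (key n (seg X a0) w).2 hw
      have hwz := sound n a0 w hw'
      rw [← hwz]
      exact hw'

theorem K7 : P_K7 := by
  obtain ⟨κ, h1, h2⟩ := K7_core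
  exact ⟨κ, h1.to_comp, h2⟩

end Pool.Agent.H639.LU
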