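import Pool.Agent.H639.LU.Stubs2
import Pool.Agent.H639.LU.K1

namespace Pool.Agent.H639.LU

open Nat.Partrec (Code)
open Nat.Partrec.Code (evaln)
open Encodable
open Pool.Agent.Helper446.Defs Pool.Agent.Helper446.Oracle

/-- the odd part of a string -/
def K9_odd (x : Str) : Str :=
  (List.range (x.length / 2)).map (fun n => (x[2 * n + 1]?).getD false)

theorem K9_odd_comp : Computable K9_odd := by
  have h1 : Primrec K9_odd := by
    unfold K9_odd
    refine Primrec.list_map (Primrec.list_range.comp
      (Primrec.nat_div.comp Primrec.list_length (Primrec.const 2))) ?_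
    refine Primrec.option_getD.comp ?_ (Primrec.const false)
    refine Primrec.list_getElem?.comp Primrec.fst ?_
    exact Primrec.succ.comp (Primrec.nat_mul.comp (Primrec.const 2) Primrec.snd)
  exact h1.to_comp

theorem K9_odd_seg (X Xs : ℕ → Bool) (h : ∀ n, Xs (2 * n + 1) = X n) (s : ℕ) :
    K9_odd (seg Xs s) = seg X (s / 2) := by
  unfold K9_odd
  have hl : (seg Xs s).length = s := by simp [seg]
  rw [hl]
  unfold seg
  refine List.map_congr_left fun n hn => ?_
  have hn' := List.mem_range.1 hn
  rw [List.getElem?_map, List.getElem?_range (by omega)]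
  simp [h]

theorem K9_eval (c d : Code) (x y : ℕ) (h : d.eval x = Part.some y) :
    (Code.comp c d).eval x = c.eval y := by
  change (d.eval x).bind (fun z => c.eval z) = _
  rw [h]
  exact Part.bind_some _ _

theorem K9 : P_K9 := by
  obtain ⟨d, hd⟩ : ∃ d : Code, ∀ (n : ℕ) (σ : Str),
      d.eval (encode (n, σ)) = Part.some (encode (n, K9_odd σ)) := by
    have hc : Computable (fun p : ℕ × Str => some (encode (p.1, K9_odd p.2))) :=
      Computable.option_some.comp (Computable.encode.comp
        (Computable.fst.pair (K9_odd_comp.comp Computable.snd)))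
    obtain ⟨d, hd⟩ := K1 (fun p : ℕ × Str => some (encode (p.1, K9_odd p.2))) hc
    exact ⟨d, fun n σ => by rw [hd]; rfl⟩
  refine ⟨fun p => Nat.pair (encode (Code.comp (Denumerable.ofNat Code p.unpair.1) d))
    p.unpair.2, ?_, ?_⟩
  · have h1 : Computable (fun p : ℕ => Denumerable.ofNat Code p.unpair.1) :=
      (Computable.ofNat Code).comp (Computable.fst.comp Computable.unpair)
    have h2 : Computable (fun p : ℕ => encode (Code.comp (Denumerable.ofNat Code p.unpair.1) d)) :=
      Computable.encode.comp
        (Nat.Partrec.Code.primrec₂_comp.to_comp.comp h1 (Computable.const d))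
    exact Primrec₂.natPair.to_comp.comp h2 (Computable.snd.comp Computable.unpair)
  · intro X Xs hX p
    unfold J W
    simp only [Nat.unpair_pair, Denumerable.ofNat_encode]
    constructor
    · rintro ⟨s, hs⟩
      refine ⟨2 * s, ?_⟩
      rw [K9_eval _ d _ _ (hd _ _), K9_odd_seg X Xs hX]
      have : 2 * s / 2 = s := by omega
      rw [this]
      exact hs
    · rintro ⟨s, hs⟩
      refine ⟨s / 2, ?_⟩
      rw [K9_eval _ d _ _ (hd _ _), K9_odd_seg X Xs hX] at hs
      exact hs

end Pool.Agent.H639.LU
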