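import Pool.Agent.H639.LU.Defs

/-!
The statements of the tasks.
-/

namespace Pool.Agent.H639.LU

open Nat.Partrec (Code)
open Nat.Partrec.Code (evaln)
open Encodable
open Pool.Agent.Helper446.Defs Pool.Agent.Helper446.Oracle

/-- N1 -/
def P_N1 : Prop :=
  (∀ (c : Code) (x x' : Str) (n : ℕ), x <+: x' → (nxtv c x n).isSome = true →
    (nxtv c x' n).isSome = true) ∧
  (∀ (c : Code) (X : ℕ → Bool) (n t v : ℕ), nxtv c (seg X t) n = some v →
    ∃ s ≤ t, v ∈ c.eval (encode (n, seg X s))) ∧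
  (∀ (c : Code) (X : ℕ → Bool) (n s : ℕ), (c.eval (encode (n, seg X s))).Dom →
    ∃ t, (nxtv c (seg X t) n).isSome = true)

/-- N2 (from N1) -/
def P_N2 : Prop :=
  P_N1 →
  (∀ (r : Code) (X : ℕ → Bool) (n : ℕ), W r X n ↔ ∃ t, hst r (seg X t) n = true) ∧
  (∀ (r : Code) (x x' : Str) (n : ℕ), x <+: x' → hst r x n = true → hst r x' n = true) ∧
  (∀ (X : ℕ → Bool) (p : ℕ), J X p ↔ ∃ t, kst (seg X t) p = true) ∧
  (∀ (x x' : Str) (p : ℕ), x <+: x' → kst x p = true → kst x' p = true)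

/-- C1: computability of `nxtv`. -/
def P_C1 : Prop :=
  Computable (fun p : Code × Str × ℕ => nxtv p.1 p.2.1 p.2.2) ∧
  Computable (fun p : Code × Str × ℕ => nxt p.1 p.2.1 p.2.2) ∧
  Computable (fun p : Code × Str × ℕ => hst p.1 p.2.1 p.2.2) ∧
  Computable (fun p : Str × ℕ => kst p.1 p.2)

/-- C2: computability of `dec`, `cnt` (from C1). -/
def P_C2 : Prop :=
  P_C1 →
  Computable (fun p : Code × Str => dec p.1 p.2) ∧
  ∀ ee : List ℕ, Computable (fun x : Str => cnt ee x)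

/-- C3: computability of the decoding machine (from C1, C2). -/
def P_C3 : Prop :=
  P_C1 → P_C2 → ∀ (r : Code) (e : ℕ → Code) (ν : ℕ → ℕ) (ee : List ℕ), Computable e → Computable ν →
    Computable (fun x : Str => out r e ν ee x)

/-- D1: basic properties of `dec`. -/
def P_D1 : Prop :=
  (∀ c : Code, dec c [] = []) ∧
  (∀ (c : Code) (x : Str) (b : Bool),
    dec c (x ++ [b]) = dec c x ++ (nxt c (x ++ [b]) (dec c x).length).toList) ∧
  (∀ (c : Code) (x x' : Str), x <+: x' → dec c x <+: dec c x') ∧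
  (∀ (c : Code) (x : Str), (dec c x).length ≤ x.length)

/-- D2: basic properties of `cnt` (from N1, N2). -/
def P_D2 : Prop :=
  P_N1 → P_N2 →
  (∀ (ee : List ℕ) (x x' : Str), x <+: x' → cnt ee x ≤ cnt ee x') ∧
  (∀ (ee : List ℕ) (x : Str), cnt ee x ≤ ee.length) ∧
  (∀ (ee : List ℕ) (X : ℕ → Bool) (t : ℕ), cnt ee (seg X t) ≤ cntP (J X) ee) ∧
  (∀ (ee : List ℕ) (X : ℕ → Bool), ∃ t, ∀ t' ≥ t, cnt ee (seg X t') = cntP (J X) ee) ∧
  (∀ ee : List ℕ, cnt ee [] = 0)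

/-- D3: the recursion of the decoding machine. -/
def P_D3 : Prop :=
  ∀ (r : Code) (e : ℕ → Code) (ν : ℕ → ℕ) (ee : List ℕ), sta r e ν ee [] = (0, 0) ∧
    ∀ (x : Str) (b : Bool), sta r e ν ee (x ++ [b]) = stp r e ν ee (x ++ [b]) (sta r e ν ee x)

/-- K1: programs from computable functions. -/
def P_K1 : Prop :=
  ∀ f : ℕ × Str → Option ℕ, Computable f →
    ∃ c : Code, ∀ (n : ℕ) (σ : Str), c.eval (encode (n, σ)) = Part.ofOption (f (n, σ))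

/-- K2: relative enumerability by initial segments. -/
def P_K2 : Prop :=
  ∀ (α : Type) [Primcodable α] (X : ℕ → Bool) (S : α → Prop),
    REIn (St X) S ↔ ∃ R : α → Str → Prop,
      REPred (fun p : α × Str => R p.1 p.2) ∧ ∀ a, S a ↔ ∃ s, R a (seg X s)

/-- K3: Turing reductions by programs (from K2). -/
def P_K3 : Prop := P_K2 → ∀ X Y : ℕ → Bool, le Y X ↔ ∃ c : Code, Red c X Y

/-- K4 -/
def P_K4 : Prop :=
  (∀ (X Z : ℕ → Bool), le X Z → ∀ S : ℕ → Prop, REIn (St X) S → REIn (St Z) S) ∧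
  (∀ (X Y Z : ℕ → Bool), le X Y → le Y Z → le X Z) ∧
  (∀ X : ℕ → Bool, le X X) ∧
  (∀ (X z : ℕ → Bool) (f : ℕ → ℕ), Computable f → (∀ n, z n = X (f n)) → le z X)

/-- K5 (from K2) -/
def P_K5 : Prop :=
  P_K2 →
  (∀ (r : Code) (X : ℕ → Bool), REIn (St X) (W r X)) ∧
  (∀ X : ℕ → Bool, REIn (St X) (J X)) ∧
  (∀ (X : ℕ → Bool) (P : ℕ → Prop), REIn (St X) P → REIn (St X) (fun n => ¬ P n) →
    le (ch P) X) ∧
  (∀ (X : ℕ → Bool) (P : ℕ → Prop), le (ch P) X → REIn (St X) P ∧ REIn (St X) (fun n => ¬ P n))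

/-- K6 (from K2, C1) -/
def P_K6 : Prop :=
  P_K2 → P_C1 → ∀ Z : ℕ → Bool, REIn (St Z) (fun p : Code × ℕ × ℕ => Val p.1 Z p.2.1 p.2.2)

/-- V1 (from N1) -/
def P_V1 : Prop :=
  P_N1 →
  (∀ (c : Code) (Z : ℕ → Bool) (n v v' : ℕ), Val c Z n v → Val c Z n v' → v = v') ∧
  (∀ (c : Code) (Z Y : ℕ → Bool) (n : ℕ), Red c Z Y → Val c Z n (Y n).toNat)

/-- a legal move -/
def Legal (D : Set (ℕ → Bool)) (c : Code) (x x' : Str) (b : Bool) : Prop :=
  (∃ X ∈ D, seg X x'.length = x') ∧ x <+: x' ∧ dec c x' = dec c x ++ [b]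

/-- G1: the closed game is determined (from D1). -/
def P_G1 : Prop :=
  P_D1 → ∀ (D : Set (ℕ → Bool)) (c : Code), D.Nonempty → (∃ G, Emb D c G) ∨
    ∃ β : Str → Bool, ∀ x : ℕ → Str, x 0 = [] → ¬ ∀ n, Legal D c (x n) (x (n + 1)) (β (x n))

/-- G2: the use of the recursion theorem (from N1, C1, C2, D1, K2, K3). -/
def P_G2 : Prop :=
  P_N1 → P_C1 → P_C2 → P_D1 → P_K2 → P_K3 → ∀ (D : Set (ℕ → Bool)) (β : Code → Str → Bool),
    (∀ (c : Code) (x : ℕ → Str), x 0 = [] → ¬ ∀ n, Legal D c (x n) (x (n + 1)) (β c (x n))) →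
    ¬ Cof D

/-- B1: branches (from D1). -/
def P_B1 : Prop :=
  P_D1 → ∀ (c : Code) (G : Str → Str), Tr c G →
    (∀ η η' : Str, G η <+: G (η ++ η')) ∧
    (∀ (A : ℕ → Bool) (t : ℕ), t ≤ (G (seg A t)).length ∧
      seg (br G A) (G (seg A t)).length = G (seg A t)) ∧
    (∀ (A : ℕ → Bool) (t : ℕ), ∃ k, dec c (seg (br G A) t) = seg A k) ∧
    (∀ (A : ℕ → Bool) (k : ℕ), dec c (seg (br G A) (G (seg A k)).length) = seg A k)

/-- B2: closure properties (from D1, B1). -/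
def P_B2 : Prop :=
  P_D1 → P_B1 →
  (∀ (c : Code) (G : Str → Str), Tr c G → Clo (Rng G)) ∧
  (∀ (F : Set (ℕ → Bool)) (c : Code) (G : Str → Str), Emb F c G → Clo F → Rng G ⊆ F) ∧
  (∀ (r : Code) (F : Set (ℕ → Bool)) (n : ℕ), Clo F → Clo (Bd r F n))

/-- B3: the set of branches has members of cofinally many degrees (from D1, B1, C2, K2). -/
def P_B3 : Prop :=
  P_D1 → P_B1 → P_C2 → P_K2 → ∀ (c : Code) (G : Str → Str), Tr c G → Cof (Rng G)

/-- S1: the dichotomy (from K2, K4, K5). -/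
def P_S1 : Prop :=
  P_K2 → P_K4 → P_K5 → ∀ (r : Code) (z₀ : ℕ → Bool), (∀ X, le z₀ X → ¬ le (ch (W r X)) X) →
    ∀ F : Set (ℕ → Bool), Cof F → ∃ n, Cof (Bd r F n)

/-- S2: the chain (from G1, G2, B2, B3, S1). -/
def P_S2 : Prop :=
  P_D1 → P_N1 → P_C1 → P_C2 → P_K2 → P_K3 → P_K4 → P_K5 → P_B1 →
  P_G1 → P_G2 → P_B2 → P_B3 → P_S1 →
  ∀ (r : Code) (z₀ : ℕ → Bool), (∀ X, le z₀ X → ¬ le (ch (W r X)) X) →
    ∀ (m : ℕ) (F : Set (ℕ → Bool)), Clo F → Cof F →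
      ∃ (e : ℕ → Code) (g : ℕ → Str → Str) (ν : ℕ → ℕ), Chain r m e g ν ∧ Rng (g m) ⊆ F

/-- M1: no transition on a branch (from B1, D1, D2, D3, N2). -/
def P_M1 : Prop :=
  P_N1 → P_B1 → P_D1 → P_D2 → P_D3 → P_N2 →
  ∀ (r : Code) (m : ℕ) (e : ℕ → Code) (g : ℕ → Str → Str) (ν : ℕ → ℕ) (ee : List ℕ),
    Chain r m e g ν → ee.length ≤ m → ∀ q ≤ m, ∀ (w η : Str) (s : ℕ),
      w <+: g q η → sta r e ν ee w = (q, s) →
      ∀ y : Str, w <+: y → y <+: g q η → sta r e ν ee y = (q, s)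

/-- M2: the next level (from B1, D1, D2, D3, N2, M1). -/
def P_M2 : Prop :=
  P_N1 → P_B1 → P_D1 → P_D2 → P_D3 → P_N2 → P_M1 →
  ∀ (r : Code) (m : ℕ) (e : ℕ → Code) (g : ℕ → Str → Str) (ν : ℕ → ℕ) (ee : List ℕ),
    Chain r m e g ν → ee.length ≤ m → ∀ q < m, ∀ (η x : Str),
      sta r e ν ee (g q η) = (q, η.length) → q + 1 ≤ cnt ee x →
      ∃ η' : Str, g q (η ++ x) <+: g (q + 1) η' ∧
        sta r e ν ee (g (q + 1) η') = (q + 1, η'.length) ∧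
        hst r (g (q + 1) η') (ν (q + 1)) = true ∧
        ∀ y : Str, g q (η ++ x) <+: y → y <+: g (q + 1) η' →
          (sta r e ν ee y = (q, η.length) ∨ sta r e ν ee y = (q + 1, η'.length))

/-- the invariants of the coding -/
structure Plan (r : Code) (m : ℕ) (e : ℕ → Code) (g : ℕ → Str → Str) (ν : ℕ → ℕ) (ee : List ℕ)
    (pl : Str → ℕ × Str) : Prop where
  /-- the level is at most the number of visible events -/
  lev : ∀ x, (pl x).1 ≤ cnt ee x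
  /-- the level grows if it is smaller than the number of visible events -/
  grow : ∀ x b, (pl x).1 < cnt ee (x ++ [b]) → (pl (x ++ [b])).1 = (pl x).1 + 1
  /-- otherwise nothing changes -/
  stay : ∀ x b, cnt ee (x ++ [b]) ≤ (pl x).1 → pl (x ++ [b]) = pl x
  /-- the state of the decoding machine -/
  state : ∀ x, sta r e ν ee (g (pl x).1 (pl x).2) = ((pl x).1, (pl x).2.length)
  /-- monotonicity -/
  mono : ∀ x b, g (pl x).1 ((pl x).2 ++ x) <+: g (pl (x ++ [b])).1 ((pl (x ++ [b])).2 ++ (x ++ [b]))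
  /-- the enumerated numbers -/
  enum : ∀ x q, 1 ≤ q → q ≤ (pl x).1 → hst r (g (pl x).1 ((pl x).2 ++ x)) (ν q) = true
  /-- soundness of the output -/
  sound : ∀ x y : Str, y <+: g (pl x).1 ((pl x).2 ++ x) → out r e ν ee y <+: x

/-- M3: existence of the plan (from B1, D1, D2, D3, N2, M1, M2). -/
def P_M3 : Prop :=
  P_N1 → P_B1 → P_D1 → P_D2 → P_D3 → P_N2 → P_M1 → P_M2 →
  ∀ (r : Code) (m : ℕ) (e : ℕ → Code) (g : ℕ → Str → Str) (ν : ℕ → ℕ) (ee : List ℕ),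
    Chain r m e g ν → ee.length ≤ m → ∃ pl : Str → ℕ × Str, Plan r m e g ν ee pl

/-- what the coding achieves for the approximations `Yap` -/
def Works (r : Code) (m : ℕ) (e : ℕ → Code) (ν : ℕ → ℕ) (ee : List ℕ) (Yap : Str → Str) : Prop :=
  (∀ x b, Yap x <+: Yap (x ++ [b])) ∧ (∀ x, x.length ≤ (Yap x).length) ∧
    ∀ X Y : ℕ → Bool, (∀ t, seg Y (Yap (seg X t)).length = Yap (seg X t)) →
      (∀ t, ∃ k, out r e ν ee (seg Y t) = seg X k) ∧
      (∀ n, ∃ t, n < (out r e ν ee (seg Y t)).length) ∧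
      ∀ q, 1 ≤ q → q ≤ m → (W r Y (ν q) ↔ q ≤ cntP (J X) ee)

/-- M4: the coding works (from B1, D1, D2, D3, N2, M1, M3). -/
def P_M4 : Prop :=
  P_N1 → P_B1 → P_D1 → P_D2 → P_D3 → P_N2 → P_M1 →
  ∀ (r : Code) (m : ℕ) (e : ℕ → Code) (g : ℕ → Str → Str) (ν : ℕ → ℕ) (ee : List ℕ)
    (pl : Str → ℕ × Str), Chain r m e g ν → ee.length ≤ m → Plan r m e g ν ee pl →
      Works r m e ν ee (fun x => g (pl x).1 ((pl x).2 ++ x))

/-- I1: the program computing `Y` from `X` (from K1). -/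
def P_I1 : Prop :=
  P_K1 → ∀ Yp : List ℕ → Str → Str,
    (∀ ee x b, Yp ee x <+: Yp ee (x ++ [b])) → (∀ ee x, x.length ≤ (Yp ee x).length) →
    ∃ ζ : ℕ → Bool, ∀ ee, ∃ i : Code, ∀ X Y : ℕ → Bool, (∀ n, X (2 * n) = ζ n) →
      (∀ t, seg Y (Yp ee (seg X t)).length = Yp ee (seg X t)) → Red i X Y

/-- I2: the program computing `X` from `Y` (from K1, C1, C2, C3). -/
def P_I2 : Prop :=
  P_K1 → P_C1 → P_C2 → P_C3 → ∀ (r : Code) (e : ℕ → Code) (ν : ℕ → ℕ) (ee : List ℕ), Computable e →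
    Computable ν → ∃ j : Code, ∀ X Y : ℕ → Bool,
      (∀ t, ∃ k, out r e ν ee (seg Y t) = seg X k) →
      (∀ n, ∃ t, n < (out r e ν ee (seg Y t)).length) → Red j Y X

/-- R1: the cardinality lemma for c.e. sets. -/
def P_R1 : Prop :=
  ∀ (Z : Set ℕ) (A : ℕ → Prop), REIn Z A → ∀ (E : List ℕ → ℕ → Prop),
    REIn Z (fun p : List ℕ × ℕ => E p.1 p.2) → ∀ m : ℕ,
    (∀ ee : List ℕ, ee.length = m → E ee (cntP A ee)) →
    (∀ ee : List ℕ, ee.length = m → ∃ v ≤ m, ¬ E ee v) → REIn Z (fun n => ¬ A n)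

/-- the candidates for the number of events -/
def Cand (Z : ℕ → Bool) (m : ℕ) (ν : ℕ → ℕ) (Lr : List ℕ → Code → Prop) (ee : List ℕ) (v : ℕ) :
    Prop :=
  ∃ l : Code, Lr ee l ∧ ∀ q < m, Val l Z (ν (q + 1)) (if q + 1 ≤ v then 1 else 0)

/-- R2: the candidates are enumerable (from K2, C1, K6). -/
def P_R2 : Prop :=
  P_K2 → P_C1 → P_K6 → ∀ (Z : ℕ → Bool) (m : ℕ) (ν : ℕ → ℕ) (Lr : List ℕ → Code → Prop), Computable ν →
    REIn (St Z) (fun p : List ℕ × Code => Lr p.1 p.2) →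
    REIn (St Z) (fun p : List ℕ × ℕ => Cand Z m ν Lr p.1 p.2)

/-- R3: there are few candidates (from N1, V1). -/
def P_R3 : Prop :=
  P_N1 → P_V1 → ∀ (Z : ℕ → Bool) (m : ℕ) (ν : ℕ → ℕ) (Lr : List ℕ → Code → Prop) (ee : List ℕ)
    (L : Finset Code), L.card ≤ m → (∀ l, Lr ee l → l ∈ L) → ∃ v ≤ m, ¬ Cand Z m ν Lr ee v

/-- L1: limits of monotone approximations. -/
def P_L1 : Prop :=
  ∀ Yap : Str → Str, (∀ x b, Yap x <+: Yap (x ++ [b])) → (∀ x, x.length ≤ (Yap x).length) →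
    ∀ X : ℕ → Bool, ∃ Y : ℕ → Bool, ∀ t, seg Y (Yap (seg X t)).length = Yap (seg X t)

/-- The theorem. -/
def Main : Prop :=
  ∀ (r : Code) (z₀ : ℕ → Bool),
    (∀ X, le z₀ X → ¬ le (ch (W r X)) X ∧ le X (ch (W r X)) ∧ ¬ le (ch (J X)) (ch (W r X))) →
    ∀ k : ℕ, ∃ i j : Code, ∀ L : Finset Code, L.card ≤ k → ∀ z : ℕ → Bool,
      ∃ X Y : ℕ → Bool, le z X ∧ Red i X Y ∧ Red j Y X ∧
        ∀ l ∈ L, ¬ Red l (ch (W r X)) (ch (W r Y))

end Pool.Agent.H639.LU
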